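import Pool.Agent.Helper88.WS.StepA

/-!
# Smooth sums from sharp sums

`smooth_of_sharp`: if the partial sums of `b` are at most `Y (1 + n/M)²`, then `|∑ b(n) (n/M) e^{-n/M}| ≤ 1728 Y`.
`smooth_V`: Vaughan's inequality with the exponent `c` for the smooth Moebius sums.
-/

set_option autoImplicit false

namespace Pool.Helper19.WZ

open Finset Filter Topology Pool.Helper19.V4 Pool.Agent.Helper88.WS

lemma wt_zero (M : ℕ) : wt M 0 = 0 := by simp [wt]

lemma wt_nonneg (M n : ℕ) : 0 ≤ wt M n := by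
  unfold wt
  positivity

/-- the decrements of the weight -/
lemma wt_diff {M : ℕ} (hM : 1 ≤ M) (n : ℕ) :
    |wt M n - wt M (n + 1)| ≤ 1 / M * (2 + (n : ℝ) / M) * Real.exp (-((n : ℝ) / M)) := by
  have hM0 : (0 : ℝ) < M := by exact_mod_cast hM
  have hM1 : (1 : ℝ) ≤ M := by exact_mod_cast hM
  obtain ⟨u, hu⟩ : ∃ u : ℝ, u = (n : ℝ) / M := ⟨_, rfl⟩
  obtain ⟨h, hh⟩ : ∃ h : ℝ, h = 1 / (M : ℝ) := ⟨_, rfl⟩
  have hu0 : 0 ≤ u := by rw [hu]; positivity
  have hh0 : 0 < h := by rw [hh]; positivity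
  have hh1 : h ≤ 1 := by rw [hh, div_le_one hM0]; exact hM1
  have e1 : wt M n = u * Real.exp (-u) := by rw [wt, hu]
  have e2 : wt M (n + 1) = (u + h) * Real.exp (-(u + h)) := by
    rw [wt, hu, hh]
    push_cast
    rw [add_div]
  have e3 : Real.exp (-(u + h)) = Real.exp (-u) * Real.exp (-h) := by
    rw [← Real.exp_add]
    congr 1
    ring
  rw [e1, e2, e3, ← hu, ← hh]
  have e4 : u * Real.exp (-u) - (u + h) * (Real.exp (-u) * Real.exp (-h)) =
      Real.exp (-u) * (u * (1 - Real.exp (-h)) - h * Real.exp (-h)) := by ring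
  have e5 : 1 - h ≤ Real.exp (-h) := by
    have := Real.add_one_le_exp (-h)
    linarith
  have e6 : Real.exp (-h) ≤ 1 := Real.exp_le_one_iff.2 (by linarith)
  have e7 : 0 < Real.exp (-h) := Real.exp_pos _
  have e8 : |u * (1 - Real.exp (-h)) - h * Real.exp (-h)| ≤ h * (2 + u) := by
    rw [abs_le]
    constructor
    · nlinarith
    · nlinarith
  rw [e4, abs_mul, abs_of_pos (Real.exp_pos _)]
  calc Real.exp (-u) * |u * (1 - Real.exp (-h)) - h * Real.exp (-h)| ≤ Real.exp (-u) * (h * (2 + u)) :=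
        mul_le_mul_of_nonneg_left e8 (Real.exp_pos _).le
    _ = _ := by ring

lemma cube_exp {u : ℝ} (hu : 0 ≤ u) : (1 + u) ^ 2 * (2 + u) * Real.exp (-u) ≤ 432 * Real.exp (-(u / 2)) := by
  have h1 : 1 + u ≤ 6 * Real.exp (u / 6) := by
    have := Real.add_one_le_exp (u / 6)
    linarith
  have h2 : (1 + u) ^ 3 ≤ 216 * Real.exp (u / 2) := by
    have h3 : (1 + u) ^ 3 ≤ (6 * Real.exp (u / 6)) ^ 3 := pow_le_pow_left₀ (by linarith) h1 3
    have h4 : (6 * Real.exp (u / 6)) ^ 3 = 216 * Real.exp (u / 2) := by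
      rw [mul_pow, ← Real.exp_nat_mul]
      norm_num
      ring
    linarith
  have h5 : Real.exp (-u) * Real.exp (u / 2) = Real.exp (-(u / 2)) := by
    rw [← Real.exp_add]
    congr 1
    ring
  have h6 : 0 < Real.exp (-u) := Real.exp_pos _
  calc (1 + u) ^ 2 * (2 + u) * Real.exp (-u) ≤ 2 * (1 + u) ^ 3 * Real.exp (-u) := by
        apply mul_le_mul_of_nonneg_right _ h6.le
        nlinarith [sq_nonneg (1 + u)]
    _ ≤ 2 * (216 * Real.exp (u / 2)) * Real.exp (-u) := by gcongr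
    _ = 432 * (Real.exp (-u) * Real.exp (u / 2)) := by ring
    _ = _ := by rw [h5]

lemma geom_exp {M : ℕ} (hM : 1 ≤ M) (X : ℕ) : ∑ n ∈ range X, Real.exp (-((n : ℝ) / M / 2)) ≤ 4 * M := by
  have hM0 : (0 : ℝ) < M := by exact_mod_cast hM
  have hM1 : (1 : ℝ) ≤ M := by exact_mod_cast hM
  obtain ⟨x, hx⟩ : ∃ x : ℝ, x = 1 / (2 * (M : ℝ)) := ⟨_, rfl⟩
  have hx0 : 0 < x := by rw [hx]; positivity
  have hx1 : x ≤ 1 / 2 := by
    rw [hx]
    exact one_div_le_one_div_of_le (by norm_num) (by linarith)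
  obtain ⟨r, hr⟩ : ∃ r : ℝ, r = Real.exp (-x) := ⟨_, rfl⟩
  have hr0 : 0 ≤ r := by rw [hr]; exact (Real.exp_pos _).le
  have hr1 : r ≤ 1 - x / 2 := by
    have e1 : 1 + x ≤ Real.exp x := by
      have := Real.add_one_le_exp x
      linarith
    have e2 : r = 1 / Real.exp x := by rw [hr, Real.exp_neg, one_div]
    rw [e2, div_le_iff₀ (Real.exp_pos _)]
    nlinarith
  have h1 : ∀ n : ℕ, Real.exp (-((n : ℝ) / M / 2)) = r ^ n := by
    intro n
    rw [hr, ← Real.exp_nat_mul, hx]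
    congr 1
    field_simp
  simp_rw [h1]
  have h2 : (∑ n ∈ range X, r ^ n) * (1 - r) ≤ 1 := by
    rw [geom_sum_mul_neg]
    have : 0 ≤ r ^ X := by positivity
    linarith
  have h3 : 0 ≤ ∑ n ∈ range X, r ^ n := sum_nonneg fun _ _ => by positivity
  have h4 : (∑ n ∈ range X, r ^ n) * (x / 2) ≤ 1 :=
    (mul_le_mul_of_nonneg_left (by linarith) h3).trans h2
  have h5 : x / 2 * (4 * M) = 1 := by
    rw [hx]
    field_simp
    norm_num
  have h6 : 0 < 4 * (M : ℝ) := by positivity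
  calc ∑ n ∈ range X, r ^ n = (∑ n ∈ range X, r ^ n) * (x / 2) * (4 * M) := by rw [mul_assoc, h5, mul_one]
    _ ≤ 1 * (4 * M) := mul_le_mul_of_nonneg_right h4 h6.le
    _ = 4 * M := one_mul _

/-- Abel summation -/
lemma abel19 (b : ℕ → ℂ) (w : ℕ → ℝ) (hb : b 0 = 0) (X : ℕ) : ∑ n ∈ range (X + 1), b n * w n =
    (∑ k ∈ Icc 1 X, b k) * w (X + 1) + ∑ n ∈ range (X + 1), (∑ k ∈ Icc 1 n, b k) * ((w n - w (n + 1) : ℝ) : ℂ) := by
  induction X with
  | zero => simp [hb]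
  | succ X ih =>
    rw [sum_range_succ, ih, sum_range_succ (n := X + 1), sum_Icc_succ_top (by omega)]
    push_cast
    ring

theorem smooth_of_sharp {M : ℕ} (hM : 1 ≤ M) {b : ℕ → ℂ} (hb0 : b 0 = 0) (hb : ∀ n, ‖b n‖ ≤ 1) {Y : ℝ} (hY : 0 ≤ Y)
    (h : ∀ n : ℕ, 1 ≤ n → ‖∑ k ∈ Icc 1 n, b k‖ ≤ Y * (1 + (n : ℝ) / M) ^ 2) :
    ‖∑' n : ℕ, b n * (wt M n : ℂ)‖ ≤ 1728 * Y := by
  have hM0 : (0 : ℝ) < M := by exact_mod_cast hM
  have hS : ∀ n : ℕ, ‖∑ k ∈ Icc 1 n, b k‖ ≤ Y * (1 + (n : ℝ) / M) ^ 2 := by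
    intro n
    rcases Nat.eq_zero_or_pos n with h0 | h0
    · rw [h0]
      simp
      exact hY
    · exact h n h0
  -- the weights are summable
  have hw : Summable (fun n : ℕ => wt M n) := by
    have e1 : ∀ n : ℕ, wt M n ≤ 432 * Real.exp (-((n : ℝ) / M / 2)) := by
      intro n
      obtain ⟨u, hu⟩ : ∃ u : ℝ, u = (n : ℝ) / M := ⟨_, rfl⟩
      have hu0 : 0 ≤ u := by rw [hu]; positivity
      have e2 : wt M n = u * Real.exp (-u) := by rw [wt, hu]
      rw [e2, ← hu]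
      refine le_trans ?_ (cube_exp hu0)
      apply mul_le_mul_of_nonneg_right _ (Real.exp_pos _).le
      nlinarith [mul_nonneg hu0 hu0, mul_nonneg (mul_nonneg hu0 hu0) hu0]
    have e3 : Summable (fun n : ℕ => 432 * Real.exp (-((n : ℝ) / M / 2))) := by
      refine Summable.mul_left _ (summable_of_sum_range_le (c := 4 * M) (fun n => (Real.exp_pos _).le)
        (fun X => geom_exp hM X))
    exact Summable.of_nonneg_of_le (fun n => wt_nonneg M n) e1 e3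
  have hbw : Summable (fun n : ℕ => b n * (wt M n : ℂ)) := by
    refine Summable.of_norm_bounded hw fun n => ?_
    rw [norm_mul, Complex.norm_real, Real.norm_of_nonneg (wt_nonneg M n)]
    exact mul_le_of_le_one_left (wt_nonneg M n) (hb n)
  have hlim := hbw.hasSum.tendsto_sum_nat.norm
  -- the end term
  have hend : Tendsto (fun X : ℕ => ‖∑ n ∈ range X, b n * (wt M n : ℂ)‖ - 1728 * Y) atTop
      (𝓝 (‖∑' n : ℕ, b n * (wt M n : ℂ)‖ - 1728 * Y)) := hlim.sub_const _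
  have hzero : Tendsto (fun X : ℕ => Y * (432 * Real.exp (-((X : ℝ) / M / 2)))) atTop (𝓝 0) := by
    have e1 : Tendsto (fun X : ℕ => Real.exp (-((X : ℝ) / M / 2))) atTop (𝓝 0) := by
      have e3 : Summable (fun n : ℕ => Real.exp (-((n : ℝ) / M / 2))) :=
        summable_of_sum_range_le (c := 4 * M) (fun n => (Real.exp_pos _).le) (fun X => geom_exp hM X)
      exact e3.tendsto_atTop_zero
    simpa using (e1.const_mul 432).const_mul Y
  have hle : ∀ᶠ X : ℕ in atTop, ‖∑ n ∈ range X, b n * (wt M n : ℂ)‖ - 1728 * Y ≤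
      Y * (432 * Real.exp (-((X : ℝ) / M / 2))) := by
    filter_upwards [eventually_ge_atTop 1] with X hX
    obtain ⟨Z, rfl⟩ : ∃ Z, X = Z + 1 := ⟨X - 1, by omega⟩
    rw [abel19 b (fun n => wt M n) hb0 Z]
    have e1 : ‖(∑ k ∈ Icc 1 Z, b k) * (wt M (Z + 1) : ℂ)‖ ≤ Y * (432 * Real.exp (-(((Z + 1 : ℕ) : ℝ) / M / 2))) := by
      rw [norm_mul, Complex.norm_real, Real.norm_of_nonneg (wt_nonneg _ _)]
      obtain ⟨u, hu⟩ : ∃ u : ℝ, u = ((Z + 1 : ℕ) : ℝ) / M := ⟨_, rfl⟩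
      have hu0 : 0 ≤ u := by rw [hu]; positivity
      have e2 : wt M (Z + 1) = u * Real.exp (-u) := by rw [wt, hu]
      have e3 : (Z : ℝ) / M ≤ u := by
        rw [hu]
        gcongr
        omega
      have e4 : ‖∑ k ∈ Icc 1 Z, b k‖ ≤ Y * (1 + u) ^ 2 := by
        refine (hS Z).trans ?_
        have : 0 ≤ (Z : ℝ) / M := by positivity
        gcongr
      rw [e2, ← hu]
      calc ‖∑ k ∈ Icc 1 Z, b k‖ * (u * Real.exp (-u)) ≤ Y * (1 + u) ^ 2 * (u * Real.exp (-u)) := by gcongr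
        _ ≤ Y * (1 + u) ^ 2 * ((2 + u) * Real.exp (-u)) := by
          gcongr
          linarith
        _ = Y * ((1 + u) ^ 2 * (2 + u) * Real.exp (-u)) := by ring
        _ ≤ _ := mul_le_mul_of_nonneg_left (cube_exp hu0) hY
    have e5 : ‖∑ n ∈ range (Z + 1), (∑ k ∈ Icc 1 n, b k) * ((wt M n - wt M (n + 1) : ℝ) : ℂ)‖ ≤ 1728 * Y := by
      refine (norm_sum_le _ _).trans ?_
      have e6 : ∀ n ∈ range (Z + 1), ‖(∑ k ∈ Icc 1 n, b k) * ((wt M n - wt M (n + 1) : ℝ) : ℂ)‖ ≤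
          Y * (1 / M * 432) * Real.exp (-((n : ℝ) / M / 2)) := by
        intro n _
        rw [norm_mul, Complex.norm_real, Real.norm_eq_abs]
        have hu0 : 0 ≤ (n : ℝ) / M := by positivity
        calc ‖∑ k ∈ Icc 1 n, b k‖ * |wt M n - wt M (n + 1)| ≤
              Y * (1 + (n : ℝ) / M) ^ 2 * (1 / M * (2 + (n : ℝ) / M) * Real.exp (-((n : ℝ) / M))) :=
              mul_le_mul (hS n) (wt_diff hM n) (abs_nonneg _) (by positivity)
          _ = Y * (1 / M) * ((1 + (n : ℝ) / M) ^ 2 * (2 + (n : ℝ) / M) * Real.exp (-((n : ℝ) / M))) := by ring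
          _ ≤ Y * (1 / M) * (432 * Real.exp (-((n : ℝ) / M / 2))) :=
            mul_le_mul_of_nonneg_left (cube_exp hu0) (by positivity)
          _ = _ := by ring
      refine (sum_le_sum e6).trans ?_
      rw [← mul_sum]
      calc Y * (1 / M * 432) * ∑ n ∈ range (Z + 1), Real.exp (-((n : ℝ) / M / 2)) ≤ Y * (1 / M * 432) * (4 * M) :=
            mul_le_mul_of_nonneg_left (geom_exp hM _) (by positivity)
        _ = 1728 * Y := by field_simp; ring
    have e7 := norm_add_le ((∑ k ∈ Icc 1 Z, b k) * (wt M (Z + 1) : ℂ))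
      (∑ n ∈ range (Z + 1), (∑ k ∈ Icc 1 n, b k) * ((wt M n - wt M (n + 1) : ℝ) : ℂ))
    linarith
  have := le_of_tendsto_of_tendsto hend hzero hle
  linarith

/-- Vaughan's inequality with the exponent `c` -/
def VForm (c : ℝ) : Prop := ∀ ε : ℝ, 0 < ε → ∃ C : ℝ, 0 < C ∧ ∀ N : ℕ, 1 ≤ N →
    ∀ (x : ℝ) (a : ℤ) (q : ℕ), 1 ≤ q → IsCoprime a (q : ℤ) → |x - a / q| ≤ 1 / (q : ℝ) ^ 2 →
      ‖FM N x‖ ≤ C * (N : ℝ) ^ ε * ((N : ℝ) / Real.sqrt q + (N : ℝ) ^ c + Real.sqrt (q * N))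

/-- the smooth Moebius sum -/
noncomputable def GM (M : ℕ) (x : ℝ) : ℂ :=
  ∑' n : ℕ, ((ArithmeticFunction.moebius n : ℤ) : ℂ) * (wt M n : ℂ) * ex (n * x)

/-- Vaughan's inequality for the smooth sum -/
theorem smooth_V {c : ℝ} (hc0 : 0 ≤ c) (hc1 : c ≤ 1) (hV : VForm c) {ε : ℝ} (hε : 0 < ε) (hε1 : ε ≤ 1) :
    ∃ C : ℝ, 0 < C ∧ ∀ M : ℕ, 1 ≤ M →
    ∀ (x : ℝ) (a : ℤ) (q : ℕ), 1 ≤ q → IsCoprime a (q : ℤ) → |x - a / q| ≤ 1 / (q : ℝ) ^ 2 →
      ‖GM M x‖ ≤ C * (M : ℝ) ^ ε * ((M : ℝ) / Real.sqrt q + (M : ℝ) ^ c + Real.sqrt (q * M)) := by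
  obtain ⟨C, hC, hV⟩ := hV ε hε
  refine ⟨1728 * C, by positivity, fun M hM x a q hq haq hx => ?_⟩
  have hM0 : (0 : ℝ) < M := by exact_mod_cast hM
  have hq0 : (0 : ℝ) < q := by exact_mod_cast hq
  obtain ⟨Y, hY⟩ : ∃ Y : ℝ, Y = (M : ℝ) / Real.sqrt q + (M : ℝ) ^ c + Real.sqrt (q * M) := ⟨_, rfl⟩
  have hY0 : 0 ≤ Y := by rw [hY]; positivity
  have key := smooth_of_sharp hM (b := fun n => ((ArithmeticFunction.moebius n : ℤ) : ℂ) * ex (n * x)) (by simp)
    (fun n => by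
      rw [norm_mul, norm_ex, mul_one, Complex.norm_intCast]
      exact_mod_cast ArithmeticFunction.abs_moebius_le_one) (Y := C * (M : ℝ) ^ ε * Y) (by positivity)
    (fun n hn => by
      have h1 := hV n hn x a q hq haq hx
      have hn0 : (0 : ℝ) < n := by exact_mod_cast hn
      have hu0 : 0 ≤ (n : ℝ) / M := by positivity
      have hu1 : 1 ≤ 1 + (n : ℝ) / M := by linarith
      have hpow : ∀ p : ℝ, 0 ≤ p → p ≤ 1 → (n : ℝ) ^ p ≤ (M : ℝ) ^ p * (1 + (n : ℝ) / M) := by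
        intro p hp0 hp1
        have e1 : (n : ℝ) = M * ((n : ℝ) / M) := by field_simp
        calc (n : ℝ) ^ p = (M : ℝ) ^ p * ((n : ℝ) / M) ^ p := by
              rw [← Real.mul_rpow hM0.le hu0, ← e1]
          _ ≤ (M : ℝ) ^ p * (1 + (n : ℝ) / M) ^ p := by
            gcongr
            linarith
          _ ≤ (M : ℝ) ^ p * (1 + (n : ℝ) / M) ^ (1 : ℝ) := by
            apply mul_le_mul_of_nonneg_left _ (by positivity)
            exact Real.rpow_le_rpow_of_exponent_le hu1 hp1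
          _ = _ := by rw [Real.rpow_one]
      have e2 := hpow ε hε.le hε1
      have e3 := hpow c hc0 hc1
      have e4 : (n : ℝ) ≤ M * (1 + (n : ℝ) / M) := by
        have := hpow 1 (by norm_num) le_rfl
        simpa using this
      have e5 : Real.sqrt (q * n) ≤ Real.sqrt (q * M) * (1 + (n : ℝ) / M) := by
        have f1 : Real.sqrt (q * n) ≤ Real.sqrt (q * M * (1 + (n : ℝ) / M) ^ 2) := by
          apply Real.sqrt_le_sqrt
          have f2 : (n : ℝ) ≤ M * (1 + (n : ℝ) / M) ^ 2 := by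
            refine e4.trans ?_
            apply mul_le_mul_of_nonneg_left _ hM0.le
            nlinarith
          calc (q : ℝ) * n ≤ q * (M * (1 + (n : ℝ) / M) ^ 2) := mul_le_mul_of_nonneg_left f2 hq0.le
            _ = _ := by ring
        have f3 : Real.sqrt (q * M * (1 + (n : ℝ) / M) ^ 2) = Real.sqrt (q * M) * (1 + (n : ℝ) / M) := by
          rw [Real.sqrt_mul (show (0 : ℝ) ≤ (q : ℝ) * M by positivity), Real.sqrt_sq (by linarith)]
        rw [f3] at f1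
        exact f1
      have e6 : (n : ℝ) / Real.sqrt q + (n : ℝ) ^ c + Real.sqrt (q * n) ≤ Y * (1 + (n : ℝ) / M) := by
        have f1 : (n : ℝ) / Real.sqrt q ≤ M / Real.sqrt q * (1 + (n : ℝ) / M) := by
          rw [div_mul_eq_mul_div]
          gcongr
        rw [hY, add_mul, add_mul]
        linarith
      have e7 : 0 ≤ (n : ℝ) / Real.sqrt q + (n : ℝ) ^ c + Real.sqrt (q * n) := by positivity
      have h2 : ∑ k ∈ Icc 1 n, (fun n => ((ArithmeticFunction.moebius n : ℤ) : ℂ) * ex (n * x)) k = FM n x := rfl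
      rw [h2]
      calc ‖FM n x‖ ≤ C * (n : ℝ) ^ ε * ((n : ℝ) / Real.sqrt q + (n : ℝ) ^ c + Real.sqrt (q * n)) := h1
        _ ≤ C * ((M : ℝ) ^ ε * (1 + (n : ℝ) / M)) * (Y * (1 + (n : ℝ) / M)) := by gcongr
        _ = _ := by ring)
  have e1 : GM M x = ∑' n : ℕ, (fun n => ((ArithmeticFunction.moebius n : ℤ) : ℂ) * ex (n * x)) n * (wt M n : ℂ) := by
    unfold GM
    congr 1
    ext n
    ring
  rw [e1, ← hY]
  refine key.trans (le_of_eq ?_)
  ring

end Pool.Helper19.WZ
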