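import Pool.Agent.Helper19.WZ.Smooth
import Pool.Agent.Helper19.V4.Defs

/-!
# The converse: a bound for the Moebius exponential sums gives a half plane without zeros

`zf_of_bound`: if `sup_x |F_N(x)| ≤ C N^(a + ε)` for all `ε`, then no Dirichlet L-function vanishes in `Re s > a`.
-/

set_option autoImplicit false

namespace Pool.Helper19.WZ

open Complex MeasureTheory Set Filter Topology DirichletCharacter Pool.Helper19.V4

/-- partial sums, cut at `1` -/
noncomputable def Bf (f : ℕ → ℂ) (t : ℝ) : ℂ :=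
  (Ioi (1 : ℝ)).indicator (fun t => ∑ k ∈ Finset.Icc 1 ⌊t⌋₊, f k) t

lemma measurable_Bf (f : ℕ → ℂ) : Measurable (Bf f) := by
  unfold Bf
  apply Measurable.indicator _ measurableSet_Ioi
  have : (fun t : ℝ => ∑ k ∈ Finset.Icc 1 ⌊t⌋₊, f k) =
      (fun n : ℕ => ∑ k ∈ Finset.Icc 1 n, f k) ∘ (fun t : ℝ => ⌊t⌋₊) := rfl
  rw [this]
  exact (measurable_from_top).comp Nat.measurable_floor

lemma norm_Bf_le {f : ℕ → ℂ} {b C : ℝ} (hC : 0 ≤ C) (hb : 0 ≤ b)
    (h : ∀ N : ℕ, 1 ≤ N → ‖∑ k ∈ Finset.Icc 1 N, f k‖ ≤ C * (N : ℝ) ^ b) {t : ℝ} (ht : 0 ≤ t) : ‖Bf f t‖ ≤ C * t ^ b := by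
  unfold Bf
  by_cases h1 : t ∈ Ioi (1 : ℝ)
  · rw [indicator_of_mem h1]
    have h2 : 1 ≤ ⌊t⌋₊ := Nat.floor_pos.2 (le_of_lt h1)
    refine (h _ h2).trans ?_
    have h3 : (⌊t⌋₊ : ℝ) ≤ t := Nat.floor_le ht
    gcongr
  · rw [indicator_of_notMem h1, norm_zero]
    positivity

lemma mellin_Bf_diff {f : ℕ → ℂ} {b C : ℝ} (hC : 0 ≤ C) (hb : 0 ≤ b)
    (h : ∀ N : ℕ, 1 ≤ N → ‖∑ k ∈ Finset.Icc 1 N, f k‖ ≤ C * (N : ℝ) ^ b) {s : ℂ} (hs : b < s.re) :
    DifferentiableAt ℂ (mellin (Bf f)) (-s) := by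
  refine mellin_differentiableAt_of_isBigO_rpow (a := -b) (b := -s.re - 1) ?_ ?_ (by simpa) ?_ (by simp)
  · intro x hx
    have hx0 : (0 : ℝ) < x := hx
    refine ⟨Ioi 0 ∩ Metric.ball x 1, ?_, ?_⟩
    · exact inter_mem self_mem_nhdsWithin (mem_nhdsWithin_of_mem_nhds (Metric.ball_mem_nhds x one_pos))
    · refine Measure.integrableOn_of_bounded (M := C * (x + 1) ^ b) ?_ ((measurable_Bf f).aestronglyMeasurable) ?_
      · exact ((measure_mono inter_subset_right).trans_lt measure_ball_lt_top).ne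
      · filter_upwards [ae_restrict_mem (measurableSet_Ioi.inter measurableSet_ball)] with t ht
        have ht0 : (0 : ℝ) < t := ht.1
        have ht1 : t ≤ x + 1 := by
          have := ht.2
          rw [Metric.mem_ball, Real.dist_eq] at this
          have := (abs_lt.1 this).2
          linarith
        refine (norm_Bf_le hC hb h ht0.le).trans ?_
        gcongr
  · refine Asymptotics.IsBigO.of_bound C ?_
    filter_upwards [eventually_ge_atTop 0] with t ht
    rw [neg_neg, Real.norm_of_nonneg (by positivity)]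
    exact norm_Bf_le hC hb h ht
  · refine Asymptotics.IsBigO.of_bound 0 ?_
    have : ∀ᶠ t : ℝ in 𝓝[>] 0, t ∈ Ioo (0:ℝ) 1 := Ioo_mem_nhdsGT one_pos
    filter_upwards [this] with t ht
    unfold Bf
    rw [indicator_of_notMem (by simp [ht.2.le])]
    simp

lemma mellin_Bf_eq (f : ℕ → ℂ) (s : ℂ) :
    mellin (Bf f) (-s) = ∫ t in Ioi (1 : ℝ), (∑ k ∈ Finset.Icc 1 ⌊t⌋₊, f k) * (t : ℂ) ^ (-(s + 1)) := by
  unfold mellin
  have h1 : ∀ t : ℝ, (t : ℂ) ^ (-s - 1) • Bf f t =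
      (Ioi (1:ℝ)).indicator (fun t : ℝ => (∑ k ∈ Finset.Icc 1 ⌊t⌋₊, f k) * (t : ℂ) ^ (-(s + 1))) t := by
    intro t
    unfold Bf
    by_cases h : t ∈ Ioi (1:ℝ)
    · rw [indicator_of_mem h, indicator_of_mem h, smul_eq_mul, mul_comm]
      congr 2
      ring
    · rw [indicator_of_notMem h, indicator_of_notMem h, smul_zero]
  simp_rw [h1]
  rw [setIntegral_indicator measurableSet_Ioi]
  congr 2
  rw [Ioi_inter_Ioi]
  simp

/-- analytic continuation of a product relation -/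
lemma continue_rel {f : ℕ → ℂ} {b C : ℝ} (hC : 0 ≤ C) (hb : 0 ≤ b) (hb1 : b < 1)
    (h : ∀ N : ℕ, 1 ≤ N → ‖∑ k ∈ Finset.Icc 1 N, f k‖ ≤ C * (N : ℝ) ^ b)
    (hsum : ∀ s : ℂ, 1 < s.re → LSeriesSummable f s) {Λ p : ℂ → ℂ} (hΛ : Differentiable ℂ Λ) (hp : Differentiable ℂ p)
    (hrel : ∀ s : ℂ, 1 < s.re → Λ s * LSeries f s = p s) {s : ℂ} (hs : b < s.re) :
    Λ s * (s * mellin (Bf f) (-s)) = p s := by
  obtain ⟨U, hU⟩ : ∃ U : Set ℂ, U = {s : ℂ | b < s.re} := ⟨_, rfl⟩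
  have hUo : IsOpen U := by rw [hU]; exact isOpen_lt continuous_const Complex.continuous_re
  have hUc : IsPreconnected U := by rw [hU]; exact (convex_halfSpace_re_gt _).isPreconnected
  have hga : AnalyticOnNhd ℂ (fun s : ℂ => Λ s * (s * mellin (Bf f) (-s))) U := by
    apply DifferentiableOn.analyticOnNhd _ hUo
    intro z hz
    rw [hU] at hz
    apply DifferentiableAt.differentiableWithinAt
    refine (hΛ z).mul (differentiableAt_id.mul ?_)
    exact DifferentiableAt.comp (g := mellin (Bf f)) z (mellin_Bf_diff hC hb h hz) differentiable_neg.differentiableAt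
  have hpa : AnalyticOnNhd ℂ p U := hp.differentiableOn.analyticOnNhd hUo
  have hnear : (fun s : ℂ => Λ s * (s * mellin (Bf f) (-s))) =ᶠ[𝓝 (2 : ℂ)] p := by
    have hV : IsOpen {s : ℂ | 1 < s.re} := isOpen_lt continuous_const Complex.continuous_re
    filter_upwards [hV.mem_nhds (show (2:ℂ) ∈ {s : ℂ | 1 < s.re} by simp)] with z hz
    have hz1 : 1 < z.re := hz
    rw [← hrel z hz1, mellin_Bf_eq, ← LSeries_eq_mul_integral f (r := b) hb (by linarith) (hsum z hz1) ?_]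
    refine Asymptotics.IsBigO.of_bound C ?_
    filter_upwards [eventually_ge_atTop 1] with n hn
    rw [Real.norm_of_nonneg (by positivity)]
    exact h n hn
  exact hga.eqOn_of_preconnected_of_eventuallyEq hpa hUc (by rw [hU]; simp; linarith) hnear (by rw [hU]; exact hs)

/-- a character by additive characters -/
lemma char_add {q : ℕ} [NeZero q] (χ : DirichletCharacter ℂ q) : ∃ c : ZMod q → ℂ, (∀ k, ‖c k‖ ≤ 1) ∧
    ∀ n : ℕ, χ (n : ZMod q) = ∑ k : ZMod q, c k * ex (n * ((k.val : ℝ) / (q : ℝ))) := by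
  have hq : (q : ℂ) ≠ 0 := by exact_mod_cast NeZero.ne q
  have hqr : (0 : ℝ) < q := by exact_mod_cast Nat.pos_of_ne_zero (NeZero.ne q)
  refine ⟨fun k => (q : ℂ)⁻¹ * ZMod.dft (fun j => χ j) k, fun k => ?_, fun n => ?_⟩
  · show ‖(q : ℂ)⁻¹ * ZMod.dft (fun j => χ j) k‖ ≤ 1
    rw [ZMod.dft_apply, norm_mul, norm_inv, Complex.norm_natCast]
    have h1 : ‖∑ j : ZMod q, ZMod.stdAddChar (-(j * k)) • χ j‖ ≤ q := by
      refine (norm_sum_le _ _).trans ?_
      calc ∑ j : ZMod q, ‖ZMod.stdAddChar (-(j * k)) • χ j‖ ≤ ∑ _j : ZMod q, (1 : ℝ) := by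
            refine Finset.sum_le_sum fun j _ => ?_
            rw [norm_smul, AddChar.norm_apply, one_mul]
            exact norm_le_one χ j
        _ = q := by simp
    rw [inv_mul_le_iff₀ hqr, mul_one]
    exact h1
  · have h1 : (fun j => χ j) = (ZMod.dft (N := q) (E := ℂ)).symm (ZMod.dft (fun j => χ j)) :=
      (LinearEquiv.symm_apply_apply _ _).symm
    have h2 : χ (n : ZMod q) = (ZMod.dft (N := q) (E := ℂ)).symm (ZMod.dft (fun j => χ j)) (n : ZMod q) :=
      congrFun h1 (n : ZMod q)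
    rw [h2, ZMod.invDFT_apply, smul_eq_mul, Finset.mul_sum]
    refine Finset.sum_congr rfl fun k _ => ?_
    have h3 : ZMod.stdAddChar (k * (n : ZMod q)) = ex (n * ((k.val : ℝ) / (q : ℝ))) := by
      have h4 := ZMod.stdAddChar_coe (N := q) ((k.val : ℤ) * (n : ℤ))
      push_cast at h4
      rw [ZMod.natCast_zmod_val] at h4
      rw [h4, ex]
      congr 1
      push_cast
      ring
    rw [h3, smul_eq_mul]
    ring

/-- a bound for the exponential sums bounds the sums with characters -/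
lemma char_sum_le {q : ℕ} [NeZero q] (χ : DirichletCharacter ℂ q) {C b : ℝ}
    (h : ∀ N : ℕ, 1 ≤ N → ∀ x : ℝ, ‖FM N x‖ ≤ C * (N : ℝ) ^ b) {N : ℕ} (hN : 1 ≤ N) :
    ‖∑ n ∈ Finset.Icc 1 N, mc χ n‖ ≤ q * C * (N : ℝ) ^ b := by
  obtain ⟨c, hc, hχ⟩ := char_add χ
  have h1 : ∑ n ∈ Finset.Icc 1 N, mc χ n = ∑ k : ZMod q, c k * FM N ((k.val : ℝ) / (q : ℝ)) := by
    unfold mc FM
    simp_rw [hχ, Finset.mul_sum]
    rw [Finset.sum_comm]
    refine Finset.sum_congr rfl fun k _ => Finset.sum_congr rfl fun n _ => ?_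
    ring
  rw [h1]
  refine (norm_sum_le _ _).trans ?_
  calc ∑ k : ZMod q, ‖c k * FM N ((k.val : ℝ) / (q : ℝ))‖ ≤ ∑ _k : ZMod q, C * (N : ℝ) ^ b := by
        refine Finset.sum_le_sum fun k _ => ?_
        rw [norm_mul]
        calc ‖c k‖ * ‖FM N ((k.val : ℝ) / (q : ℝ))‖ ≤ 1 * ‖FM N ((k.val : ℝ) / (q : ℝ))‖ :=
              mul_le_mul_of_nonneg_right (hc k) (norm_nonneg _)
          _ ≤ C * (N : ℝ) ^ b := by rw [one_mul]; exact h N hN _
    _ = q * C * (N : ℝ) ^ b := by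
        rw [Finset.sum_const, Finset.card_univ, ZMod.card, nsmul_eq_mul]
        ring

/-- **A bound for the Moebius exponential sums gives a half plane without zeros.** -/
theorem zf_of_bound {a : ℝ} (ha0 : 0 ≤ a) (h : ∀ ε : ℝ, 0 < ε → ∃ C : ℝ, ∀ N : ℕ, 1 ≤ N → ∀ x : ℝ,
    ‖FM N x‖ ≤ C * (N : ℝ) ^ (a + ε)) : ZF a := by
  intro q _ χ s hs hs1
  rcases le_or_gt 1 s.re with h1 | h1
  · exact LFunction_ne_zero_of_one_le_re χ (Or.inr hs1) h1
  obtain ⟨ε, hε⟩ : ∃ ε : ℝ, ε = (s.re - a) / 2 := ⟨_, rfl⟩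
  have hε0 : 0 < ε := by rw [hε]; linarith
  obtain ⟨C, hC⟩ := h ε hε0
  have hC0 : 0 ≤ C := by
    have := hC 1 le_rfl 0
    have h2 := (norm_nonneg _).trans this
    simpa using h2
  have hb : ∀ N : ℕ, 1 ≤ N → ‖∑ k ∈ Finset.Icc 1 N, mc χ k‖ ≤ q * C * (N : ℝ) ^ (a + ε) :=
    fun N hN => char_sum_le χ hC hN
  have hq0 : (0 : ℝ) ≤ q := Nat.cast_nonneg q
  have hsum : ∀ s : ℂ, 1 < s.re → LSeriesSummable (mc χ) s := fun s hs =>
    LSeriesSummable_of_bounded_of_one_lt_re (m := 1) (fun n _ => norm_mc_le χ n) hs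
  have hmu : ∀ s : ℂ, 1 < s.re → LFunction χ s * LSeries (mc χ) s = 1 := by
    intro s hs
    have h1 := LSeries.mul_mu_eq_one χ hs
    rw [LFunction_eq_LSeries χ hs, ← h1]
    congr 1
    refine LSeries_congr (fun {n} _ => ?_) s
    simp only [mc, Pi.mul_apply]
    ring
  by_cases hχ : χ = 1
  · have key := continue_rel (f := mc χ) (b := a + ε) (C := q * C) (by positivity) (by linarith) (by linarith) hb hsum
      (Λ := LFunctionTrivChar₁ q) (p := fun s => s - 1) (differentiable_LFunctionTrivChar₁ q) (by fun_prop)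
      (fun z hz => by
        have hz1 : z ≠ 1 := by
          rintro rfl
          simp at hz
        have h2 := hmu z hz
        rw [LFunctionTrivChar₁, Function.update_of_ne hz1]
        have h3 : (z - 1) * LFunctionTrivChar q z * LSeries (mc χ) z = (z - 1) * (LFunction χ z * LSeries (mc χ) z) := by
          rw [hχ, LFunctionTrivChar]
          ring
        rw [h3, h2, mul_one]) (s := s) (by rw [hε]; linarith)
    intro h0
    rw [LFunctionTrivChar₁, Function.update_of_ne hs1] at key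
    have h2 : LFunctionTrivChar q s = 0 := by
      rw [LFunctionTrivChar, ← hχ]
      exact h0
    rw [h2, mul_zero, zero_mul] at key
    exact sub_ne_zero.2 hs1 key.symm
  · have key := continue_rel (f := mc χ) (b := a + ε) (C := q * C) (by positivity) (by linarith) (by linarith) hb hsum
      (Λ := LFunction χ) (p := fun _ => 1) (differentiable_LFunction hχ) (by fun_prop) hmu (s := s)
      (by rw [hε]; linarith)
    intro h0
    rw [h0, zero_mul] at key
    exact one_ne_zero key.symm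

end Pool.Helper19.WZ
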