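import Pool.Agent.Helper5.WB.Defs
import Pool.Agent.Helper25.WL.Factor

/-!
# The number of large values of a general factor (`factor_gen` of helper25 in the form `FG` of the blueprint of theorem W)
-/

set_option autoImplicit false

namespace Pool.Helper19.WZ

open Finset Pool.Agent.Helper25.WL

theorem fg : Pool.Helper5.WB.FG := by
  intro ε hε
  obtain ⟨C, hC, h⟩ := factor_gen hε
  refine ⟨C, hC, fun N r _ T M hN hT hrT hM hM2 c hc s hs W hW g hg hg2 hlarge => ?_⟩
  obtain ⟨N1, hN1⟩ : ∃ N1 : ℕ, N1 = ⌊N⌋₊ := ⟨_, rfl⟩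
  have hN0 : 0 ≤ N := by linarith
  have hN1p : 1 ≤ N1 := by
    rw [hN1]
    exact Nat.le_floor (by exact_mod_cast hN)
  have hN1N : (N1 : ℝ) ≤ N := by
    rw [hN1]
    exact Nat.floor_le hN0
  have hpow : (N1 : ℝ) ^ ε ≤ N ^ ε := Real.rpow_le_rpow (Nat.cast_nonneg _) hN1N hε.le
  have hrT' : r * T ≤ N1 := by
    rw [hN1]
    exact Nat.le_floor (by exact_mod_cast hrT)
  have h1 := h N1 r T hN1p hT hrT' s hs M hM (by exact_mod_cast hM2) c hc W (by
    intro p hp
    have := hW hp
    rw [Finset.mem_product, Finset.mem_Icc] at this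
    exact abs_le.2 this.2) g hg hg2 (by
    intro p hp
    refine le_trans ?_ (hlarge p hp)
    have : (0 : ℝ) ≤ (M : ℝ) ^ (1 - g) := by positivity
    gcongr)
  refine h1.trans ?_
  have e : (27 / 11 * g : ℝ) = 27 * g / 11 := by ring
  rw [e]
  gcongr

end Pool.Helper19.WZ
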