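import Pool.Agent.Helper19.WZ.SmV
import Pool.Agent.Helper19.WZ.Conv
import Pool.Agent.Helper19.V5.Defs

/-!
# Theorem W: the last assembly

`Core c a` is the bound of the smooth Moebius sum for `QQ M x b q ≤ 2 M^(2 - 2c)`. With Vaughan's inequality with the exponent `c`
(`VForm c`) it gives `sup_x |F_N(x)| ≪ N^ε (N^c + N^a)`.
-/

set_option autoImplicit false

namespace Pool.Helper19.WZ

open Finset Pool.Helper19.V4 Pool.Helper19.V5 Pool.Agent.Helper88.WS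

/-- The bound of the smooth Moebius sum at points close to a fraction with a small denominator. -/
def Core (c a : ℝ) : Prop := ∀ ε : ℝ, 0 < ε → ∃ C : ℝ, 0 < C ∧ ∀ M : ℕ, 1 ≤ M → ∀ (x : ℝ) (b : ℤ) (q : ℕ), 1 ≤ q →
  IsCoprime b (q : ℤ) → QQ M x b q ≤ 2 * (M : ℝ) ^ (2 - 2 * c : ℝ) →
    ‖GM M x‖ ≤ C * (M : ℝ) ^ ε * ((M : ℝ) ^ c + (M : ℝ) ^ a)

/-- the smooth sums -/
lemma sup_GM {a c : ℝ} (hc : 1 / 2 ≤ c) (hc1 : c < 1) (hV : VForm c) (hCore : Core c a) {ε : ℝ} (hε : 0 < ε)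
    (hε1 : ε ≤ 1) : ∃ C : ℝ, 0 < C ∧ ∀ M : ℕ, 1 ≤ M → ∀ x : ℝ, ‖GM M x‖ ≤ C * (M : ℝ) ^ ε * ((M : ℝ) ^ c + (M : ℝ) ^ a) := by
  obtain ⟨C1, hC1, h1⟩ := smooth_V (by linarith) hc1.le hV hε hε1
  obtain ⟨C2, hC2, h2⟩ := hCore ε hε
  refine ⟨3 * C1 + C2, by positivity, fun M hM x => ?_⟩
  have hN1 : (1 : ℝ) ≤ M := by exact_mod_cast hM
  have hN0 : (0 : ℝ) < M := by linarith
  obtain ⟨K, hK⟩ : ∃ K : ℝ, K = (M : ℝ) ^ (2 - 2 * c : ℝ) := ⟨_, rfl⟩
  have hK0 : 0 < K := by rw [hK]; positivity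
  obtain ⟨D, hD⟩ : ∃ D : ℝ, D = (M : ℝ) ^ (2 * c - 1 : ℝ) := ⟨_, rfl⟩
  have hD1 : 1 ≤ D := by rw [hD]; exact Real.one_le_rpow hN1 (by linarith)
  have hD0 : 0 < D := by linarith
  have hKD : K * D = M := by
    rw [hK, hD, ← Real.rpow_add hN0]
    have : (2 - 2 * c + (2 * c - 1) : ℝ) = 1 := by ring
    rw [this, Real.rpow_one]
  have hn : 0 < ⌊D⌋₊ := Nat.floor_pos.mpr hD1
  obtain ⟨s, hs1, hs2⟩ := Real.exists_rat_abs_sub_le_and_den_le x hn
  have hsden : (0 : ℝ) < s.den := by exact_mod_cast s.den_pos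
  have hsD : (s.den : ℝ) ≤ D := le_trans (by exact_mod_cast hs2) (Nat.floor_le hD0.le)
  have hfl : D < (⌊D⌋₊ : ℝ) + 1 := Nat.lt_floor_add_one D
  have hscast : ((s : ℚ) : ℝ) = (s.num : ℝ) / (s.den : ℝ) := by
    exact_mod_cast congrArg (fun t : ℚ => (t : ℝ)) (Rat.num_div_den s).symm
  rw [hscast] at hs1
  have hs3 : |x - (s.num : ℝ) / (s.den : ℝ)| ≤ 1 / (D * s.den) := by
    refine le_trans hs1 (one_div_le_one_div_of_le (by positivity) ?_)
    exact mul_le_mul_of_nonneg_right hfl.le hsden.le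
  have hcop : IsCoprime s.num (s.den : ℤ) := by
    rw [Int.isCoprime_iff_gcd_eq_one]
    have := s.reduced
    rwa [Nat.coprime_iff_gcd_eq_one] at this
  obtain ⟨b, r, hb, hr⟩ : ∃ (b : ℤ) (r : ℕ), b = s.num ∧ r = s.den := ⟨_, _, rfl, rfl⟩
  rw [← hb, ← hr] at hs3 hcop
  rw [← hr] at hsden hsD
  have hr1 : 1 ≤ r := by rw [hr]; exact s.den_pos
  have hs4 : M * |x - (b : ℝ) / r| * r ≤ K := by
    have e1 : |x - (b : ℝ) / r| * (D * r) ≤ 1 := by
      have := mul_le_mul_of_nonneg_right hs3 (by positivity : 0 ≤ D * (r : ℝ))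
      rwa [one_div, inv_mul_cancel₀ (by positivity)] at this
    calc M * |x - (b : ℝ) / r| * r = K * (|x - (b : ℝ) / r| * (D * r)) := by
          rw [← hKD]
          ring
      _ ≤ K * 1 := mul_le_mul_of_nonneg_left e1 hK0.le
      _ = K := mul_one K
  have hMc : 0 < (M : ℝ) ^ c := by positivity
  have hMa : 0 < (M : ℝ) ^ a := by positivity
  have hMε : 0 < (M : ℝ) ^ ε := by positivity
  rcases le_or_gt K r with hbig | hsm
  · -- Vaughan's inequality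
    have h3 := h1 M hM x b r hr1 hcop (by
      refine hs3.trans (one_div_le_one_div_of_le (by positivity) ?_)
      rw [sq]
      exact mul_le_mul_of_nonneg_right hsD hsden.le)
    have e1 : (M : ℝ) / Real.sqrt r ≤ (M : ℝ) ^ c := by
      have f1 : (M : ℝ) ^ (1 - c : ℝ) ≤ Real.sqrt r := by
        have f2 : (M : ℝ) ^ (1 - c : ℝ) = Real.sqrt K := by
          rw [Real.sqrt_eq_rpow, hK, ← Real.rpow_mul hN0.le]
          congr 1
          ring
        rw [f2]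
        exact Real.sqrt_le_sqrt hbig
      have f3 : 0 < (M : ℝ) ^ (1 - c : ℝ) := by positivity
      calc (M : ℝ) / Real.sqrt r ≤ M / (M : ℝ) ^ (1 - c : ℝ) := div_le_div_of_nonneg_left hN0.le f3 f1
        _ = (M : ℝ) ^ (1 - (1 - c) : ℝ) := by rw [Real.rpow_sub hN0 1 (1 - c), Real.rpow_one]
        _ = (M : ℝ) ^ c := by
          congr 1
          ring
    have e2 : Real.sqrt (r * M) ≤ (M : ℝ) ^ c := by
      have f1 : (r : ℝ) * M ≤ ((M : ℝ) ^ c) ^ 2 := by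
        calc (r : ℝ) * M ≤ D * M := mul_le_mul_of_nonneg_right hsD hN0.le
          _ = ((M : ℝ) ^ c) ^ 2 := by
            rw [hD, ← Real.rpow_natCast, ← Real.rpow_mul hN0.le]
            nth_rw 2 [← Real.rpow_one (M : ℝ)]
            rw [← Real.rpow_add hN0]
            congr 1
            push_cast
            ring
      calc Real.sqrt (r * M) ≤ Real.sqrt (((M : ℝ) ^ c) ^ 2) := Real.sqrt_le_sqrt f1
        _ = (M : ℝ) ^ c := Real.sqrt_sq hMc.le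
    calc ‖GM M x‖ ≤ C1 * (M : ℝ) ^ ε * ((M : ℝ) / Real.sqrt r + (M : ℝ) ^ c + Real.sqrt (r * M)) := h3
      _ ≤ C1 * (M : ℝ) ^ ε * (3 * ((M : ℝ) ^ c + (M : ℝ) ^ a)) := by
        gcongr
        linarith
      _ = 3 * C1 * (M : ℝ) ^ ε * ((M : ℝ) ^ c + (M : ℝ) ^ a) := by ring
      _ ≤ (3 * C1 + C2) * (M : ℝ) ^ ε * ((M : ℝ) ^ c + (M : ℝ) ^ a) := by
        gcongr
        linarith
  · have hQdef : QQ M x b r = r * (1 + M * |x - b / r|) := rfl
    have hQle : QQ M x b r ≤ 2 * (M : ℝ) ^ (2 - 2 * c : ℝ) := by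
      rw [hQdef, ← hK]
      nlinarith
    refine (h2 M hM x b r hr1 hcop hQle).trans ?_
    gcongr
    linarith

/-- **Theorem W, last assembly.** -/
theorem assemble_W {a c : ℝ} (ha : 1 / 2 ≤ a) (hc : 1 / 2 ≤ c) (hc1 : c < 1) (hV : VForm c) (hCore : Core c a) :
    ∀ ε : ℝ, 0 < ε → ∃ C : ℝ, 0 < C ∧ ∀ N : ℕ, 1 ≤ N → ∀ x : ℝ,
      ‖FM N x‖ ≤ C * (N : ℝ) ^ ε * ((N : ℝ) ^ c + (N : ℝ) ^ a) := by
  intro ε hε
  obtain ⟨e, he⟩ : ∃ e : ℝ, e = min (ε / 2) 1 := ⟨_, rfl⟩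
  have he0 : 0 < e := by rw [he]; positivity
  have he1 : e ≤ 1 := by rw [he]; exact min_le_right _ _
  have he2 : 2 * e ≤ ε := by
    have : e ≤ ε / 2 := by rw [he]; exact min_le_left _ _
    linarith
  obtain ⟨C, hC, h⟩ := sup_GM hc hc1 hV hCore he0 he1
  obtain ⟨C', hC'⟩ : ∃ C' : ℝ, C' = 8 * (1 + 1 / e) * C := ⟨_, rfl⟩
  have hC'0 : 0 < C' := by rw [hC']; positivity
  obtain ⟨Ψ, hΨ⟩ : ∃ Ψ : ℕ → ℝ, Ψ = fun N : ℕ => (N : ℝ) ^ (2 * e) * ((N : ℝ) ^ c + (N : ℝ) ^ a) := ⟨_, rfl⟩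
  have hΨ0 : ∀ N : ℕ, 0 ≤ Ψ N := fun N => by rw [hΨ]; positivity
  have hΨ1 : ∀ N : ℕ, 1 ≤ N → 1 ≤ Ψ N := by
    intro N hN
    have hN1 : (1 : ℝ) ≤ N := by exact_mod_cast hN
    rw [hΨ]
    have e1 : 1 ≤ (N : ℝ) ^ (2 * e) := Real.one_le_rpow hN1 (by linarith)
    have e2 : 1 ≤ (N : ℝ) ^ c := Real.one_le_rpow hN1 (by linarith)
    have e3 : 0 ≤ (N : ℝ) ^ a := by positivity
    exact one_le_mul_of_one_le_of_one_le e1 (by linarith)
  have hhalf : ∀ M N : ℕ, 2 * M ≤ N → Ψ M ≤ 3 / 4 * Ψ N := by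
    intro M N hMN
    have h1 : (M : ℝ) ≤ N / 2 := by
      have : (2 : ℝ) * M ≤ N := by exact_mod_cast hMN
      linarith
    have hpow : ∀ p : ℝ, 1 / 2 ≤ p → (M : ℝ) ^ p ≤ 3 / 4 * (N : ℝ) ^ p := by
      intro p hp
      have e1 : (M : ℝ) ^ p ≤ ((N : ℝ) / 2) ^ p := Real.rpow_le_rpow (by positivity) h1 (by linarith)
      have e2 : ((N : ℝ) / 2) ^ p = (N : ℝ) ^ p / 2 ^ p := Real.div_rpow (by positivity) (by norm_num) p
      have e3 : (4 / 3 : ℝ) ≤ 2 ^ p := by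
        have e4 : (4 / 3 : ℝ) ≤ 2 ^ (1 / 2 : ℝ) := by
          rw [← Real.sqrt_eq_rpow]
          apply Real.le_sqrt_of_sq_le
          norm_num
        exact e4.trans (Real.rpow_le_rpow_of_exponent_le (by norm_num) hp)
      rw [e2] at e1
      refine e1.trans ?_
      rw [div_le_iff₀ (by positivity)]
      have e5 : 0 ≤ (N : ℝ) ^ p := by positivity
      nlinarith
    have e1 : (M : ℝ) ^ (2 * e) ≤ (N : ℝ) ^ (2 * e) := by
      apply Real.rpow_le_rpow (by positivity) _ (by linarith)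
      exact_mod_cast (by omega : M ≤ N)
    have e2 := hpow c hc
    have e3 := hpow a ha
    rw [hΨ]
    calc (M : ℝ) ^ (2 * e) * ((M : ℝ) ^ c + (M : ℝ) ^ a) ≤
          (N : ℝ) ^ (2 * e) * (3 / 4 * (N : ℝ) ^ c + 3 / 4 * (N : ℝ) ^ a) := by gcongr
      _ = 3 / 4 * ((N : ℝ) ^ (2 * e) * ((N : ℝ) ^ c + (N : ℝ) ^ a)) := by ring
  -- the dyadic pieces
  have hdy : ∀ M : ℕ, 1 ≤ M → ∀ x : ℝ, ‖∑ n ∈ Ioc M (2 * M), ((ArithmeticFunction.moebius n : ℤ) : ℂ) * ex (n * x)‖ ≤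
      C' * Ψ M := by
    intro M hM x
    have hM1 : (1 : ℝ) ≤ M := by exact_mod_cast hM
    have hM0 : (0 : ℝ) < M := by linarith
    have key := stepA hM (a := fun n => ((ArithmeticFunction.moebius n : ℤ) : ℂ)) (fun n => by
      rw [Complex.norm_intCast]
      exact_mod_cast ArithmeticFunction.abs_moebius_le_one)
      (B := C * (M : ℝ) ^ e * ((M : ℝ) ^ c + (M : ℝ) ^ a)) (fun z => h M hM z) x
    refine key.trans ?_
    have e1 : Real.log M ≤ (M : ℝ) ^ e / e := Real.log_le_rpow_div hM0.le he0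
    have e2 : 1 ≤ (M : ℝ) ^ e := Real.one_le_rpow hM1 he0.le
    have e3 : 1 + Real.log M ≤ (1 + 1 / e) * (M : ℝ) ^ e := by
      have : (1 + 1 / e) * (M : ℝ) ^ e = (M : ℝ) ^ e + (M : ℝ) ^ e / e := by ring
      rw [this]
      linarith
    have e4 : (M : ℝ) ^ (2 * e) = (M : ℝ) ^ e * (M : ℝ) ^ e := by
      rw [← Real.rpow_add hM0]
      congr 1
      ring
    rw [hC', hΨ]
    simp only
    rw [e4]
    have e5 : 0 ≤ C * (M : ℝ) ^ e * ((M : ℝ) ^ c + (M : ℝ) ^ a) := by positivity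
    calc 8 * (1 + Real.log M) * (C * (M : ℝ) ^ e * ((M : ℝ) ^ c + (M : ℝ) ^ a)) ≤
          8 * ((1 + 1 / e) * (M : ℝ) ^ e) * (C * (M : ℝ) ^ e * ((M : ℝ) ^ c + (M : ℝ) ^ a)) := by gcongr
      _ = _ := by ring
  have hind : ∀ N : ℕ, 1 ≤ N → ∀ x : ℝ, ‖FM N x‖ ≤ 4 * (C' + 2) * Ψ N := by
    intro N
    induction N using Nat.strong_induction_on with
    | _ N ih =>
      intro hN x
      rcases Nat.lt_or_ge N 2 with hlt | hge
      · have : N = 1 := by omega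
        subst this
        have e1 : ‖FM 1 x‖ ≤ 1 := by
          unfold FM
          simp [norm_ex]
        have e2 := hΨ1 1 le_rfl
        nlinarith
      · obtain ⟨M, hM⟩ : ∃ M : ℕ, M = N / 2 := ⟨_, rfl⟩
        have hM1 : 1 ≤ M := by omega
        have hMN : M < N := by omega
        have h2M : 2 * M ≤ N := by omega
        have h3 := ih M hMN hM1 x
        have h4 := hdy M hM1 x
        have hsplit : FM N x = FM M x + ∑ n ∈ Ioc M (2 * M), ((ArithmeticFunction.moebius n : ℤ) : ℂ) * ex (n * x) +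
            ∑ n ∈ Ioc (2 * M) N, ((ArithmeticFunction.moebius n : ℤ) : ℂ) * ex (n * x) := by
          unfold FM
          have e1 : ∀ k : ℕ, Icc 1 k = Ioc 0 k := fun k => by
            ext n
            simp only [mem_Icc, mem_Ioc]
            omega
          rw [e1, e1, sum_Ioc_consecutive _ (by omega) (by omega), sum_Ioc_consecutive _ (by omega) (by omega)]
        have h5 : ‖∑ n ∈ Ioc (2 * M) N, ((ArithmeticFunction.moebius n : ℤ) : ℂ) * ex (n * x)‖ ≤ 1 := by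
          have e1 : ∀ n ∈ Ioc (2 * M) N, ‖((ArithmeticFunction.moebius n : ℤ) : ℂ) * ex (n * x)‖ ≤ 1 := by
            intro n _
            rw [norm_mul, norm_ex, mul_one, Complex.norm_intCast]
            exact_mod_cast ArithmeticFunction.abs_moebius_le_one
          refine (norm_sum_le _ _).trans ((sum_le_card_nsmul _ _ _ e1).trans ?_)
          rw [Nat.card_Ioc, nsmul_eq_mul, mul_one]
          have : N - 2 * M ≤ 1 := by omega
          exact_mod_cast this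
        have h6 := hhalf M N h2M
        have h7 := hΨ1 N hN
        rw [hsplit]
        have h8 := norm_add₃_le (a := FM M x)
          (b := ∑ n ∈ Ioc M (2 * M), ((ArithmeticFunction.moebius n : ℤ) : ℂ) * ex (n * x))
          (c := ∑ n ∈ Ioc (2 * M) N, ((ArithmeticFunction.moebius n : ℤ) : ℂ) * ex (n * x))
        have h9 : 4 * (C' + 2) * Ψ M ≤ 4 * (C' + 2) * (3 / 4 * Ψ N) := mul_le_mul_of_nonneg_left h6 (by positivity)
        have h10 : C' * Ψ M ≤ C' * (3 / 4 * Ψ N) := mul_le_mul_of_nonneg_left h6 hC'0.le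
        have h11 := hΨ0 N
        nlinarith
  refine ⟨4 * (C' + 2), by positivity, fun N hN x => ?_⟩
  have hN1 : (1 : ℝ) ≤ N := by exact_mod_cast hN
  refine (hind N hN x).trans ?_
  rw [hΨ]
  simp only
  have e1 : (N : ℝ) ^ (2 * e) ≤ (N : ℝ) ^ ε := Real.rpow_le_rpow_of_exponent_le hN1 he2
  have e2 : 0 ≤ (N : ℝ) ^ c + (N : ℝ) ^ a := by positivity
  calc 4 * (C' + 2) * ((N : ℝ) ^ (2 * e) * ((N : ℝ) ^ c + (N : ℝ) ^ a)) ≤
        4 * (C' + 2) * ((N : ℝ) ^ ε * ((N : ℝ) ^ c + (N : ℝ) ^ a)) := by gcongr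
    _ = _ := by ring

/-- **Theorem W2 from its parts.** -/
theorem w2_of {c : ℝ} (hc : 1 / 2 ≤ c) (hc1 : c < 1) (hV : VForm c) (hCore : ∀ a : ℝ, c ≤ a → a < 1 → ZF a → Core c a)
    {a : ℝ} (hca : c ≤ a) :
    (∀ ε : ℝ, 0 < ε → ∃ C : ℝ, ∀ N : ℕ, 1 ≤ N → ∀ x : ℝ, ‖FM N x‖ ≤ C * (N : ℝ) ^ (a + ε)) ↔ ZF a := by
  constructor
  · exact zf_of_bound (by linarith)
  · intro hZ ε hε
    rcases lt_or_ge a 1 with ha1 | ha1
    · obtain ⟨C, hC, h⟩ := assemble_W (a := a) (by linarith) hc hc1 hV (hCore a hca ha1 hZ) ε hε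
      refine ⟨2 * C, fun N hN x => (h N hN x).trans ?_⟩
      have hN1 : (1 : ℝ) ≤ N := by exact_mod_cast hN
      have hN0 : (0 : ℝ) < N := by linarith
      have e1 : (N : ℝ) ^ c ≤ (N : ℝ) ^ a := Real.rpow_le_rpow_of_exponent_le hN1 hca
      have e2 : (N : ℝ) ^ (a + ε) = (N : ℝ) ^ ε * (N : ℝ) ^ a := by rw [add_comm, Real.rpow_add hN0]
      rw [e2]
      have e3 : 0 < (N : ℝ) ^ ε := by positivity
      calc C * (N : ℝ) ^ ε * ((N : ℝ) ^ c + (N : ℝ) ^ a) ≤ C * (N : ℝ) ^ ε * ((N : ℝ) ^ a + (N : ℝ) ^ a) := by gcongr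
        _ = _ := by ring
    · refine ⟨1, fun N hN x => ?_⟩
      have hN1 : (1 : ℝ) ≤ N := by exact_mod_cast hN
      have e1 : ‖FM N x‖ ≤ N := by
        unfold FM
        have : ∀ n ∈ Icc 1 N, ‖((ArithmeticFunction.moebius n : ℤ) : ℂ) * ex (n * x)‖ ≤ 1 := by
          intro n _
          rw [norm_mul, norm_ex, mul_one, Complex.norm_intCast]
          exact_mod_cast ArithmeticFunction.abs_moebius_le_one
        refine (norm_sum_le _ _).trans ((sum_le_card_nsmul _ _ _ this).trans ?_)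
        simp
      rw [one_mul]
      calc ‖FM N x‖ ≤ (N : ℝ) ^ (1 : ℝ) := by rw [Real.rpow_one]; exact e1
        _ ≤ _ := Real.rpow_le_rpow_of_exponent_le hN1 (by linarith)

end Pool.Helper19.WZ
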