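import Pool.Agent.H62.Gam
import Mathlib

/-!
# Decay of the Gamma function and the Mellin integral of the exponential
-/

set_option autoImplicit false

namespace Pool.Helper19.WZ

open Complex MeasureTheory Set Filter Topology

/-- polynomial decay of `Γ` in a strip in the right half plane -/
lemma gam_decay {σ1 σ2 : ℝ} (h0 : 0 < σ1) (h12 : σ1 ≤ σ2) : ∃ C : ℝ, 0 < C ∧ ∀ s : ℂ, σ1 ≤ s.re → s.re ≤ σ2 →
    ‖Gamma s‖ ≤ C / (1 + |s.im|) ^ 4 := by
  obtain ⟨b, hb⟩ : ∃ b : ℝ, b = min 1 σ1 / 2 := ⟨_, rfl⟩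
  have hb0 : 0 < b := by rw [hb]; positivity
  have hG : 0 < Real.Gamma (σ2 + 4) := Real.Gamma_pos_of_pos (by linarith)
  refine ⟨Real.Gamma (σ2 + 4) / b ^ 4, by positivity, fun s hs1 hs2 => ?_⟩
  have hs0 : 0 < s.re := by linarith
  have hlow : ∀ j : ℝ, 0 ≤ j → b * (1 + |s.im|) ≤ ‖s + j‖ := by
    intro j hj
    have e1 := Complex.abs_re_le_norm (s + j)
    have e2 := Complex.abs_im_le_norm (s + j)
    have e3 : (s + j).re = s.re + j := by simp
    have e4 : (s + j).im = s.im := by simp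
    rw [e3] at e1
    rw [e4] at e2
    have e5 := le_abs_self (s.re + j)
    have e6 : min 1 σ1 ≤ 1 := min_le_left _ _
    have e7 : min 1 σ1 ≤ σ1 := min_le_right _ _
    have e8 : 0 ≤ |s.im| := abs_nonneg _
    rw [hb]
    nlinarith
  have hne : ∀ j : ℝ, 0 ≤ j → s + j ≠ 0 := by
    intro j hj h
    have e1 := hlow j hj
    rw [h, norm_zero] at e1
    have : 0 < b * (1 + |s.im|) := by positivity
    linarith
  have h4 : Gamma (s + 4) = (s + 3) * ((s + 2) * ((s + 1) * (s * Gamma s))) := by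
    have e0 : s ≠ 0 := by simpa using hne 0 le_rfl
    have e1 : s + 1 ≠ 0 := by simpa using hne 1 (by norm_num)
    have e2 : s + 2 ≠ 0 := by simpa using hne 2 (by norm_num)
    have e3 : s + 3 ≠ 0 := by simpa using hne 3 (by norm_num)
    have g4 : Gamma (s + 4) = (s + 3) * Gamma (s + 3) := by
      rw [← Gamma_add_one _ e3]
      congr 1
      ring
    have g3 : Gamma (s + 3) = (s + 2) * Gamma (s + 2) := by
      rw [← Gamma_add_one _ e2]
      congr 1
      ring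
    have g2 : Gamma (s + 2) = (s + 1) * Gamma (s + 1) := by
      rw [← Gamma_add_one _ e1]
      congr 1
      ring
    rw [g4, g3, g2, Gamma_add_one _ e0]
  have h5 : ‖Gamma (s + 4)‖ ≤ Real.Gamma (σ2 + 4) := by
    refine (Pool.Agent.H62.norm_Gamma_le (by simp; linarith)).trans ?_
    have e1 : (s + 4).re = s.re + 4 := by simp
    rw [e1]
    exact Real.Gamma_strictMonoOn_Ici.monotoneOn (show (2 : ℝ) ≤ s.re + 4 by linarith)
      (show (2 : ℝ) ≤ σ2 + 4 by linarith) (by linarith)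
  rw [h4, norm_mul, norm_mul, norm_mul, norm_mul] at h5
  have k0 : b * (1 + |s.im|) ≤ ‖s‖ := by simpa using hlow 0 le_rfl
  have k1 : b * (1 + |s.im|) ≤ ‖s + 1‖ := by simpa using hlow 1 (by norm_num)
  have k2 : b * (1 + |s.im|) ≤ ‖s + 2‖ := by simpa using hlow 2 (by norm_num)
  have k3 : b * (1 + |s.im|) ≤ ‖s + 3‖ := by simpa using hlow 3 (by norm_num)
  obtain ⟨u, hu⟩ : ∃ u : ℝ, u = b * (1 + |s.im|) := ⟨_, rfl⟩
  rw [← hu] at k0 k1 k2 k3
  have hu0 : 0 < u := by rw [hu]; positivity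
  have h6 : u * (u * (u * (u * ‖Gamma s‖))) ≤ Real.Gamma (σ2 + 4) := by
    refine le_trans ?_ h5
    have g0 : 0 ≤ ‖Gamma s‖ := norm_nonneg _
    gcongr
  have h7 : u ^ 4 * ‖Gamma s‖ ≤ Real.Gamma (σ2 + 4) := by
    calc u ^ 4 * ‖Gamma s‖ = u * (u * (u * (u * ‖Gamma s‖))) := by ring
      _ ≤ _ := h6
  have h8 : u ^ 4 = b ^ 4 * (1 + |s.im|) ^ 4 := by rw [hu]; ring
  rw [div_div, ← h8, le_div_iff₀ (by positivity)]
  linarith

lemma int_two : Integrable (fun y : ℝ => (1 + |y|) ^ (-2 : ℝ)) := by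
  have := integrable_one_add_norm (E := ℝ) (μ := volume) (r := 2) (by simp)
  simpa [Real.norm_eq_abs] using this

lemma gam_cont {σ : ℝ} (h0 : 0 < σ) : Continuous (fun y : ℝ => Gamma ((σ : ℂ) + (y : ℂ) * I)) := by
  rw [continuous_iff_continuousAt]
  intro y
  have h1 : ContinuousAt Gamma ((σ : ℂ) + (y : ℂ) * I) := by
    refine (differentiableAt_Gamma _ fun m h => ?_).continuousAt
    have := congrArg Complex.re h
    simp at this
    have hm : (0 : ℝ) ≤ m := Nat.cast_nonneg m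
    linarith
  exact ContinuousAt.comp (g := Gamma) h1 (by fun_prop)

lemma four_le_two (y : ℝ) : 1 / (1 + |y|) ^ 4 ≤ (1 + |y|) ^ (-2 : ℝ) := by
  have h1 : 1 ≤ 1 + |y| := by linarith [abs_nonneg y]
  rw [Real.rpow_neg (by linarith), ← one_div]
  apply one_div_le_one_div_of_le (by positivity)
  calc (1 + |y|) ^ (2 : ℝ) = (1 + |y|) ^ 2 := by norm_num
    _ ≤ (1 + |y|) ^ 4 := pow_le_pow_right₀ h1 (by norm_num)

lemma gam_integrable {σ : ℝ} (h0 : 0 < σ) : Integrable (fun y : ℝ => Gamma ((σ : ℂ) + (y : ℂ) * I)) := by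
  obtain ⟨C, hC, h⟩ := gam_decay h0 le_rfl
  refine (int_two.const_mul C).mono' (gam_cont h0).aestronglyMeasurable ?_
  filter_upwards with y
  have h1 := h ((σ : ℂ) + (y : ℂ) * I) (by simp) (by simp)
  have h2 : ((σ : ℂ) + (y : ℂ) * I).im = y := by simp
  rw [h2] at h1
  refine h1.trans ?_
  have h3 := mul_le_mul_of_nonneg_left (four_le_two y) hC.le
  rw [mul_one_div] at h3
  exact h3

/-- the Mellin integral of the exponential -/
theorem exp_mellin {c x : ℝ} (hc : 0 < c) (hx : 0 < x) : ((Real.exp (-x) : ℝ) : ℂ) =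
    (1 / (2 * Real.pi) : ℝ) * ∫ y : ℝ, (x : ℂ) ^ (-((c : ℂ) + (y : ℂ) * I)) * Gamma ((c : ℂ) + (y : ℂ) * I) := by
  have hm : ∀ s : ℂ, 0 < s.re → mellin (fun x : ℝ => ((Real.exp (-x) : ℝ) : ℂ)) s = Gamma s := by
    intro s hs
    rw [Gamma_eq_integral hs, GammaIntegral_eq_mellin]
  have hre : ∀ y : ℝ, 0 < ((c : ℂ) + (y : ℂ) * I).re := fun y => by simpa using hc
  have hmc : MellinConvergent (fun x : ℝ => ((Real.exp (-x) : ℝ) : ℂ)) c := by
    have h1 := GammaIntegral_convergent (s := (c : ℂ)) (by simpa using hc)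
    unfold MellinConvergent
    refine h1.congr_fun (fun x _ => ?_) measurableSet_Ioi
    simp only [smul_eq_mul]
    rw [mul_comm]
  have key := mellinInv_mellin_eq c (fun x : ℝ => ((Real.exp (-x) : ℝ) : ℂ)) hx hmc (by
    have h1 : (fun y : ℝ => mellin (fun x : ℝ => ((Real.exp (-x) : ℝ) : ℂ)) ((c : ℂ) + (y : ℂ) * I)) =
        fun y : ℝ => Gamma ((c : ℂ) + (y : ℂ) * I) := by
      ext y
      exact hm _ (hre y)
    show Integrable (fun y : ℝ => mellin (fun x : ℝ => ((Real.exp (-x) : ℝ) : ℂ)) ((c : ℂ) + (y : ℂ) * I)) volume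
    rw [h1]
    exact gam_integrable hc) (by fun_prop)
  rw [← key, mellinInv]
  have h2 : ∀ y : ℝ, (x : ℂ) ^ (-((c : ℂ) + (y : ℂ) * I)) • mellin (fun x : ℝ => ((Real.exp (-x) : ℝ) : ℂ))
      ((c : ℂ) + (y : ℂ) * I) = (x : ℂ) ^ (-((c : ℂ) + (y : ℂ) * I)) * Gamma ((c : ℂ) + (y : ℂ) * I) := by
    intro y
    rw [hm _ (hre y), smul_eq_mul]
  simp_rw [h2]
  rw [Complex.real_smul]

end Pool.Helper19.WZ
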