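import Pool.Agent.Helper19.WZ.Log
import Pool.Agent.H62.Lbound
import Pool.Agent.Helper19.WZ.ZBd

/-!
# The inverse of a Dirichlet L-function in a half plane without zeros

`inv_L`: if no Dirichlet L-function vanishes in `Re s > a`, then `1/L(s, χ)` is `O((q (1 + |Im s|))^δ)` uniformly for
`a + ε ≤ Re s ≤ 2`, for all characters (principal ones included).
-/

set_option autoImplicit false

namespace Pool.Helper19.WZ

open Complex Metric Set DirichletCharacter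

/-- no Dirichlet L-function has a zero in `Re s > a` -/
def ZF (a : ℝ) : Prop := ∀ (q : ℕ) [NeZero q] (χ : DirichletCharacter ℂ q) (s : ℂ), a < s.re → s ≠ 1 → LFunction χ s ≠ 0

/-- the sum of `n^(-5/4)` -/
noncomputable def K0 : ℝ := ∑' n : ℕ, 1 / (n : ℝ) ^ (5 / 4 : ℝ)

lemma K0_nonneg : 0 ≤ K0 := tsum_nonneg fun n => by positivity

lemma norm_L_le {q : ℕ} [NeZero q] (χ : DirichletCharacter ℂ q) {s : ℂ} (hs : 5 / 4 ≤ s.re) : ‖LFunction χ s‖ ≤ K0 := by
  have h1 : 1 < s.re := by linarith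
  rw [LFunction_eq_LSeries χ h1]
  unfold LSeries K0
  refine tsum_of_norm_bounded (Real.summable_one_div_nat_rpow.2 (by norm_num)).hasSum (fun n => ?_)
  rcases Nat.eq_zero_or_pos n with hn | hn
  · rw [hn, LSeries.term_zero]
    simp
  · rw [LSeries.term_of_ne_zero (by omega), norm_div, Complex.norm_natCast_cpow_of_pos hn]
    have h2 : (1 : ℝ) ≤ n := by exact_mod_cast hn
    have h3 : (n : ℝ) ^ (5 / 4 : ℝ) ≤ (n : ℝ) ^ s.re := Real.rpow_le_rpow_of_exponent_le h2 hs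
    have h4 : 0 < (n : ℝ) ^ (5 / 4 : ℝ) := by positivity
    calc ‖χ (n : ZMod q)‖ / (n : ℝ) ^ s.re ≤ 1 / (n : ℝ) ^ s.re := by
          gcongr
          exact norm_le_one χ _
      _ ≤ 1 / (n : ℝ) ^ (5 / 4 : ℝ) := one_div_le_one_div_of_le h4 h3

/-- points of the disc -/
lemma re_of_ball {t R : ℝ} {z : ℂ} (hz : z ∈ ball (2 + t * I) R) : 2 - R < z.re ∧ ‖z‖ ≤ 2 + |t| + R := by
  rw [mem_ball, dist_eq_norm] at hz
  constructor
  · have h1 := Complex.abs_re_le_norm (z - (2 + t * I))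
    have h2 : (z - (2 + t * I)).re = z.re - 2 := by simp
    rw [h2] at h1
    have := (abs_le.1 h1).1
    linarith
  · have h1 : z = (z - (2 + t * I)) + (2 + t * I) := by ring
    have h2 : ‖(2 + t * I : ℂ)‖ ≤ 2 + |t| := by
      refine (norm_add_le _ _).trans ?_
      rw [norm_mul, norm_I, mul_one, Complex.norm_real, Real.norm_eq_abs]
      norm_num
    calc ‖z‖ = ‖(z - (2 + t * I)) + (2 + t * I)‖ := by rw [← h1]
      _ ≤ ‖z - (2 + t * I)‖ + ‖(2 + t * I : ℂ)‖ := norm_add_le _ _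
      _ ≤ 2 + |t| + R := by linarith

lemma mem_closedBall_line {t ρ : ℝ} {s : ℂ} (h1 : 2 - ρ ≤ s.re) (h2 : s.re ≤ 2) (ht : t = s.im) :
    s ∈ closedBall (2 + t * I) ρ := by
  rw [mem_closedBall, dist_eq_norm]
  have : s - (2 + t * I) = ((s.re - 2 : ℝ) : ℂ) := by
    apply Complex.ext <;> simp [ht]
  rw [this, Complex.norm_real, Real.norm_eq_abs, abs_of_nonpos (by linarith)]
  linarith

/-- The parameters of `inv_small` in one statement. -/
lemma core {a ε δ : ℝ} (ha0 : 1 / 2 ≤ a) (ha1 : a < 1) (hε : 0 < ε) (hε1 : ε ≤ 1 / 2) (hδ : 0 < δ) :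
    ∃ C : ℝ, 0 < C ∧ ∀ (f : ℂ → ℂ) (t Y : ℝ), 1 ≤ Y → DifferentiableOn ℂ f (ball (2 + t * I) (2 - a)) →
      (∀ z ∈ ball (2 + t * I : ℂ) (2 - a), f z ≠ 0) → (∀ z ∈ ball (2 + t * I : ℂ) (2 - a), ‖f z‖ ≤ Y) →
      1 / 12 ≤ ‖f (2 + t * I)‖ → (∀ z ∈ ball (2 + t * I : ℂ) (3 / 4), ‖f z‖ ≤ K0) →
      ∀ s : ℂ, a + ε ≤ s.re → s.re ≤ 2 → s.im = t → ‖(f s)⁻¹‖ ≤ C * Y ^ δ := by
  obtain ⟨C, hC, h⟩ := inv_small (r1 := 1 / 2) (R1 := 3 / 4) (r2 := 2 - a - ε) (r3 := 2 - a - ε / 2) (R := 2 - a)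
    (C0 := 3) (C1 := K0) (δ := δ) (by norm_num) (by norm_num) (by linarith) (by linarith) (by linarith) (by linarith)
    (by norm_num) K0_nonneg hδ
  refine ⟨C * Real.exp δ, by positivity, fun f t Y hY hf h0 hfY hfc hf1 s hs1 hs2 hst => ?_⟩
  have hY0 : 0 < Y := by linarith
  have hlog : 0 ≤ Real.log Y := Real.log_nonneg hY
  have h3 : Real.exp (-3) ≤ 1 / 12 := by
    have h4 : (12 : ℝ) ≤ Real.exp 3 := by
      have h5 : (2.7 : ℝ) ≤ Real.exp 1 := by
        have := Real.exp_one_gt_d9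
        linarith
      have h6 : Real.exp 3 = Real.exp 1 ^ 3 := by
        rw [← Real.exp_nat_mul]
        norm_num
      rw [h6]
      calc (12 : ℝ) ≤ 2.7 ^ 3 := by norm_num
        _ ≤ _ := pow_le_pow_left₀ (by norm_num) h5 3
    rw [Real.exp_neg, inv_eq_one_div]
    exact one_div_le_one_div_of_le (by norm_num) h4
  have key := h f (2 + t * I) (1 + Real.log Y) (by linarith) hf h0 (fun z hz => (hfY z hz).trans (by
    rw [Real.exp_add, Real.exp_log hY0]
    have : 1 ≤ Real.exp 1 := Real.one_le_exp (by norm_num)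
    nlinarith)) (h3.trans hfc) (fun z hz => (hf1 z hz).trans (by
      have := Real.add_one_le_exp K0
      linarith)) s (mem_closedBall_line (by linarith) hs2 hst.symm)
  refine key.trans (le_of_eq ?_)
  rw [mul_add, mul_one, Real.exp_add, Real.rpow_def_of_pos hY0, mul_comm (Real.log Y) δ]
  ring

/-- nonprincipal characters -/
theorem inv_L_np {a ε δ : ℝ} (ha0 : 1 / 2 ≤ a) (ha1 : a < 1) (hε : 0 < ε) (hε1 : ε ≤ 1 / 2) (hδ : 0 < δ) (hZ : ZF a) :
    ∃ C : ℝ, 0 < C ∧ ∀ (q : ℕ) [NeZero q] (χ : DirichletCharacter ℂ q), χ ≠ 1 → ∀ s : ℂ, a + ε ≤ s.re → s.re ≤ 2 →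
      ‖(LFunction χ s)⁻¹‖ ≤ C * ((q : ℝ) * (1 + |s.im|)) ^ δ := by
  obtain ⟨C, hC, h⟩ := core ha0 ha1 hε hε1 hδ
  refine ⟨C * 8 ^ δ, by positivity, fun q _ χ hχ s hs1 hs2 => ?_⟩
  have hq : (1 : ℝ) ≤ q := by exact_mod_cast NeZero.one_le
  have ht : 0 ≤ |s.im| := abs_nonneg _
  have hqt : 1 ≤ (q : ℝ) * (1 + |s.im|) := one_le_mul_of_one_le_of_one_le hq (by linarith)
  have key := h (LFunction χ) s.im (8 * ((q : ℝ) * (1 + |s.im|))) (by linarith)
    (differentiable_LFunction hχ).differentiableOn (fun z hz => by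
      have h1 := (re_of_ball hz).1
      by_cases hz1 : z = 1
      · rw [hz1]
        exact LFunction_apply_one_ne_zero hχ
      · exact hZ q χ z (by linarith) hz1) (fun z hz => by
      have h1 := (re_of_ball hz).1
      have h2 := (re_of_ball hz).2
      have h3 : 1 / 2 < z.re := by linarith
      have h4 : (q : ℝ) / z.re ≤ 2 * q := by
        rw [div_le_iff₀ (by linarith)]
        nlinarith
      calc ‖LFunction χ z‖ ≤ ‖z‖ * (q / z.re) := Pool.Agent.H62.norm_LFunction_le hχ (by linarith)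
        _ ≤ (4 + |s.im|) * (2 * q) := by
          apply mul_le_mul _ h4 (by positivity) (by positivity)
          linarith
        _ ≤ 8 * ((q : ℝ) * (1 + |s.im|)) := by nlinarith) (by
      have := Pool.Agent.H62.norm_LFunction_two_ge χ (s := 2 + s.im * I) (by simp)
      linarith) (fun z hz => norm_L_le χ (by
      have h1 := (re_of_ball hz).1
      linarith)) s hs1 hs2 rfl
  refine key.trans (le_of_eq ?_)
  rw [Real.mul_rpow (by norm_num) (by linarith)]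
  ring

/-- the function `(s - 1) L(s, χ₀)` -/
lemma triv_eq {q : ℕ} [NeZero q] {s : ℂ} (hs : 0 < s.re) : LFunctionTrivChar₁ q s =
    (∏ p ∈ q.primeFactors, (1 - (p : ℂ) ^ (-s))) * Pool.Helper19.ZBd.Zt s := by
  by_cases h1 : s = 1
  · rw [h1, LFunctionTrivChar₁, Function.update_self, Pool.Helper19.ZBd.Zt_eq_J (by simp)]
    simp [Complex.cpow_neg_one]
  · rw [LFunctionTrivChar₁, Function.update_of_ne h1, LFunctionTrivChar_eq_mul_riemannZeta h1,
      Pool.Helper19.ZBd.Zt_eq hs h1]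
    ring

lemma norm_euler_le {q : ℕ} [NeZero q] {s : ℂ} (hs : 0 < s.re) : ‖∏ p ∈ q.primeFactors, (1 - (p : ℂ) ^ (-s))‖ ≤ q := by
  rw [norm_prod]
  have h1 : ∀ p ∈ q.primeFactors, ‖1 - (p : ℂ) ^ (-s)‖ ≤ p := by
    intro p hp
    have hp2 : 2 ≤ p := (Nat.prime_of_mem_primeFactors hp).two_le
    have h2 : ‖(p : ℂ) ^ (-s)‖ ≤ 1 := by
      rw [Complex.norm_natCast_cpow_of_pos (by omega)]
      exact Real.rpow_le_one_of_one_le_of_nonpos (by exact_mod_cast (by omega : 1 ≤ p)) (by simp; exact hs.le)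
    calc ‖1 - (p : ℂ) ^ (-s)‖ ≤ ‖(1 : ℂ)‖ + ‖(p : ℂ) ^ (-s)‖ := norm_sub_le _ _
      _ ≤ 2 := by rw [norm_one]; linarith
      _ ≤ p := by exact_mod_cast hp2
  calc ∏ p ∈ q.primeFactors, ‖1 - (p : ℂ) ^ (-s)‖ ≤ ∏ p ∈ q.primeFactors, (p : ℝ) :=
        Finset.prod_le_prod (fun _ _ => norm_nonneg _) h1
    _ = ((∏ p ∈ q.primeFactors, p : ℕ) : ℝ) := by push_cast; rfl
    _ ≤ q := by exact_mod_cast Nat.le_of_dvd (Nat.pos_of_ne_zero (NeZero.ne q)) (Nat.prod_primeFactors_dvd q)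

/-- principal characters -/
theorem inv_L_p {a ε δ : ℝ} (ha0 : 1 / 2 ≤ a) (ha1 : a < 1) (hε : 0 < ε) (hε1 : ε ≤ 1 / 2) (hδ : 0 < δ) (hZ : ZF a) :
    ∃ C : ℝ, 0 < C ∧ ∀ (q : ℕ) [NeZero q], ∀ s : ℂ, a + ε ≤ s.re → s.re ≤ 2 → s ≠ 1 →
      ‖(LFunctionTrivChar q s)⁻¹‖ ≤ C * ((q : ℝ) * (1 + |s.im|)) ^ δ := by
  obtain ⟨C, hC, h⟩ := core ha0 ha1 hε hε1 (δ := δ / 2) (by positivity)
  refine ⟨C * 125 ^ (δ / 2), by positivity, fun q _ s hs1 hs2 hs3 => ?_⟩
  have hq : (1 : ℝ) ≤ q := by exact_mod_cast NeZero.one_le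
  have ht : 0 ≤ |s.im| := abs_nonneg _
  obtain ⟨Y, hY⟩ : ∃ Y : ℝ, Y = (q : ℝ) * (1 + |s.im|) := ⟨_, rfl⟩
  have hqt : 1 ≤ Y := by rw [hY]; exact one_le_mul_of_one_le_of_one_le hq (by linarith)
  have hz2 : ∀ z : ℂ, 0 < z.re → 2 ≤ ‖z + 2‖ := by
    intro z hz
    have h1 := Complex.abs_re_le_norm (z + 2)
    have h2 : (z + 2).re = z.re + 2 := by simp
    rw [h2] at h1
    have := le_abs_self (z.re + 2)
    linarith
  have hz0 : ∀ z : ℂ, 0 < z.re → z + 2 ≠ 0 := by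
    intro z hz h0
    have := hz2 z hz
    rw [h0, norm_zero] at this
    linarith
  have hcmp : ∀ z : ℂ, 0 < z.re → ‖z - 1‖ ≤ ‖z + 2‖ := by
    intro z hz
    have e1 : ‖z - 1‖ ^ 2 ≤ ‖z + 2‖ ^ 2 := by
      rw [Complex.sq_norm, Complex.sq_norm, Complex.normSq_apply, Complex.normSq_apply]
      simp only [sub_re, sub_im, add_re, add_im, one_re, one_im, re_ofNat, im_ofNat]
      nlinarith
    exact (sq_le_sq₀ (norm_nonneg _) (norm_nonneg _)).1 e1
  have hre : ∀ z ∈ ball (2 + s.im * I : ℂ) (2 - a), 1 / 2 < z.re := by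
    intro z hz
    have := (re_of_ball hz).1
    linarith
  have key := h (fun z => LFunctionTrivChar₁ q z / (z + 2)) s.im (125 * Y ^ 2) (by nlinarith)
    (by
      refine DifferentiableOn.div (differentiable_LFunctionTrivChar₁ q).differentiableOn (by fun_prop) ?_
      intro z hz
      exact hz0 z (by have := hre z hz; linarith))
    (fun z hz => by
      have h1 := hre z hz
      have h2 := (re_of_ball hz).1
      refine div_ne_zero ?_ (hz0 z (by linarith))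
      by_cases hz1 : z = 1
      · rw [hz1]
        exact LFunctionTrivChar₁_apply_one_ne_zero q
      · rw [LFunctionTrivChar₁, Function.update_of_ne hz1]
        exact mul_ne_zero (sub_ne_zero.2 hz1) (hZ q 1 z (by linarith) hz1))
    (fun z hz => by
      have h1 := hre z hz
      have h2 := (re_of_ball hz).2
      have h3 : ‖z‖ ≤ 4 + |s.im| := by linarith
      rw [norm_div, triv_eq (by linarith), norm_mul]
      have e1 := norm_euler_le (q := q) (s := z) (by linarith)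
      have e2 := Pool.Helper19.ZBd.norm_Zt_le (s := z) (by linarith)
      have e3 : 5 * (1 + ‖z‖) ^ 2 ≤ 125 * (1 + |s.im|) ^ 2 := by
        have e4 : 1 + ‖z‖ ≤ 5 * (1 + |s.im|) := by linarith
        have e5 : (1 + ‖z‖) ^ 2 ≤ (5 * (1 + |s.im|)) ^ 2 := pow_le_pow_left₀ (by positivity) e4 2
        linarith [e5, mul_pow (5 : ℝ) (1 + |s.im|) 2]
      have e6 : ‖∏ p ∈ q.primeFactors, (1 - (p : ℂ) ^ (-z))‖ * ‖Pool.Helper19.ZBd.Zt z‖ ≤
          q * (125 * (1 + |s.im|) ^ 2) := mul_le_mul e1 (e2.trans e3) (norm_nonneg _) (by linarith)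
      have e7 : (q : ℝ) * (125 * (1 + |s.im|) ^ 2) ≤ 125 * Y ^ 2 := by
        rw [hY, mul_pow]
        have : (q : ℝ) ≤ q ^ 2 := by nlinarith
        have e8 : 0 ≤ (1 + |s.im|) ^ 2 := by positivity
        nlinarith
      rw [div_le_iff₀ (by have := hz2 z (by linarith); linarith)]
      have e9 := hz2 z (by linarith)
      have e10 : 0 ≤ 125 * Y ^ 2 := by positivity
      nlinarith)
    (by
      have hc1 : (2 + s.im * I : ℂ) ≠ 1 := by
        intro h0
        have := congrArg Complex.re h0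
        simp at this
      have e1 := Pool.Agent.H62.norm_LFunction_two_ge (1 : DirichletCharacter ℂ q) (s := 2 + s.im * I) (by simp)
      have e2 : ‖(2 + s.im * I : ℂ) + 2‖ ≤ 4 * ‖(2 + s.im * I : ℂ) - 1‖ := by
        have e3 : ‖(2 + s.im * I : ℂ) + 2‖ ^ 2 ≤ (4 * ‖(2 + s.im * I : ℂ) - 1‖) ^ 2 := by
          rw [mul_pow, Complex.sq_norm, Complex.sq_norm, Complex.normSq_apply, Complex.normSq_apply]
          simp
          nlinarith [sq_nonneg s.im]
        exact (sq_le_sq₀ (norm_nonneg _) (by positivity)).1 e3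
      have e4 : 0 < ‖(2 + s.im * I : ℂ) + 2‖ := by
        have := hz2 (2 + s.im * I) (by simp)
        linarith
      rw [norm_div, LFunctionTrivChar₁, Function.update_of_ne hc1, norm_mul, le_div_iff₀ e4]
      have e5 : (0 : ℝ) ≤ ‖(2 + s.im * I : ℂ) - 1‖ := norm_nonneg _
      have e6 : ‖(2 + s.im * I : ℂ) - 1‖ * (1 / 3) ≤ ‖(2 + s.im * I : ℂ) - 1‖ * ‖LFunctionTrivChar q (2 + s.im * I)‖ :=
        mul_le_mul_of_nonneg_left e1 e5
      linarith)
    (fun z hz => by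
      have h1 : 5 / 4 ≤ z.re := by
        have := (re_of_ball hz).1
        linarith
      have hz1 : z ≠ 1 := by
        rintro rfl
        norm_num at h1
      rw [norm_div, LFunctionTrivChar₁, Function.update_of_ne hz1, norm_mul]
      have e1 := norm_L_le (1 : DirichletCharacter ℂ q) h1
      have e2 := hcmp z (by linarith)
      have e3 := hz2 z (by linarith)
      rw [div_le_iff₀ (by linarith)]
      calc ‖z - 1‖ * ‖LFunctionTrivChar q z‖ ≤ ‖z + 2‖ * K0 := mul_le_mul e2 e1 (norm_nonneg _) (norm_nonneg _)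
        _ = K0 * ‖z + 2‖ := mul_comm _ _) s hs1 hs2 rfl
  have hs0 : 0 < s.re := by linarith
  have e1 : ‖(LFunctionTrivChar q s)⁻¹‖ ≤ ‖(LFunctionTrivChar₁ q s / (s + 2))⁻¹‖ := by
    have e2 : (LFunctionTrivChar₁ q s / (s + 2))⁻¹ = (s + 2) / (s - 1) * (LFunctionTrivChar q s)⁻¹ := by
      rw [LFunctionTrivChar₁, Function.update_of_ne hs3, inv_div, div_mul_eq_div_div]
      ring
    rw [e2, norm_mul, norm_div]
    have e3 : 0 < ‖s - 1‖ := norm_pos_iff.2 (sub_ne_zero.2 hs3)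
    have e4 : 1 ≤ ‖s + 2‖ / ‖s - 1‖ := by
      rw [le_div_iff₀ e3, one_mul]
      exact hcmp s hs0
    exact le_mul_of_one_le_left (norm_nonneg _) e4
  refine e1.trans (key.trans (le_of_eq ?_))
  have hY0 : 0 < Y := by linarith
  rw [Real.mul_rpow (by norm_num) (by positivity), ← Real.rpow_natCast Y 2, ← Real.rpow_mul hY0.le, ← hY]
  have : ((2 : ℕ) : ℝ) * (δ / 2) = δ := by push_cast; ring
  rw [this]
  ring

/-- **The inverse of every Dirichlet L-function in a half plane without zeros.** -/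
theorem inv_L {a ε δ : ℝ} (ha0 : 1 / 2 ≤ a) (ha1 : a < 1) (hε : 0 < ε) (hε1 : ε ≤ 1 / 2) (hδ : 0 < δ) (hZ : ZF a) :
    ∃ C : ℝ, 0 < C ∧ ∀ (q : ℕ) [NeZero q] (χ : DirichletCharacter ℂ q), ∀ s : ℂ, a + ε ≤ s.re → s.re ≤ 2 → s ≠ 1 →
      ‖(LFunction χ s)⁻¹‖ ≤ C * ((q : ℝ) * (1 + |s.im|)) ^ δ := by
  obtain ⟨C1, hC1, h1⟩ := inv_L_np ha0 ha1 hε hε1 hδ hZ
  obtain ⟨C2, hC2, h2⟩ := inv_L_p ha0 ha1 hε hε1 hδ hZ
  refine ⟨C1 + C2, by positivity, fun q _ χ s hs1 hs2 hs3 => ?_⟩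
  have h0 : 0 ≤ ((q : ℝ) * (1 + |s.im|)) ^ δ := by positivity
  by_cases hχ : χ = 1
  · rw [hχ]
    refine (h2 q s hs1 hs2 hs3).trans ?_
    nlinarith
  · refine (h1 q χ hχ s hs1 hs2).trans ?_
    nlinarith

end Pool.Helper19.WZ
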