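import Mathlib

/-!
# Small inverse of a nonvanishing function (Borel-Carathéodory and three circles)

`inv_small`: if `f` has no zero in a disc of radius `R`, `|f| ≤ e^L` there, `|f| ≤ e^C1` in a smaller disc and `|f| ≥ e^(-C0)` at
the centre, then `|1/f| ≤ C e^(δ L)` in every smaller disc.
-/

set_option autoImplicit false

namespace Pool.Helper19.WZ

open Complex Metric Set

/-- a nonvanishing function on a disc is an exponential -/
lemma exists_log {f : ℂ → ℂ} {c : ℂ} {R : ℝ} (hR : 0 < R) (hf : DifferentiableOn ℂ f (ball c R))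
    (h0 : ∀ z ∈ ball c R, f z ≠ 0) :
    ∃ g : ℂ → ℂ, DifferentiableOn ℂ g (ball c R) ∧ g c = 0 ∧ ∀ z ∈ ball c R, f z = f c * exp (g z) := by
  have h1 : DifferentiableOn ℂ (fun z => deriv f z / f z) (ball c R) :=
    (hf.deriv isOpen_ball).div hf h0
  obtain ⟨g, hgc, hg⟩ := h1.isExactOn_ball.with_val_at c 0
  have hgd : DifferentiableOn ℂ g (ball c R) := fun z hz => (hg z hz).differentiableAt.differentiableWithinAt
  refine ⟨g, hgd, hgc, fun z hz => ?_⟩
  have hc : c ∈ ball c R := mem_ball_self hR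
  have hconst : f z * exp (-(g z)) = f c * exp (-(g c)) := by
    refine isOpen_ball.is_const_of_deriv_eq_zero (𝕜 := ℂ) (f := fun z => f z * exp (-(g z)))
      (convex_ball c R).isPreconnected ?_ ?_ hz hc
    · exact hf.mul (hgd.neg.cexp)
    · intro w hw
      have e1 : HasDerivAt f (deriv f w) w := (hf.differentiableAt (isOpen_ball.mem_nhds hw)).hasDerivAt
      have e2 := e1.mul ((hg w hw).neg.cexp)
      have e3 := e2.deriv
      have e4 : (fun z => f z * exp (-(g z))) = f * fun z => exp ((-g) z) := by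
        ext z
        simp
      rw [e4, e3]
      have := h0 w hw
      simp only [Pi.zero_apply, Pi.neg_apply]
      field_simp
      ring
  rw [hgc, neg_zero, exp_zero, mul_one] at hconst
  rw [← hconst, mul_assoc, ← exp_add, neg_add_cancel, exp_zero, mul_one]

/-- three circles -/
lemma three_circles {g : ℂ → ℂ} {c : ℂ} {r1 r3 R A B : ℝ} (h1 : 0 < r1) (h13 : r1 < r3) (h3 : r3 < R)
    (hg : DifferentiableOn ℂ g (ball c R)) (hA : ∀ z ∈ closedBall c r1, ‖g z‖ ≤ A)
    (hB : ∀ z ∈ closedBall c r3, ‖g z‖ ≤ B) {z : ℂ} (hz1 : r1 ≤ ‖z - c‖) (hz3 : ‖z - c‖ ≤ r3) :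
    ‖g z‖ ≤ A ^ (1 - (Real.log ‖z - c‖ - Real.log r1) / (Real.log r3 - Real.log r1)) *
      B ^ ((Real.log ‖z - c‖ - Real.log r1) / (Real.log r3 - Real.log r1)) := by
  have h30 : 0 < r3 := h1.trans h13
  have hzc : 0 < ‖z - c‖ := h1.trans_le hz1
  have hlog : Real.log r1 < Real.log r3 := Real.log_lt_log h1 h13
  have hnorm : ∀ w : ℂ, ‖(c + exp w) - c‖ = Real.exp w.re := fun w => by
    rw [add_sub_cancel_left, norm_exp]
  have hmem : ∀ w : ℂ, w.re ≤ Real.log r3 → c + exp w ∈ closedBall c r3 := by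
    intro w hw
    rw [mem_closedBall, dist_eq_norm, hnorm]
    calc Real.exp w.re ≤ Real.exp (Real.log r3) := Real.exp_le_exp.2 hw
      _ = r3 := Real.exp_log h30
  have hdiff : ∀ w : ℂ, w.re ≤ Real.log r3 → DifferentiableAt ℂ (fun w => g (c + exp w)) w := by
    intro w hw
    have e1 : c + exp w ∈ ball c R := closedBall_subset_ball h3 (hmem w hw)
    have e2 : DifferentiableAt ℂ g (c + exp w) := hg.differentiableAt (isOpen_ball.mem_nhds e1)
    exact DifferentiableAt.comp (g := g) w e2 (by fun_prop)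
  have hcl : ∀ w : ℂ, w ∈ closure (HadamardThreeLines.verticalStrip (Real.log r1) (Real.log r3)) → w.re ≤ Real.log r3 := by
    intro w hw
    have : closure (HadamardThreeLines.verticalStrip (Real.log r1) (Real.log r3)) ⊆ {w : ℂ | w.re ≤ Real.log r3} := by
      refine closure_minimal ?_ (isClosed_le Complex.continuous_re continuous_const)
      intro v hv
      exact le_of_lt hv.2
    exact this hw
  have hdc : DiffContOnCl ℂ (fun w => g (c + exp w)) (HadamardThreeLines.verticalStrip (Real.log r1) (Real.log r3)) := by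
    refine DifferentiableOn.diffContOnCl ?_
    intro w hw
    exact (hdiff w (hcl w hw)).differentiableWithinAt
  have hwe : exp (Complex.log (z - c)) = z - c := exp_log (by
    intro h
    rw [h, norm_zero] at hzc
    exact lt_irrefl _ hzc)
  have hre : (Complex.log (z - c)).re = Real.log ‖z - c‖ := log_re _
  have key := HadamardThreeLines.norm_le_interp_of_mem_verticalClosedStrip' (f := fun w => g (c + exp w))
    (z := Complex.log (z - c)) (a := A) (b := B) hlog (by
      show (Complex.log (z - c)).re ∈ Icc _ _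
      rw [hre]
      exact ⟨Real.log_le_log h1 hz1, Real.log_le_log hzc hz3⟩) hdc (by
      refine ⟨B, ?_⟩
      rintro y ⟨w, hw, rfl⟩
      exact hB _ (hmem w hw.2)) (by
      intro w hw
      have hw' : w.re = Real.log r1 := hw
      apply hA
      rw [mem_closedBall, dist_eq_norm, hnorm, hw', Real.exp_log h1]) (by
      intro w hw
      have hw' : w.re = Real.log r3 := hw
      exact hB _ (hmem w hw'.le))
  simp only [hwe, hre] at key
  rwa [add_sub_cancel] at key

/-- powers below `1` are small -/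
lemma rpow_small {θ K δ : ℝ} (hθ0 : 0 ≤ θ) (hθ : θ < 1) (hK : 0 ≤ K) (hδ : 0 < δ) :
    ∃ C : ℝ, 0 ≤ C ∧ ∀ L : ℝ, 1 ≤ L → K * L ^ θ ≤ δ * L + C := by
  obtain ⟨L0, hL0⟩ : ∃ L0 : ℝ, L0 = ((K + 1) / δ) ^ (1 / (1 - θ)) := ⟨_, rfl⟩
  have hL00 : 0 < L0 := by rw [hL0]; positivity
  refine ⟨K * L0 ^ θ, by positivity, fun L hL => ?_⟩
  have hLp : 0 < L := by linarith
  rcases le_total L L0 with h | h
  · have h1 : L ^ θ ≤ L0 ^ θ := Real.rpow_le_rpow hLp.le h hθ0
    have h2 : K * L ^ θ ≤ K * L0 ^ θ := mul_le_mul_of_nonneg_left h1 hK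
    have h3 : 0 ≤ δ * L := by positivity
    linarith
  · have h1 : L = L ^ θ * L ^ (1 - θ) := by
      rw [← Real.rpow_add hLp]
      simp
    have h2 : L0 ^ (1 - θ) = (K + 1) / δ := by
      rw [hL0, ← Real.rpow_mul (by positivity), one_div, inv_mul_cancel₀ (by linarith), Real.rpow_one]
    have h3 : (K + 1) / δ ≤ L ^ (1 - θ) := by
      rw [← h2]
      exact Real.rpow_le_rpow hL00.le h (by linarith)
    have h4 : K ≤ δ * L ^ (1 - θ) := by
      have := mul_le_mul_of_nonneg_left h3 hδ.le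
      rw [mul_div_cancel₀ _ hδ.ne'] at this
      linarith
    have h5 : 0 ≤ L ^ θ := by positivity
    have h6 : K * L ^ θ ≤ δ * L := by
      calc K * L ^ θ ≤ δ * L ^ (1 - θ) * L ^ θ := mul_le_mul_of_nonneg_right h4 h5
        _ = δ * (L ^ θ * L ^ (1 - θ)) := by ring
        _ = δ * L := by rw [← h1]
    have h7 : 0 ≤ K * L0 ^ θ := by positivity
    linarith

/-- **The inverse of a nonvanishing function is small.** -/
theorem inv_small {r1 R1 r2 r3 R C0 C1 δ : ℝ} (h1 : 0 < r1) (h11 : r1 < R1) (h1R : R1 ≤ R) (h12 : r1 < r2) (h23 : r2 < r3)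
    (h3R : r3 < R) (hC0 : 0 ≤ C0) (hC1 : 0 ≤ C1) (hδ : 0 < δ) :
    ∃ C : ℝ, 0 < C ∧ ∀ (f : ℂ → ℂ) (c : ℂ) (L : ℝ), 1 ≤ L → DifferentiableOn ℂ f (ball c R) →
      (∀ z ∈ ball c R, f z ≠ 0) → (∀ z ∈ ball c R, ‖f z‖ ≤ Real.exp L) → Real.exp (-C0) ≤ ‖f c‖ →
      (∀ z ∈ ball c R1, ‖f z‖ ≤ Real.exp C1) → ∀ z ∈ closedBall c r2, ‖(f z)⁻¹‖ ≤ C * Real.exp (δ * L) := by
  have h13 : r1 < r3 := h12.trans h23
  have hl13 : Real.log r1 < Real.log r3 := Real.log_lt_log h1 h13
  obtain ⟨θ, hθ⟩ : ∃ θ : ℝ, θ = (Real.log r2 - Real.log r1) / (Real.log r3 - Real.log r1) := ⟨_, rfl⟩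
  have hθ0 : 0 ≤ θ := by
    rw [hθ]
    exact div_nonneg (by linarith [Real.log_lt_log h1 h12]) (by linarith)
  have hθ1 : θ < 1 := by
    rw [hθ, div_lt_one (by linarith)]
    linarith [Real.log_lt_log (h1.trans h12) h23]
  obtain ⟨A, hA⟩ : ∃ A : ℝ, A = 2 * (C1 + C0 + 1) * r1 / (R1 - r1) + 1 := ⟨_, rfl⟩
  obtain ⟨K3, hK3⟩ : ∃ K3 : ℝ, K3 = 2 * r3 / (R - r3) := ⟨_, rfl⟩
  have hR1 : 0 < R1 - r1 := by linarith
  have hR3 : 0 < R - r3 := by linarith
  have hr3 : 0 < r3 := h1.trans h13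
  have hA1 : 1 ≤ A := by
    rw [hA]
    have : 0 ≤ 2 * (C1 + C0 + 1) * r1 / (R1 - r1) := by positivity
    linarith
  have hK30 : 0 < K3 := by rw [hK3]; positivity
  obtain ⟨K4, hK4⟩ : ∃ K4 : ℝ, K4 = K3 * (2 + C0) + 1 := ⟨_, rfl⟩
  have hK40 : 0 < K4 := by rw [hK4]; positivity
  obtain ⟨C5, hC5, hsm⟩ := rpow_small (K := A * K4 ^ θ) hθ0 hθ1 (by positivity) hδ
  refine ⟨Real.exp (C0 + C5), Real.exp_pos _, fun f c L hL hf h0 hfL hfc hf1 z hz => ?_⟩
  have hR : 0 < R := by linarith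
  obtain ⟨g, hgd, hgc, hg⟩ := exists_log hR hf h0
  have hfc0 : 0 < ‖f c‖ := (Real.exp_pos _).trans_le hfc
  have hnorm : ∀ z ∈ ball c R, ‖f z‖ = ‖f c‖ * Real.exp (g z).re := by
    intro z hz
    rw [hg z hz, norm_mul, norm_exp]
  -- the real part of `g`
  have hre : ∀ z ∈ ball c R, ∀ Y : ℝ, ‖f z‖ ≤ Real.exp Y → (g z).re ≤ Y + C0 := by
    intro z hz Y hY
    rw [hnorm z hz] at hY
    have e1 : Real.exp (-C0) * Real.exp (g z).re ≤ Real.exp Y :=
      (mul_le_mul_of_nonneg_right hfc (Real.exp_pos _).le).trans hY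
    rw [← Real.exp_add, Real.exp_le_exp] at e1
    linarith
  -- Borel-Caratheodory in both discs
  have hBC : ∀ ρ M : ℝ, 0 < M → 0 < ρ → ρ ≤ R → (∀ z ∈ ball c ρ, (g z).re ≤ M) → ∀ z ∈ ball c ρ,
      ‖g z‖ ≤ 2 * M * ‖z - c‖ / (ρ - ‖z - c‖) := by
    intro ρ M hM hρ hρR hgM z hz
    have hzb : z - c ∈ ball (0 : ℂ) ρ := by
      rw [mem_ball, dist_zero_right, ← dist_eq_norm]
      exact hz
    have hmap : ∀ w ∈ ball (0 : ℂ) ρ, w + c ∈ ball c ρ := by
      intro w hw
      rw [mem_ball, dist_eq_norm, add_sub_cancel_right]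
      rwa [mem_ball, dist_zero_right] at hw
    have key := borelCaratheodory_zero (f := fun w => g (w + c)) (M := M) (R := ρ) (z := z - c) hM
      (by
        refine DifferentiableOn.comp (t := ball c ρ) (hgd.mono (ball_subset_ball hρR)) (by fun_prop) ?_
        intro w hw
        exact hmap w hw)
      (by
        intro w hw
        exact hgM _ (hmap w hw)) hρ hzb (by simp [hgc])
    simpa using key
  have hin : ∀ z ∈ closedBall c r1, ‖g z‖ ≤ A := by
    intro z hz
    have hzr : ‖z - c‖ ≤ r1 := by rwa [mem_closedBall, dist_eq_norm] at hz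
    have h2 := hBC R1 (C1 + C0 + 1) (by positivity) (by linarith) h1R (fun w hw => by
      have := hre w (ball_subset_ball h1R hw) C1 (hf1 w hw)
      linarith) z (by rw [mem_ball, dist_eq_norm]; linarith)
    refine h2.trans ?_
    rw [hA]
    have h3 : 2 * (C1 + C0 + 1) * ‖z - c‖ / (R1 - ‖z - c‖) ≤ 2 * (C1 + C0 + 1) * r1 / (R1 - r1) := by
      gcongr
    linarith
  have hout : ∀ z ∈ closedBall c r3, ‖g z‖ ≤ K4 * L := by
    intro z hz
    have hzr : ‖z - c‖ ≤ r3 := by rwa [mem_closedBall, dist_eq_norm] at hz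
    have h2 := hBC R (L + C0 + 1) (by linarith) hR le_rfl (fun w hw => by
      have := hre w hw L (hfL w hw)
      linarith) z (by rw [mem_ball, dist_eq_norm]; linarith)
    refine h2.trans ?_
    have h3 : 2 * (L + C0 + 1) * ‖z - c‖ / (R - ‖z - c‖) ≤ 2 * (L + C0 + 1) * r3 / (R - r3) := by
      have : 0 ≤ L + C0 + 1 := by linarith
      gcongr
    have h4 : 2 * (L + C0 + 1) * r3 / (R - r3) = K3 * (L + C0 + 1) := by
      rw [hK3]
      ring
    have h5 : K3 * (L + C0 + 1) ≤ K3 * ((2 + C0) * L) := by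
      apply mul_le_mul_of_nonneg_left _ hK30.le
      nlinarith
    rw [hK4]
    linarith
  have hzr : ‖z - c‖ ≤ r2 := by rwa [mem_closedBall, dist_eq_norm] at hz
  have hL0 : 0 < L := by linarith
  have hB1 : 1 ≤ K4 * L := by
    have e1 : 0 ≤ K3 * (2 + C0) := by positivity
    have e2 : 1 ≤ K4 := by rw [hK4]; linarith
    nlinarith
  have hKL : (K4 * L) ^ θ = K4 ^ θ * L ^ θ := Real.mul_rpow hK40.le hL0.le
  have hgz : ‖g z‖ ≤ δ * L + C5 := by
    refine le_trans ?_ (hsm L hL)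
    rw [mul_assoc, ← hKL]
    rcases le_or_gt r1 ‖z - c‖ with h | h
    · have h2 := three_circles h1 h13 h3R hgd hin hout h (hzr.trans h23.le)
      obtain ⟨φ, hφ⟩ : ∃ φ : ℝ, φ = (Real.log ‖z - c‖ - Real.log r1) / (Real.log r3 - Real.log r1) := ⟨_, rfl⟩
      rw [← hφ] at h2
      have hφ0 : 0 ≤ φ := by
        rw [hφ]
        exact div_nonneg (by linarith [Real.log_le_log h1 h]) (by linarith)
      have hφθ : φ ≤ θ := by
        rw [hφ, hθ]
        have : Real.log ‖z - c‖ ≤ Real.log r2 := Real.log_le_log (h1.trans_le h) hzr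
        have hd : 0 < Real.log r3 - Real.log r1 := by linarith
        gcongr
      refine h2.trans ?_
      have e1 : A ^ (1 - φ) ≤ A := by
        calc A ^ (1 - φ) ≤ A ^ (1 : ℝ) := Real.rpow_le_rpow_of_exponent_le hA1 (by linarith)
          _ = A := Real.rpow_one A
      have e2 : (K4 * L) ^ φ ≤ (K4 * L) ^ θ := Real.rpow_le_rpow_of_exponent_le hB1 hφθ
      exact mul_le_mul e1 e2 (by positivity) (by linarith)
    · have h2 := hin z (by rw [mem_closedBall, dist_eq_norm]; exact h.le)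
      have e2 : 1 ≤ (K4 * L) ^ θ := Real.one_le_rpow hB1 hθ0
      calc ‖g z‖ ≤ A * 1 := by linarith
        _ ≤ A * (K4 * L) ^ θ := mul_le_mul_of_nonneg_left e2 (by linarith)
  have hzR : z ∈ ball c R := by
    rw [mem_ball, dist_eq_norm]
    linarith
  rw [norm_inv, hnorm z hzR, mul_inv, ← Real.exp_neg]
  have e1 : (‖f c‖)⁻¹ ≤ Real.exp C0 := by
    rw [inv_le_comm₀ hfc0 (Real.exp_pos _), ← Real.exp_neg]
    exact hfc
  have e2 : Real.exp (-(g z).re) ≤ Real.exp (δ * L + C5) := by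
    apply Real.exp_le_exp.2
    have := (abs_le.1 (Complex.abs_re_le_norm (g z))).1
    linarith
  calc (‖f c‖)⁻¹ * Real.exp (-(g z).re) ≤ Real.exp C0 * Real.exp (δ * L + C5) :=
        mul_le_mul e1 e2 (Real.exp_pos _).le (Real.exp_pos _).le
    _ = Real.exp (C0 + C5) * Real.exp (δ * L) := by
        rw [← Real.exp_add, ← Real.exp_add]
        congr 1
        ring

end Pool.Helper19.WZ
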