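import Pool.Agent.Helper5.WB.Defs

/-!
# W+: the sum of `Mt` over all cells, with parameters

`PLR κ c`: for `r T ≤ M^(κ + ε)` the sum of `‖Mt‖ √M` over the cells is at most `C M^(5 ε) √(r T) M^c` (no hypothesis on the size of `Mt`).
-/

set_option autoImplicit false

namespace Pool.Helper19.WZ

open Finset Pool.Helper5.WB

/-- the sum of `Mt` over all cells, parameters `κ` (size of `r T`) and `c` (the exponent) -/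
def PLR (κ c : ℝ) : Prop := ∀ ε : ℝ, 0 < ε → ε ≤ 1 / 10 → ∃ C : ℝ, 0 < C ∧ ∀ (q r : ℕ) [NeZero q] [NeZero r], r ∣ q →
  ∀ (T X : ℕ) (M : ℝ), 1 ≤ T → 1 ≤ M → (T : ℝ) + 1 ≤ M → (r : ℝ) * T ≤ M ^ (κ + ε) → (q : ℝ) ≤ M ^ 2 → M ^ 2 ≤ X →
  (X : ℝ) ≤ M ^ 8 → ∀ s : DirichletCharacter ℂ r × ℤ → ℝ, (∀ p, (p.2 : ℝ) ≤ s p ∧ s p ≤ p.2 + 1) →
    ∑ p ∈ (univ : Finset (DirichletCharacter ℂ r)) ×ˢ Icc (-(T : ℤ)) T, ‖Mt X M q p.1 (s p)‖ * Real.sqrt M ≤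
      C * M ^ (5 * ε) * Real.sqrt ((r : ℝ) * T) * M ^ c

end Pool.Helper19.WZ
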