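import Pool.Agent.Helper25.HM.K10

/-!
# The separation theorem with cells

`mellin_cell`: as `mellin_sep` (Helper25/HM/K10), with a bound `B k` for `t ∈ [k, k+1]`, `-T-1 ≤ k ≤ T`.
-/

set_option autoImplicit false

namespace Pool.Helper19.WZ

open Finset MeasureTheory Pool.Agent.Helper25.HM

theorem mellin_cell {β δ : ℝ} (hδ : 0 < δ) (X : ℕ) (f : ℕ → ℂ) (T : ℕ) {A : ℝ} (B : ℤ → ℝ)
    (hB : ∀ k ∈ Icc (-(T : ℤ) - 1) T, ∀ t : ℝ, (k : ℝ) ≤ t → t ≤ k + 1 →
      ‖∑ n ∈ Icc 1 X, f n / Real.sqrt n * nt n t‖ ≤ B k)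
    (hA : ∑ n ∈ Icc 1 X, ‖f n‖ ≤ A) :
    ‖∑ n ∈ Icc 1 X, f n * Complex.exp (-(n * w δ β))‖ ≤
      1 / Real.sqrt (δ + |β|) * (∑ k ∈ Icc (-(T : ℤ) - 1) T, B k + A * (4 / cr δ β) * Real.exp (-(cr δ β / 2 * T))) := by
  classical
  have hc := cr_pos (β := β) hδ
  set c : ℝ := cr δ β with hcdef
  have hA0 : 0 ≤ A := le_trans (sum_nonneg fun _ _ => norm_nonneg _) hA
  have hr : 0 ≤ 1 / Real.sqrt (δ + |β|) := by positivity
  have hint : ∀ n ∈ Icc 1 X, Integrable (fun t : ℝ => f n * (G δ β t * (nt n (-t) / Real.sqrt n))) :=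
    fun n hn => (exp_repr hδ (mem_Icc.1 hn).1).1.const_mul _
  have h1 : ∑ n ∈ Icc 1 X, f n * Complex.exp (-(n * w δ β)) = ∫ t : ℝ, G δ β t * Φ X f t := by
    have e1 : ∀ t : ℝ, G δ β t * Φ X f t =
        ∑ n ∈ Icc 1 X, f n * (G δ β t * (nt n (-t) / Real.sqrt n)) := by
      intro t
      unfold Φ
      rw [mul_sum]
      refine sum_congr rfl fun n _ => ?_
      ring
    simp_rw [e1]
    rw [integral_finset_sum _ hint]
    refine sum_congr rfl fun n hn => ?_
    rw [integral_const_mul, (exp_repr hδ (mem_Icc.1 hn).1).2]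
  have hI2 : Integrable (fun t : ℝ => Real.exp (-(c / 2 * |t|))) :=
    Pool.Agent.Helper19.BD.int_exp_abs (c / 2) (by linarith)
  have hΦA : ∀ t, ‖Φ X f t‖ ≤ A := fun t => (norm_Φ_le X f t).trans hA
  set I : Set ℝ := Set.Ioc (-((T : ℝ) + 1)) (T + 1) with hI
  have hmaj : ∀ t : ℝ, ‖G δ β t * Φ X f t‖ ≤ 1 / Real.sqrt (δ + |β|) *
      (I.indicator (fun t => ‖Φ X f t‖) t +
        A * Real.exp (-(c / 2 * T)) * Real.exp (-(c / 2 * |t|))) := by
    intro t
    rw [norm_mul]
    have h2 := norm_G_le (β := β) hδ t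
    rw [← hcdef] at h2
    refine (mul_le_mul_of_nonneg_right h2 (norm_nonneg _)).trans ?_
    rw [mul_assoc]
    apply mul_le_mul_of_nonneg_left _ hr
    by_cases ht : t ∈ I
    · rw [Set.indicator_of_mem ht]
      have h3 : Real.exp (-(c * |t|)) ≤ 1 := by
        rw [Real.exp_le_one_iff]
        have := abs_nonneg t
        nlinarith
      have h4 : 0 ≤ A * Real.exp (-(c / 2 * T)) * Real.exp (-(c / 2 * |t|)) := by positivity
      nlinarith [norm_nonneg (Φ X f t)]
    · rw [Set.indicator_of_notMem ht, zero_add]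
      have h3 : (T : ℝ) ≤ |t| := by
        by_contra hcon
        push Not at hcon
        apply ht
        rw [abs_lt] at hcon
        exact ⟨by linarith [hcon.1], by linarith⟩
      have h4 : Real.exp (-(c * |t|)) ≤ Real.exp (-(c / 2 * T)) * Real.exp (-(c / 2 * |t|)) := by
        rw [← Real.exp_add]
        apply Real.exp_le_exp.2
        nlinarith
      calc Real.exp (-(c * |t|)) * ‖Φ X f t‖
          ≤ (Real.exp (-(c / 2 * T)) * Real.exp (-(c / 2 * |t|))) * A :=
            mul_le_mul h4 (hΦA t) (norm_nonneg _) (by positivity)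
        _ = _ := by ring
  have hind : Integrable (I.indicator (fun t => ‖Φ X f t‖)) := by
    rw [integrable_indicator_iff measurableSet_Ioc]
    exact ((Φ_cont X f).norm.integrableOn_Ioc)
  have hmajI : Integrable (fun t : ℝ => 1 / Real.sqrt (δ + |β|) *
      (I.indicator (fun t => ‖Φ X f t‖) t +
        A * Real.exp (-(c / 2 * T)) * Real.exp (-(c / 2 * |t|)))) :=
    (hind.add (hI2.const_mul _)).const_mul _
  rw [h1]
  refine (norm_integral_le_of_norm_le hmajI (Filter.Eventually.of_forall hmaj)).trans ?_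
  rw [integral_const_mul]
  apply mul_le_mul_of_nonneg_left _ hr
  rw [integral_add hind (hI2.const_mul _), integral_const_mul, exp_abs_int (by linarith)]
  have h5 : 2 / (c / 2) = 4 / c := by field_simp; norm_num
  rw [h5]
  have h6 : ∫ t : ℝ, I.indicator (fun t => ‖Φ X f t‖) t ≤ ∑ k ∈ Icc (-(T : ℤ) - 1) T, B k := by
    rw [integral_indicator measurableSet_Ioc]
    have hT0 : (0 : ℝ) ≤ T := Nat.cast_nonneg T
    have hle : (-((T : ℝ) + 1)) ≤ T + 1 := by linarith
    rw [← intervalIntegral.integral_of_le hle]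
    set a : ℕ → ℝ := fun j => -((T : ℝ) + 1) + j with ha
    have hcont : Continuous (fun t => ‖Φ X f t‖) := (Φ_cont X f).norm
    have h7 : ∑ j ∈ range (2 * T + 2), ∫ t in (a j)..(a (j + 1)), ‖Φ X f t‖ =
        ∫ t in (a 0)..(a (2 * T + 2)), ‖Φ X f t‖ :=
      intervalIntegral.sum_integral_adjacent_intervals (fun k _ => hcont.intervalIntegrable _ _)
    have h8 : a 0 = -((T : ℝ) + 1) := by simp [ha]
    have h9 : a (2 * T + 2) = T + 1 := by
      simp only [ha]
      push_cast
      ring
    rw [h8, h9] at h7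
    rw [← h7]
    -- the cell of `-t`, `t ∈ [a j, a (j+1)]` is `[T - j, T - j + 1]`
    have h10 : ∀ j ∈ range (2 * T + 2), ∫ t in (a j)..(a (j + 1)), ‖Φ X f t‖ ≤ B ((T : ℤ) - j) := by
      intro j hj
      rw [mem_range] at hj
      have hk : ((T : ℤ) - j) ∈ Icc (-(T : ℤ) - 1) T := by
        rw [mem_Icc]
        omega
      have haj : a (j + 1) - a j = 1 := by
        simp only [ha]
        push_cast
        ring
      have hle2 : a j ≤ a (j + 1) := by linarith
      have h11 := intervalIntegral.integral_mono_on (μ := volume) hle2 (hcont.intervalIntegrable _ _)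
        (intervalIntegrable_const (c := B ((T : ℤ) - j))) (fun t ht => by
          have e1 := hB _ hk (-t) (by
            have := ht.2
            simp only [ha] at this
            push_cast at this ⊢
            linarith) (by
            have := ht.1
            simp only [ha] at this
            push_cast at this ⊢
            linarith)
          have e2 : Φ X f t = ∑ n ∈ Icc 1 X, f n / Real.sqrt n * nt n (-t) := by
            unfold Φ
            refine sum_congr rfl fun n _ => ?_
            ring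
          rw [e2]
          exact e1)
      rw [intervalIntegral.integral_const, smul_eq_mul, haj, one_mul] at h11
      exact h11
    refine (sum_le_sum h10).trans (le_of_eq ?_)
    apply Finset.sum_nbij' (fun j : ℕ => (T : ℤ) - j) (fun k : ℤ => (T - k : ℤ).toNat)
    · intro j hj
      rw [mem_range] at hj
      rw [mem_Icc]
      omega
    · intro k hk
      rw [mem_Icc] at hk
      rw [mem_range]
      omega
    · intro j hj
      rw [mem_range] at hj
      omega
    · intro k hk
      rw [mem_Icc] at hk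
      omega
    · intro j _
      rfl
  linarith

end Pool.Helper19.WZ
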