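import Pool.Agent.Helper5.WB.SmallA
import Pool.Agent.Helper5.WB.GcdE
import Pool.Agent.Helper69.FF.DivS
import Pool.Agent.Helper19.WZ.PLR
import Pool.Agent.Helper19.WZ.SmV

/-!
# W+: the smooth sum at `x` with `QQ M x a q ≤ 2 M^κ`, `κ ≤ 1/2`

The proof of `Helper5/WB/Small.lean` (helper30) with parameters: `PLR κ c` in place of `PL`, no hypothesis on the size of `Mt`.
-/

set_option autoImplicit false

namespace Pool.Helper19.WZ

open Pool.Helper5.WB hiding GM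

open ArithmeticFunction Finset
open Pool.Helper19.V4 Pool.Helper19.V5
open Pool.Agent.Helper25.HM (nt)
open Pool.Agent.Helper25.WL (PR)
open Pool.Agent.Helper88.WS (wt)

private lemma tot30 (q : ℕ) (hq : q ≠ 0) : q ≤ q.divisors.card * Nat.totient q := by
  induction q using Nat.recOnPosPrimePosCoprime with
  | prime_pow p k hp hk =>
    rw [Nat.divisors_prime_pow hp, Finset.card_map, Finset.card_range,
      Nat.totient_prime_pow hp hk]
    obtain ⟨m, rfl⟩ : ∃ m, k = m + 1 := ⟨k - 1, by omega⟩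
    obtain ⟨r, rfl⟩ : ∃ r, p = r + 2 := ⟨p - 2, by have := hp.two_le; omega⟩
    have h1 : r + 2 - 1 = r + 1 := by omega
    have h2 : m + 1 - 1 = m := by omega
    rw [h1, h2, pow_succ]
    have h3 : 0 < (r + 2) ^ m := by positivity
    have h4 : r + 2 ≤ (m + 1 + 1) * (r + 1) := by nlinarith
    calc (r + 2) ^ m * (r + 2) ≤ (r + 2) ^ m * ((m + 1 + 1) * (r + 1)) := Nat.mul_le_mul_left _ h4
      _ = (m + 1 + 1) * ((r + 2) ^ m * (r + 1)) := by ring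
  | zero => exact absurd rfl hq
  | one => simp
  | coprime a b ha hb hab iha ihb =>
    rw [Nat.Coprime.card_divisors_mul hab, Nat.totient_mul hab]
    have h1 := iha (by omega)
    have h2 := ihb (by omega)
    calc a * b ≤ (a.divisors.card * Nat.totient a) * (b.divisors.card * Nat.totient b) :=
          Nat.mul_le_mul h1 h2
      _ = a.divisors.card * b.divisors.card * (Nat.totient a * Nat.totient b) := by ring

private lemma wt_nonneg30 (M n : ℕ) : 0 ≤ wt M n := by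
  unfold wt
  positivity

private lemma wt_le30 {M n : ℕ} (hM : 1 ≤ M) (hn : 1 ≤ n) : wt M n ≤ 120 * (M : ℝ) ^ 4 / (n : ℝ) ^ 4 := by
  have hM0 : (0 : ℝ) < M := by exact_mod_cast hM
  have hn0 : (0 : ℝ) < n := by exact_mod_cast hn
  unfold wt
  set u : ℝ := n / M with hu
  have hu0 : 0 < u := div_pos hn0 hM0
  have h1 : u ^ 5 / (Nat.factorial 5 : ℝ) ≤ Real.exp u := Real.pow_div_factorial_le_exp u hu0.le 5
  have h2 : (Nat.factorial 5 : ℝ) = 120 := by norm_num [Nat.factorial]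
  rw [h2] at h1
  have h3 : u * Real.exp (-u) ≤ 120 / u ^ 4 := by
    rw [Real.exp_neg, ← div_eq_mul_inv, div_le_div_iff₀ (Real.exp_pos u) (by positivity)]
    calc u * u ^ 4 = 120 * (u ^ 5 / 120) := by ring
      _ ≤ 120 * Real.exp u := by gcongr
  refine h3.trans (le_of_eq ?_)
  rw [hu]
  field_simp

private lemma GM_split30 : ∃ K : ℝ, 0 ≤ K ∧ ∀ M : ℕ, 1 ≤ M → ∀ x : ℝ, ‖GM M x‖ ≤
    ‖∑ n ∈ Icc 1 (4 * M ^ 2), ((ArithmeticFunction.moebius n : ℤ) : ℂ) * wt M n * ex (n * x)‖ + K := by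
  have hg : Summable fun i : ℕ => (15 / 2 : ℝ) * (1 / ((i : ℝ) + 1) ^ 2) := by
    apply Summable.mul_left
    have h := (summable_nat_add_iff 1).2 (Real.summable_one_div_nat_pow.2 (one_lt_two))
    refine h.congr fun i => ?_
    push_cast
    ring
  refine ⟨∑' i : ℕ, (15 / 2 : ℝ) * (1 / ((i : ℝ) + 1) ^ 2), tsum_nonneg fun i => by positivity,
    fun M hM x => ?_⟩
  have hM0 : (0 : ℝ) < M := by exact_mod_cast hM
  set f : ℕ → ℂ := fun n => ((ArithmeticFunction.moebius n : ℤ) : ℂ) * wt M n * ex (n * x) with hf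
  have hfn : ∀ n, ‖f n‖ ≤ wt M n := by
    intro n
    simp only [hf]
    rw [norm_mul, norm_mul, norm_ex, mul_one, Complex.norm_real, Real.norm_of_nonneg (wt_nonneg30 M n)]
    exact mul_le_of_le_one_left (wt_nonneg30 M n) (norm_mu n)
  have hf0 : f 0 = 0 := by simp [hf]
  have hsum : Summable f := by
    refine Summable.of_norm_bounded (g := fun n : ℕ => 120 * (M : ℝ) ^ 4 * (1 / (n : ℝ) ^ 4)) ?_ ?_
    · exact (Real.summable_one_div_nat_pow.2 (by norm_num)).mul_left _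
    · intro n
      rcases Nat.eq_zero_or_pos n with h | h
      · rw [h, hf0, norm_zero]
        positivity
      · refine (hfn n).trans ((wt_le30 hM h).trans (le_of_eq ?_))
        ring
  have h1 := hsum.sum_add_tsum_nat_add (4 * M ^ 2 + 1)
  have h2 : ∑ n ∈ range (4 * M ^ 2 + 1), f n = ∑ n ∈ Icc 1 (4 * M ^ 2), f n := by
    symm
    apply Finset.sum_subset
    · intro n hn
      rw [mem_Icc] at hn
      rw [mem_range]
      omega
    · intro n hn hn'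
      rw [mem_range] at hn
      rw [mem_Icc] at hn'
      have : n = 0 := by omega
      rw [this, hf0]
  have h3 : GM M x = ∑' n, f n := rfl
  rw [h3, ← h1, h2]
  refine (norm_add_le _ _).trans (add_le_add le_rfl ?_)
  refine tsum_of_norm_bounded hg.hasSum fun i => ?_
  refine (hfn _).trans ((wt_le30 hM (by omega)).trans ?_)
  have h4 : (4 * (M : ℝ) ^ 2) ^ 2 * ((i : ℝ) + 1) ^ 2 ≤ (((i + (4 * M ^ 2 + 1) : ℕ) : ℝ)) ^ 4 := by
    push_cast
    have e : ((i : ℝ) + (4 * (M : ℝ) ^ 2 + 1)) ^ 4 =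
        ((i : ℝ) + (4 * (M : ℝ) ^ 2 + 1)) ^ 2 * ((i : ℝ) + (4 * (M : ℝ) ^ 2 + 1)) ^ 2 := by ring
    rw [e]
    have hi : (0 : ℝ) ≤ i := Nat.cast_nonneg i
    have hM2 : (0 : ℝ) ≤ 4 * (M : ℝ) ^ 2 := by positivity
    gcongr
    · linarith
    · linarith
  rw [mul_one_div, div_le_div_iff₀ (by positivity) (by positivity)]
  calc 120 * (M : ℝ) ^ 4 * ((i : ℝ) + 1) ^ 2 = 15 / 2 * ((4 * (M : ℝ) ^ 2) ^ 2 * ((i : ℝ) + 1) ^ 2) := by ring
    _ ≤ _ := by gcongr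

/-- the basic size: `2 M^κ ≤ 2 √M` -/
private lemma two_leR {κ M : ℝ} (hκ : κ ≤ 1 / 2) (hM : 1 ≤ M) : 2 * M ^ κ ≤ 2 * M ^ (1 / 2 : ℝ) := by
  have := Real.rpow_le_rpow_of_exponent_le hM hκ
  linarith

/-- the bound for one common factor `g` -/
private lemma perGR {κ c : ℝ} (hκ0 : 0 ≤ κ) (hκ : κ ≤ 1 / 2) (hc : 1 / 2 ≤ c) (hPL : PLR κ c) {δ : ℝ} (hδ : 0 < δ) (hδ1 : δ ≤ 1 / 20) :
    ∃ C1 C2 : ℝ, 0 < C1 ∧ 0 < C2 ∧ ∀ M : ℕ, 2048 ≤ M → 12 ≤ (M : ℝ) ^ (δ / 2) →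
      ∀ (β : ℝ) (g r : ℕ) [NeZero r], 1 ≤ g →
      ((g : ℝ) * r) * (1 + M * |β|) ≤ 2 * (M : ℝ) ^ κ →
      ∑ χ : DirichletCharacter ℂ r, ‖∑ m ∈ Icc 1 (4 * M ^ 2 / g), mc (g * r) m *
        ((wt M (g * m) : ℂ) * ex (((g * m : ℕ) : ℝ) * β)) * χ (m : ZMod r)‖ ≤
        C2 * Real.sqrt r * (M : ℝ) ^ (11 * δ) * (M : ℝ) ^ c +
          C1 * (Nat.totient r : ℝ) := by
  obtain ⟨C1, hC1, h1⟩ := one_mod δ hδ
  obtain ⟨C2, hC2, h2⟩ := hPL (2 * δ) (by positivity) (by linarith)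
  refine ⟨C1, 4 * C2, hC1, by positivity, fun M hM h6 β g r _ hg hQ => ?_⟩
  -- notation
  have hMr : (2048 : ℝ) ≤ M := by exact_mod_cast hM
  have hM0 : (0 : ℝ) < M := by linarith
  have hM1 : (1 : ℝ) ≤ M := by linarith
  obtain ⟨z, hz⟩ : ∃ z : ℝ, z = (M : ℝ) ^ (1 / 4 : ℝ) := ⟨_, rfl⟩
  have hz0 : 0 < z := by rw [hz]; exact Real.rpow_pos_of_pos hM0 _
  have hz4 : z ^ 4 = M := by
    rw [hz, ← Real.rpow_natCast, ← Real.rpow_mul hM0.le]
    norm_num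
  have hz2 : z ^ 2 = (M : ℝ) ^ (1 / 2 : ℝ) := by
    rw [hz, ← Real.rpow_natCast, ← Real.rpow_mul hM0.le]
    norm_num
  have hz6 : 6 ≤ z := by
    by_contra hcon
    push Not at hcon
    have : z ^ 4 < 6 ^ 4 := pow_lt_pow_left₀ hcon hz0.le (by norm_num)
    rw [hz4] at this
    norm_num at this
    linarith
  have hg1 : (1 : ℝ) ≤ g := by exact_mod_cast hg
  have hr1 : (1 : ℝ) ≤ r := by exact_mod_cast Nat.one_le_iff_ne_zero.2 (NeZero.ne r)
  obtain ⟨b, hb⟩ : ∃ b : ℝ, b = 1 + M * |β| := ⟨_, rfl⟩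
  have hb1 : 1 ≤ b := by
    rw [hb]
    have : 0 ≤ M * |β| := by positivity
    linarith
  rw [← hb] at hQ
  have hQz : (g : ℝ) * r * b ≤ 2 * z ^ 2 := by
    rw [hz2]
    exact hQ.trans (two_leR hκ hM1)
  have hgr : (g : ℝ) * r ≤ 2 * z ^ 2 := by nlinarith
  have hgz : (g : ℝ) ≤ 2 * z ^ 2 := by nlinarith
  obtain ⟨Mg, hMg⟩ : ∃ Mg : ℝ, Mg = (M : ℝ) / g := ⟨_, rfl⟩
  have hMgz : z ^ 2 / 2 ≤ Mg := by
    rw [hMg, le_div_iff₀ (by linarith), ← hz4]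
    nlinarith
  have hMg1 : 1 ≤ Mg := by nlinarith
  have hMg0 : 0 < Mg := by linarith
  have hMgM : Mg ≤ M := by
    rw [hMg]
    exact div_le_self hM0.le hg1
  have hMg2 : (M : ℝ) ≤ 4 * Mg ^ 2 := by
    rw [← hz4]
    calc z ^ 4 = 4 * (z ^ 2 / 2) ^ 2 := by ring
      _ ≤ 4 * Mg ^ 2 := by gcongr
  have hMg8 : (M : ℝ) ^ 4 / 256 ≤ Mg ^ 8 := by
    calc (M : ℝ) ^ 4 / 256 ≤ (4 * Mg ^ 2) ^ 4 / 256 := by gcongr
      _ = Mg ^ 8 := by ring
  -- the number of cells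
  have hP1 : 1 ≤ Mg ^ δ := Real.one_le_rpow hMg1 hδ.le
  have hPz : Mg ^ δ ≤ z := by
    calc Mg ^ δ ≤ (M : ℝ) ^ δ := Real.rpow_le_rpow hMg0.le hMgM hδ.le
      _ ≤ (M : ℝ) ^ (1 / 4 : ℝ) := Real.rpow_le_rpow_of_exponent_le hM1 (by linarith)
      _ = z := hz.symm
  have hP6 : 6 ≤ Mg ^ δ := by
    have e : (M : ℝ) ^ (δ / 2) = (z ^ 2) ^ δ := by
      rw [hz2, ← Real.rpow_mul hM0.le]
      congr 1
      ring
    have e2 : (z ^ 2 / 2) ^ δ ≤ Mg ^ δ := Real.rpow_le_rpow (by positivity) hMgz hδ.le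
    rw [Real.div_rpow (by positivity) (by norm_num), ← e] at e2
    have e3 : (2 : ℝ) ^ δ ≤ 2 := by
      calc (2 : ℝ) ^ δ ≤ (2 : ℝ) ^ (1 : ℝ) := Real.rpow_le_rpow_of_exponent_le (by norm_num) (by linarith)
        _ = 2 := Real.rpow_one 2
    refine le_trans ?_ e2
    rw [le_div_iff₀ (by positivity)]
    linarith
  have hPb : 1 ≤ Mg ^ δ * b := by nlinarith
  have hgr1 : (1 : ℝ) ≤ (g : ℝ) * r := one_le_mul_of_one_le_of_one_le hg1 hr1
  have hbz : (g : ℝ) * b ≤ 2 * z ^ 2 := by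
    calc (g : ℝ) * b = (g : ℝ) * 1 * b := by ring
      _ ≤ (g : ℝ) * r * b := by gcongr
      _ ≤ 2 * z ^ 2 := hQz
  obtain ⟨T, hT⟩ : ∃ T : ℕ, T = ⌈Mg ^ δ * b⌉₊ := ⟨_, rfl⟩
  have hT1 : Mg ^ δ * b ≤ T := by rw [hT]; exact Nat.le_ceil _
  have hT2 : (T : ℝ) ≤ Mg ^ δ * b + 1 := by
    rw [hT]
    exact (Nat.ceil_lt_add_one (by linarith)).le
  have hT0 : 1 ≤ T := by
    have : (1 : ℝ) ≤ T := hPb.trans hT1
    exact_mod_cast this
  have hTM : (T : ℝ) + 2 ≤ Mg := by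
    rw [hMg, le_div_iff₀ (by linarith)]
    have h3 : Mg ^ δ * b * g ≤ z * (2 * z ^ 2) := by
      calc Mg ^ δ * b * g = Mg ^ δ * (g * b) := by ring
        _ ≤ z * (2 * z ^ 2) := by gcongr
    rw [← hz4]
    have h4 : (T + 2) * (g : ℝ) ≤ Mg ^ δ * b * g + 3 * g := by nlinarith
    have h5 : 2 * z ^ 3 + 6 * z ^ 2 ≤ z ^ 4 := by
      have : 0 ≤ z ^ 2 * (z ^ 2 - 2 * z - 6) := by
        apply mul_nonneg (by positivity)
        nlinarith
      nlinarith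
    nlinarith
  -- the length
  obtain ⟨X, hX⟩ : ∃ X : ℕ, X = 4 * M ^ 2 / g := ⟨_, rfl⟩
  have hXg : (g : ℝ) * X + g ≥ 4 * (M : ℝ) ^ 2 := by
    have h3 := Nat.div_add_mod (4 * M ^ 2) g
    have h4 := Nat.mod_lt (4 * M ^ 2) (by omega : g > 0)
    rw [← hX] at h3
    have h5 : 4 * M ^ 2 ≤ g * X + g := by omega
    exact_mod_cast h5
  have hXup : (X : ℝ) ≤ 4 * (M : ℝ) ^ 2 := by
    have : X ≤ 4 * M ^ 2 := by rw [hX]; exact Nat.div_le_self _ _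
    exact_mod_cast this
  have hX8 : (X : ℝ) ≤ Mg ^ 8 := by
    refine hXup.trans (le_trans ?_ hMg8)
    have h3 : (1024 : ℝ) ≤ (M : ℝ) ^ 2 := by nlinarith
    calc 4 * (M : ℝ) ^ 2 = 1024 * (M : ℝ) ^ 2 / 256 := by ring
      _ ≤ (M : ℝ) ^ 2 * (M : ℝ) ^ 2 / 256 := by gcongr
      _ = (M : ℝ) ^ 4 / 256 := by ring
  have hX2 : Mg ^ 2 ≤ X := by
    rw [hMg, div_pow, div_le_iff₀ (by positivity)]
    have h3 : (1 : ℝ) ≤ (M : ℝ) ^ 2 := by nlinarith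
    have hgM : (g : ℝ) ≤ (M : ℝ) := by
      have : 2 * z ^ 2 ≤ z ^ 4 := by nlinarith [pow_pos hz0 2]
      linarith
    nlinarith
  -- the modulus
  haveI : NeZero (g * r) := ⟨Nat.mul_ne_zero (by omega) (NeZero.ne r)⟩
  obtain ⟨s, hs, hone⟩ := h1 (g * r) r T X Mg (g * β) hMg1 hX8 (by
    have e : Mg * |(g : ℝ) * β| = M * |β| := by
      rw [abs_mul, abs_of_nonneg (by linarith : (0 : ℝ) ≤ g), hMg]
      field_simp
    rw [e, ← hb]
    exact hT1) (by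
    have : Mg ≤ Mg ^ 8 := by
      calc Mg = Mg ^ 1 := (pow_one _).symm
        _ ≤ Mg ^ 8 := pow_le_pow_right₀ hMg1 (by norm_num)
    linarith)
  have eb : 1 + Mg * |(g : ℝ) * β| = b := by
    rw [abs_mul, abs_of_nonneg (by linarith : (0 : ℝ) ≤ g), hMg, hb]
    field_simp
  rw [eb] at hone
  have hPLc := h2 (g * r) r (Dvd.intro_left g rfl) (T + 1) X Mg (by omega) hMg1 (by
    push_cast
    linarith) (by
    have h3 : (r : ℝ) * ((T + 1 : ℕ) : ℝ) ≤ 3 * (Mg ^ δ * (r * b)) := by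
      push_cast
      have h4 : (T : ℝ) + 1 ≤ 3 * (Mg ^ δ * b) := by linarith
      calc (r : ℝ) * (T + 1) ≤ r * (3 * (Mg ^ δ * b)) := by gcongr
        _ = 3 * (Mg ^ δ * (r * b)) := by ring
    refine h3.trans ?_
    have h4 : (r : ℝ) * b ≤ 2 * Mg ^ κ := by
      have h5 : (M : ℝ) = Mg * g := by
        rw [hMg]
        field_simp
      have h6 : (M : ℝ) ^ κ ≤ Mg ^ κ * g := by
        rw [h5, Real.mul_rpow hMg0.le (by linarith)]
        have h7 : (g : ℝ) ^ κ ≤ g := by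
          calc (g : ℝ) ^ κ ≤ (g : ℝ) ^ (1 : ℝ) :=
                Real.rpow_le_rpow_of_exponent_le hg1 (by linarith)
            _ = g := Real.rpow_one _
        gcongr
      have h8 : (g : ℝ) * (r * b) ≤ g * (2 * Mg ^ κ) := by nlinarith
      exact le_of_mul_le_mul_left h8 (by linarith)
    have e : Mg ^ (κ + 2 * δ) = Mg ^ κ * (Mg ^ δ * Mg ^ δ) := by
      rw [← Real.rpow_add hMg0, ← Real.rpow_add hMg0]
      congr 1
      ring
    rw [e]
    have h9 : 0 < Mg ^ κ := Real.rpow_pos_of_pos hMg0 _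
    calc 3 * (Mg ^ δ * (r * b)) ≤ 3 * (Mg ^ δ * (2 * Mg ^ κ)) := by gcongr
      _ = 6 * (Mg ^ κ * Mg ^ δ) := by ring
      _ ≤ Mg ^ δ * (Mg ^ κ * Mg ^ δ) := by gcongr
      _ = _ := by ring) (by
    push_cast
    have h36 : (36 : ℝ) ≤ z ^ 2 := by nlinarith
    have : 2 * z ^ 2 ≤ Mg ^ 2 := by nlinarith
    linarith) hX2 hX8 s hs
  -- the sum over the characters
  have hcard : ((univ : Finset (DirichletCharacter ℂ r)).card : ℝ) = Nat.totient r := by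
    rw [Finset.card_univ, ← Nat.card_eq_fintype_card,
      DirichletCharacter.card_eq_totient_of_hasEnoughRootsOfUnity]
  have hterm : ∀ χ : DirichletCharacter ℂ r, ‖∑ m ∈ Icc 1 (4 * M ^ 2 / g), mc (g * r) m *
        ((wt M (g * m) : ℂ) * ex (((g * m : ℕ) : ℝ) * β)) * χ (m : ZMod r)‖ ≤
      2 / Real.sqrt b * (∑ k ∈ Icc (-((T + 1 : ℕ) : ℤ)) ((T + 1 : ℕ) : ℤ),
        ‖Mt X Mg (g * r) χ (s (χ, k))‖ * Real.sqrt Mg) + C1 := by
    intro χ
    have h3 := hone χ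
    have e : ∑ m ∈ Icc 1 (4 * M ^ 2 / g), mc (g * r) m *
        ((wt M (g * m) : ℂ) * ex (((g * m : ℕ) : ℝ) * β)) * χ (m : ZMod r) =
        ∑ m ∈ Icc 1 X, mc (g * r) m * (((m / Mg * Real.exp (-(m / Mg)) : ℝ) : ℂ) *
          ex (m * (g * β))) * χ (m : ZMod r) := by
      rw [hX]
      refine sum_congr rfl fun m _ => ?_
      have e1 : wt M (g * m) = m / Mg * Real.exp (-(m / Mg)) := by
        unfold wt
        have : ((g * m : ℕ) : ℝ) / M = m / Mg := by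
          rw [hMg]
          push_cast
          field_simp
        rw [this]
      have e2 : ((g * m : ℕ) : ℝ) * β = m * (g * β) := by
        push_cast
        ring
      rw [e1, e2]
    rw [e]
    refine h3.trans ?_
    have h4 : C1 / Mg ^ 2 ≤ C1 := div_le_self hC1.le (one_le_pow₀ hMg1)
    linarith
  refine (sum_le_sum fun χ _ => hterm χ).trans ?_
  rw [sum_add_distrib, sum_const, nsmul_eq_mul, hcard, ← mul_sum, mul_comm (Nat.totient r : ℝ) C1]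
  refine add_le_add ?_ le_rfl
  have e3 : ∑ χ : DirichletCharacter ℂ r, ∑ k ∈ Icc (-((T + 1 : ℕ) : ℤ)) ((T + 1 : ℕ) : ℤ),
        ‖Mt X Mg (g * r) χ (s (χ, k))‖ * Real.sqrt Mg =
      ∑ p ∈ (univ : Finset (DirichletCharacter ℂ r)) ×ˢ Icc (-((T + 1 : ℕ) : ℤ)) ((T + 1 : ℕ) : ℤ),
        ‖Mt X Mg (g * r) p.1 (s p)‖ * Real.sqrt Mg :=
    (Finset.sum_product (univ : Finset (DirichletCharacter ℂ r))
      (Icc (-((T + 1 : ℕ) : ℤ)) ((T + 1 : ℕ) : ℤ))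
      (fun p => ‖Mt X Mg (g * r) p.1 (s p)‖ * Real.sqrt Mg)).symm
  rw [e3]
  have hsb : 0 < Real.sqrt b := Real.sqrt_pos.2 (by linarith)
  refine (mul_le_mul_of_nonneg_left hPLc (by positivity)).trans ?_
  have h3 : Real.sqrt ((r : ℝ) * ((T + 1 : ℕ) : ℝ)) ≤ 2 * Real.sqrt r * Mg ^ δ * Real.sqrt b := by
    have h4 : (r : ℝ) * ((T + 1 : ℕ) : ℝ) ≤ (2 * Real.sqrt r * Mg ^ δ * Real.sqrt b) ^ 2 := by
      rw [mul_pow, mul_pow, mul_pow, Real.sq_sqrt (by linarith), Real.sq_sqrt (by linarith)]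
      push_cast
      have h5 : (T : ℝ) + 1 ≤ 3 * (Mg ^ δ * b) := by linarith
      have h6 : Mg ^ δ ≤ (Mg ^ δ) ^ 2 := by nlinarith
      calc (r : ℝ) * (T + 1) ≤ r * (3 * (Mg ^ δ * b)) := by gcongr
        _ ≤ r * (4 * ((Mg ^ δ) ^ 2 * b)) := by gcongr <;> norm_num
        _ = _ := by ring
    exact Real.sqrt_le_iff.2 ⟨by positivity, h4⟩
  have h5 : Mg ^ (5 * (2 * δ)) * Mg ^ δ ≤ (M : ℝ) ^ (11 * δ) := by
    rw [← Real.rpow_add hMg0, show 5 * (2 * δ) + δ = 11 * δ by ring]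
    exact Real.rpow_le_rpow hMg0.le hMgM (by positivity)
  have h6 : Mg ^ c ≤ (M : ℝ) ^ c := Real.rpow_le_rpow hMg0.le hMgM (by linarith)
  have h7 : 0 ≤ Mg ^ c := by positivity
  calc 2 / Real.sqrt b * (C2 * Mg ^ (5 * (2 * δ)) * Real.sqrt ((r : ℝ) * ((T + 1 : ℕ) : ℝ)) *
        Mg ^ c)
      ≤ 2 / Real.sqrt b * (C2 * Mg ^ (5 * (2 * δ)) * (2 * Real.sqrt r * Mg ^ δ * Real.sqrt b) *
        Mg ^ c) := by gcongr
    _ = 4 * C2 * Real.sqrt r * (Mg ^ (5 * (2 * δ)) * Mg ^ δ) * Mg ^ c := by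
        field_simp
        ring
    _ ≤ 4 * C2 * Real.sqrt r * (M : ℝ) ^ (11 * δ) * (M : ℝ) ^ c := by
        gcongr

theorem gm_smallR {κ c : ℝ} (hκ0 : 0 ≤ κ) (hκ : κ ≤ 1 / 2) (hc : 1 / 2 ≤ c) (hPL : PLR κ c) :
    ∀ ε : ℝ, 0 < ε → ∃ C : ℝ, 0 < C ∧ ∀ M : ℕ, 1 ≤ M → ∀ (x : ℝ) (a : ℤ) (q : ℕ), 1 ≤ q →
    IsCoprime a (q : ℤ) → QQ M x a q ≤ 2 * (M : ℝ) ^ κ → ‖GM M x‖ ≤ C * (M : ℝ) ^ ε * (M : ℝ) ^ c := by
  intro ε hε
  obtain ⟨K, hK, hGM⟩ := GM_split30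
  obtain ⟨δ, hδ⟩ : ∃ δ : ℝ, δ = min (ε / 12) (1 / 20) := ⟨_, rfl⟩
  have hδ0 : 0 < δ := by
    rw [hδ]
    exact lt_min (by positivity) (by norm_num)
  have hδ1 : δ ≤ 1 / 20 := by rw [hδ]; exact min_le_right _ _
  have hδε : 12 * δ ≤ ε := by
    have : δ ≤ ε / 12 := by rw [hδ]; exact min_le_left _ _
    linarith
  obtain ⟨C1, C2, hC1, hC2, hper⟩ := perGR hκ0 hκ hc hPL hδ0 hδ1
  obtain ⟨C3, hC3, hdiv⟩ := Pool.Agent.Helper69.FF.div_bound hδ0
  obtain ⟨L, hL⟩ : ∃ L : ℝ, L = max 2048 ((12 : ℝ) ^ (2 / δ)) := ⟨_, rfl⟩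
  have hL0 : 2048 ≤ L := by rw [hL]; exact le_max_left _ _
  refine ⟨4 * L ^ 2 + K + 4 * C2 * C3 ^ 2 + 4 * C1 * C3, by positivity, fun M hM x a q hq ha hQ => ?_⟩
  have hM1 : (1 : ℝ) ≤ M := by exact_mod_cast hM
  have hM0 : (0 : ℝ) < M := by linarith
  have hE1 : 1 ≤ (M : ℝ) ^ ε := Real.one_le_rpow hM1 hε.le
  have hF1 : 1 ≤ (M : ℝ) ^ c := Real.one_le_rpow hM1 (by linarith)
  have hEF : 1 ≤ (M : ℝ) ^ ε * (M : ℝ) ^ c := one_le_mul_of_one_le_of_one_le hE1 hF1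
  have hgoal : (4 * L ^ 2 + K + 4 * C2 * C3 ^ 2 + 4 * C1 * C3) * (M : ℝ) ^ ε * (M : ℝ) ^ c =
      (4 * L ^ 2 + K + 4 * C2 * C3 ^ 2 + 4 * C1 * C3) * ((M : ℝ) ^ ε * (M : ℝ) ^ c) := by ring
  rw [hgoal]
  obtain ⟨E, hE⟩ : ∃ E : ℝ, E = (M : ℝ) ^ ε * (M : ℝ) ^ c := ⟨_, rfl⟩
  rw [← hE] at hEF ⊢
  have hhead : ∀ n ∈ Icc 1 (4 * M ^ 2),
      ‖((ArithmeticFunction.moebius n : ℤ) : ℂ) * wt M n * ex (n * x)‖ ≤ 1 := by
    intro n _
    rw [norm_mul, norm_mul, norm_ex, mul_one, Complex.norm_real, Real.norm_of_nonneg (wt_nonneg30 M n)]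
    have h1 : wt M n ≤ 1 := by
      unfold wt
      have hu : 0 ≤ (n : ℝ) / M := by positivity
      rw [Real.exp_neg, ← div_eq_mul_inv, div_le_one (Real.exp_pos _)]
      linarith [Real.add_one_le_exp ((n : ℝ) / M)]
    exact mul_le_one₀ (norm_mu n) (wt_nonneg30 M n) h1
  refine (hGM M hM x).trans ?_
  by_cases hbig : 2048 ≤ M ∧ 12 ≤ (M : ℝ) ^ (δ / 2)
  · -- the main case
    obtain ⟨hM2048, hM6⟩ := hbig
    have hMr : (2048 : ℝ) ≤ M := by exact_mod_cast hM2048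
    have hq0 : q ≠ 0 := by omega
    haveI : NeZero q := ⟨hq0⟩
    have hqr : (1 : ℝ) ≤ q := by exact_mod_cast hq
    obtain ⟨β, hβ⟩ : ∃ β : ℝ, β = x - a / q := ⟨_, rfl⟩
    have hQ' : (q : ℝ) * (1 + M * |β|) ≤ 2 * (M : ℝ) ^ κ := by
      rw [hβ]
      exact hQ
    have hqM : (q : ℝ) ≤ 2 * (M : ℝ) ^ (1 / 2 : ℝ) := by
      refine le_trans ?_ (hQ'.trans (two_leR hκ hM1))
      have : 0 ≤ M * |β| := by positivity
      nlinarith
    obtain ⟨D, hD⟩ : ∃ D : ℝ, D = (q.divisors.card : ℝ) := ⟨_, rfl⟩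
    have hD0 : 0 ≤ D := by rw [hD]; positivity
    have hDM : D ≤ C3 * (2 * (M : ℝ) ^ (δ / 2)) := by
      rw [hD]
      refine (hdiv q hq0).trans ?_
      have : (q : ℝ) ^ δ ≤ 2 * (M : ℝ) ^ (δ / 2) := by
        calc (q : ℝ) ^ δ ≤ (2 * (M : ℝ) ^ (1 / 2 : ℝ)) ^ δ :=
              Real.rpow_le_rpow (by positivity) hqM hδ0.le
          _ = 2 ^ δ * (M : ℝ) ^ (δ / 2) := by
              rw [Real.mul_rpow (by norm_num) (by positivity), ← Real.rpow_mul hM0.le]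
              congr 2
              ring
          _ ≤ 2 * (M : ℝ) ^ (δ / 2) := by
              have e3 : (2 : ℝ) ^ δ ≤ 2 := by
                calc (2 : ℝ) ^ δ ≤ (2 : ℝ) ^ (1 : ℝ) := Real.rpow_le_rpow_of_exponent_le (by norm_num) (by linarith)
                  _ = 2 := Real.rpow_one 2
              gcongr
      gcongr
    have hsum := gcd_exp ha (fun n => (wt M n : ℂ) * ex (n * β)) (4 * M ^ 2)
      (fun g => C2 * Real.sqrt ((q / g : ℕ) : ℝ) * (M : ℝ) ^ (11 * δ) * (M : ℝ) ^ c +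
          C1 * (Nat.totient (q / g) : ℝ)) (by
      intro g r _ hgr
      have hg : 1 ≤ g := by
        rcases Nat.eq_zero_or_pos g with h | h
        · rw [h, zero_mul] at hgr
          omega
        · exact h
      have hqg : q / g = r := by
        rw [← hgr]
        exact Nat.mul_div_cancel_left r (by omega)
      simp only [hqg]
      subst hgr
      have hh := hper M hM2048 hM6 β g r hg (by push_cast at hQ'; exact hQ')
      exact hh)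
    have e1 : ∑ n ∈ Icc 1 (4 * M ^ 2), ((ArithmeticFunction.moebius n : ℤ) : ℂ) * wt M n * ex (n * x) =
        ∑ n ∈ Icc 1 (4 * M ^ 2), ((ArithmeticFunction.moebius n : ℤ) : ℂ) *
          ((wt M n : ℂ) * ex (n * β)) * ex ((a : ℝ) * n / q) := by
      refine sum_congr rfl fun n _ => ?_
      have e2 : (n : ℝ) * x = n * β + (a : ℝ) * n / q := by
        rw [hβ]
        have : (q : ℝ) ≠ 0 := by positivity
        field_simp
        ring
      rw [e2, ex_add]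
      ring
    rw [e1]
    have h3 : ∀ g ∈ q.divisors, Real.sqrt ((q / g : ℕ) : ℝ) / (Nat.totient (q / g) : ℝ) *
        (C2 * Real.sqrt ((q / g : ℕ) : ℝ) * (M : ℝ) ^ (11 * δ) * (M : ℝ) ^ c +
          C1 * (Nat.totient (q / g) : ℝ)) ≤
        D * (C2 * ((M : ℝ) ^ (11 * δ) * (M : ℝ) ^ c)) +
          C1 * (2 * (M : ℝ) ^ (1 / 4 : ℝ)) := by
      intro g hg
      obtain ⟨r, hr⟩ : ∃ r, r = q / g := ⟨_, rfl⟩
      rw [← hr]
      have hgd : g ∣ q := Nat.dvd_of_mem_divisors hg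
      have hrd : r ∣ q := by rw [hr]; exact Nat.div_dvd_of_dvd hgd
      have hr0 : r ≠ 0 := by
        rintro rfl
        exact hq0 (Nat.eq_zero_of_zero_dvd hrd)
      have hr1 : (1 : ℝ) ≤ r := by exact_mod_cast Nat.one_le_iff_ne_zero.2 hr0
      have hφ : 0 < (Nat.totient r : ℝ) := by
        exact_mod_cast Nat.totient_pos.2 (Nat.pos_of_ne_zero hr0)
      have hrD : (r : ℝ) ≤ D * (Nat.totient r : ℝ) := by
        have h4 : (r : ℝ) ≤ (r.divisors.card : ℝ) * (Nat.totient r : ℝ) := by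
          exact_mod_cast tot30 r hr0
        refine h4.trans ?_
        have h5 : (r.divisors.card : ℝ) ≤ D := by
          rw [hD]
          exact_mod_cast Finset.card_le_card (Nat.divisors_subset_of_dvd hq0 hrd)
        gcongr
      have hrM : Real.sqrt r ≤ 2 * (M : ℝ) ^ (1 / 4 : ℝ) := by
        have h4 : (r : ℝ) ≤ q := by exact_mod_cast Nat.le_of_dvd (by omega) hrd
        have h5 : Real.sqrt r ≤ Real.sqrt (2 * (M : ℝ) ^ (1 / 2 : ℝ)) := Real.sqrt_le_sqrt (h4.trans hqM)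
        refine h5.trans ?_
        have h6 : Real.sqrt ((M : ℝ) ^ (1 / 2 : ℝ)) = (M : ℝ) ^ (1 / 4 : ℝ) := by
          rw [Real.sqrt_eq_rpow, ← Real.rpow_mul hM0.le]
          norm_num
        rw [Real.sqrt_mul (by norm_num), h6]
        have h7 : Real.sqrt 2 ≤ 2 := by
          rw [Real.sqrt_le_left (by norm_num)]
          norm_num
        gcongr
      have e3 : Real.sqrt r / (Nat.totient r : ℝ) *
          (C2 * Real.sqrt r * (M : ℝ) ^ (11 * δ) * (M : ℝ) ^ c +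
            C1 * (Nat.totient r : ℝ)) =
          (Real.sqrt r * Real.sqrt r) / (Nat.totient r : ℝ) *
            (C2 * ((M : ℝ) ^ (11 * δ) * (M : ℝ) ^ c)) + C1 * Real.sqrt r := by
        field_simp
      rw [e3, Real.mul_self_sqrt (by linarith)]
      have h6 : (r : ℝ) / (Nat.totient r : ℝ) ≤ D := by
        rw [div_le_iff₀ hφ]
        exact hrD
      gcongr
    refine (add_le_add (hsum.trans (sum_le_sum h3)) le_rfl).trans ?_
    rw [sum_const, nsmul_eq_mul, ← hD]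
    -- final arithmetic
    have h7 : D * (D * (C2 * ((M : ℝ) ^ (11 * δ) * (M : ℝ) ^ c))) ≤ 4 * C2 * C3 ^ 2 * E := by
      have h8 : D * D ≤ 4 * C3 ^ 2 * (M : ℝ) ^ δ := by
        calc D * D ≤ (C3 * (2 * (M : ℝ) ^ (δ / 2))) * (C3 * (2 * (M : ℝ) ^ (δ / 2))) := by gcongr
          _ = 4 * C3 ^ 2 * ((M : ℝ) ^ (δ / 2) * (M : ℝ) ^ (δ / 2)) := by ring
          _ = 4 * C3 ^ 2 * (M : ℝ) ^ δ := by
              rw [← Real.rpow_add hM0]
              congr 2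
              ring
      have h9 : (M : ℝ) ^ δ * (M : ℝ) ^ (11 * δ) ≤ (M : ℝ) ^ ε := by
        rw [← Real.rpow_add hM0]
        exact Real.rpow_le_rpow_of_exponent_le hM1 (by linarith)
      calc D * (D * (C2 * ((M : ℝ) ^ (11 * δ) * (M : ℝ) ^ c)))
          = C2 * ((D * D) * ((M : ℝ) ^ (11 * δ) * (M : ℝ) ^ c)) := by ring
        _ ≤ C2 * ((4 * C3 ^ 2 * (M : ℝ) ^ δ) * ((M : ℝ) ^ (11 * δ) * (M : ℝ) ^ c)) := by
            gcongr
        _ = 4 * C2 * C3 ^ 2 * (((M : ℝ) ^ δ * (M : ℝ) ^ (11 * δ)) * (M : ℝ) ^ c) := by ring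
        _ ≤ 4 * C2 * C3 ^ 2 * ((M : ℝ) ^ ε * (M : ℝ) ^ c) := by gcongr
        _ = 4 * C2 * C3 ^ 2 * E := by rw [hE]
    have h10 : D * (C1 * (2 * (M : ℝ) ^ (1 / 4 : ℝ))) ≤ 4 * C1 * C3 * E := by
      have h11 : (M : ℝ) ^ (δ / 2) * (M : ℝ) ^ (1 / 4 : ℝ) ≤ E := by
        rw [hE, ← Real.rpow_add hM0]
        calc (M : ℝ) ^ (δ / 2 + 1 / 4) ≤ (M : ℝ) ^ c :=
              Real.rpow_le_rpow_of_exponent_le hM1 (by linarith)
          _ ≤ (M : ℝ) ^ ε * (M : ℝ) ^ c :=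
              le_mul_of_one_le_left (by linarith) hE1
      calc D * (C1 * (2 * (M : ℝ) ^ (1 / 4 : ℝ)))
          ≤ (C3 * (2 * (M : ℝ) ^ (δ / 2))) * (C1 * (2 * (M : ℝ) ^ (1 / 4 : ℝ))) := by gcongr
        _ = 4 * C1 * C3 * ((M : ℝ) ^ (δ / 2) * (M : ℝ) ^ (1 / 4 : ℝ)) := by ring
        _ ≤ 4 * C1 * C3 * E := by gcongr
    have h12 : K ≤ K * E := le_mul_of_one_le_right hK hEF
    have h13 : 0 ≤ 4 * L ^ 2 * E := by positivity
    rw [mul_add]
    linarith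
  · -- the small case
    have hML : (M : ℝ) ≤ L := by
      by_contra hcon
      push Not at hcon
      apply hbig
      constructor
      · have : (2048 : ℝ) ≤ M := hL0.trans hcon.le
        exact_mod_cast this
      · have h1 : (12 : ℝ) ^ (2 / δ) ≤ M := by
          have : (12 : ℝ) ^ (2 / δ) ≤ L := by rw [hL]; exact le_max_right _ _
          linarith
        calc (12 : ℝ) = ((12 : ℝ) ^ (2 / δ)) ^ (δ / 2) := by
              rw [← Real.rpow_mul (by norm_num)]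
              have : 2 / δ * (δ / 2) = 1 := by field_simp
              rw [this, Real.rpow_one]
          _ ≤ (M : ℝ) ^ (δ / 2) := Real.rpow_le_rpow (by positivity) h1 (by positivity)
    have h1 : ‖∑ n ∈ Icc 1 (4 * M ^ 2), ((ArithmeticFunction.moebius n : ℤ) : ℂ) * wt M n * ex (n * x)‖ ≤
        4 * L ^ 2 := by
      refine (norm_sum_le _ _).trans ((sum_le_sum hhead).trans ?_)
      rw [sum_const, Nat.card_Icc, nsmul_eq_mul, mul_one]
      have h2 : ((4 * M ^ 2 + 1 - 1 : ℕ) : ℝ) = 4 * (M : ℝ) ^ 2 := by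
        rw [Nat.add_sub_cancel]
        push_cast
        ring
      rw [h2]
      gcongr
    have h2 : 0 ≤ (4 * C2 * C3 ^ 2 + 4 * C1 * C3) * E := by positivity
    have h3 : 4 * L ^ 2 + K ≤ (4 * L ^ 2 + K) * E := le_mul_of_one_le_right (by positivity) hEF
    nlinarith

end Pool.Helper19.WZ
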