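import Pool.Agent.Helper19.WZ.InvL
import Pool.Agent.Helper19.WZ.Gam
import Pool.Agent.Helper83.BDF.Shift

/-!
# Smooth sums of the Moebius function with characters in a half plane without zeros

`smooth_bound`: if no Dirichlet L-function vanishes in `Re s > a`, then
`∑ μ(m) ψ(m) m^(κ + i t) e^(-m/X) ≪ (q (1 + |t|))^δ X^(κ + a + ε)`, for all characters `ψ` modulo `q` and real `t`.
-/

set_option autoImplicit false

namespace Pool.Helper19.WZ

open Complex MeasureTheory Set Filter Topology DirichletCharacter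

/-- the coefficients `μ(m) ψ(m)` -/
noncomputable def mc {q : ℕ} (ψ : DirichletCharacter ℂ q) (m : ℕ) : ℂ :=
  ((ArithmeticFunction.moebius m : ℤ) : ℂ) * ψ (m : ZMod q)

lemma mc_zero {q : ℕ} (ψ : DirichletCharacter ℂ q) : mc ψ 0 = 0 := by simp [mc]

lemma norm_mc_le {q : ℕ} (ψ : DirichletCharacter ℂ q) (m : ℕ) : ‖mc ψ m‖ ≤ 1 := by
  unfold mc
  rw [norm_mul, Complex.norm_intCast]
  exact mul_le_one₀ (by exact_mod_cast ArithmeticFunction.abs_moebius_le_one) (norm_nonneg _) (norm_le_one ψ _)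

/-- the inverse of the L-function as an analytic function -/
lemma exists_D {a ε δ : ℝ} (ha0 : 1 / 2 ≤ a) (ha1 : a < 1) (hε : 0 < ε) (hε1 : ε ≤ 1 / 2) (hδ : 0 < δ) (hZ : ZF a) :
    ∃ C : ℝ, 0 < C ∧ ∀ (q : ℕ) [NeZero q] (ψ : DirichletCharacter ℂ q), ∃ D : ℂ → ℂ,
      (∀ s : ℂ, a < s.re → DifferentiableAt ℂ D s) ∧ (∀ s : ℂ, 1 < s.re → D s = LSeries (mc ψ) s) ∧
      ∀ s : ℂ, a + ε ≤ s.re → s.re ≤ 2 → ‖D s‖ ≤ C * ((q : ℝ) * (1 + |s.im|)) ^ δ := by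
  obtain ⟨C1, hC1, hnp⟩ := inv_L_np ha0 ha1 hε hε1 hδ hZ
  obtain ⟨C2, hC2, hp⟩ := inv_L_p ha0 ha1 hε hε1 hδ hZ
  refine ⟨C1 + C2, by positivity, fun q _ ψ => ?_⟩
  have hmu : ∀ s : ℂ, 1 < s.re → LFunction ψ s * LSeries (mc ψ) s = 1 := by
    intro s hs
    have h1 := LSeries.mul_mu_eq_one ψ hs
    rw [LFunction_eq_LSeries ψ hs, ← h1]
    congr 1
    refine LSeries_congr (fun {n} _ => ?_) s
    simp only [mc, Pi.mul_apply]
    ring
  by_cases hψ : ψ = 1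
  · refine ⟨fun s => (s - 1) / LFunctionTrivChar₁ q s, fun s hs => ?_, fun s hs => ?_, fun s hs1 hs2 => ?_⟩
    · refine DifferentiableAt.div (by fun_prop) (differentiable_LFunctionTrivChar₁ q s) ?_
      by_cases h1 : s = 1
      · rw [h1]
        exact LFunctionTrivChar₁_apply_one_ne_zero q
      · rw [LFunctionTrivChar₁, Function.update_of_ne h1]
        exact mul_ne_zero (sub_ne_zero.2 h1) (hZ q 1 s hs h1)
    · have h1 : s ≠ 1 := by
        rintro rfl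
        simp at hs
      have h2 := hmu s hs
      rw [hψ] at h2
      show (s - 1) / LFunctionTrivChar₁ q s = LSeries (mc ψ) s
      rw [LFunctionTrivChar₁, Function.update_of_ne h1, hψ]
      have h3 : LFunctionTrivChar q s ≠ 0 := hZ q 1 s (by linarith) h1
      have h4 : s - 1 ≠ 0 := sub_ne_zero.2 h1
      rw [div_eq_iff (mul_ne_zero h4 h3)]
      have h5 : LSeries (mc (1 : DirichletCharacter ℂ q)) s * ((s - 1) * LFunctionTrivChar q s) =
          (s - 1) * (LFunction (1 : DirichletCharacter ℂ q) s * LSeries (mc (1 : DirichletCharacter ℂ q)) s) := by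
        rw [LFunctionTrivChar]
        ring
      rw [h5, h2, mul_one]
    · show ‖(s - 1) / LFunctionTrivChar₁ q s‖ ≤ _
      by_cases h1 : s = 1
      · rw [h1, sub_self, zero_div, norm_zero]
        positivity
      · have h2 := hp q s hs1 hs2 h1
        have h3 : (s - 1) / LFunctionTrivChar₁ q s = (LFunctionTrivChar q s)⁻¹ := by
          rw [LFunctionTrivChar₁, Function.update_of_ne h1]
          have h4 : s - 1 ≠ 0 := sub_ne_zero.2 h1
          rw [div_mul_eq_div_div, div_self h4, one_div]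
        rw [h3]
        have h5 : 0 ≤ ((q : ℝ) * (1 + |s.im|)) ^ δ := by positivity
        nlinarith
  · refine ⟨fun s => (LFunction ψ s)⁻¹, fun s hs => ?_, fun s hs => ?_, fun s hs1 hs2 => ?_⟩
    · refine DifferentiableAt.inv (differentiable_LFunction hψ s) ?_
      by_cases h1 : s = 1
      · rw [h1]
        exact LFunction_apply_one_ne_zero hψ
      · exact hZ q ψ s hs h1
    · exact (eq_inv_of_mul_eq_one_right (hmu s hs)).symm
    · have h2 := hnp q ψ hψ s hs1 hs2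
      have h5 : 0 ≤ ((q : ℝ) * (1 + |s.im|)) ^ δ := by positivity
      show ‖(LFunction ψ s)⁻¹‖ ≤ _
      nlinarith

/-- separation of `m/X` -/
lemma div_cpow19 {m X : ℝ} (hm : 0 < m) (hX : 0 < X) (s : ℂ) :
    ((m / X : ℝ) : ℂ) ^ (-s) = (m : ℂ) ^ (-s) * (X : ℂ) ^ s := by
  rw [div_eq_mul_inv, Complex.ofReal_mul, Complex.mul_cpow_ofReal_nonneg hm.le (inv_nonneg.2 hX.le)]
  congr 1
  rw [Complex.ofReal_inv, Complex.inv_cpow _ _ (by
    rw [Complex.arg_ofReal_of_nonneg hX.le]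
    exact Real.pi_ne_zero.symm), ← Complex.cpow_neg, neg_neg]

/-- the smooth sum as an integral -/
lemma hasSum_smooth {q : ℕ} (ψ : DirichletCharacter ℂ q) {κ t X c : ℝ} (hX : 0 < X) (hc0 : 0 < c)
    (hc : κ + 1 < c) {D : ℂ → ℂ} (hD : ∀ s : ℂ, 1 < s.re → D s = LSeries (mc ψ) s) :
    HasSum (fun m : ℕ => mc ψ m * (m : ℂ) ^ ((κ : ℂ) + (t : ℂ) * I) * ((Real.exp (-((m : ℝ) / X)) : ℝ) : ℂ))
      ((1 / (2 * Real.pi) : ℝ) * ∫ y : ℝ, Gamma ((c : ℂ) + (y : ℂ) * I) * (X : ℂ) ^ ((c : ℂ) + (y : ℂ) * I) *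
        D ((c : ℂ) + (y : ℂ) * I - ((κ : ℂ) + (t : ℂ) * I))) := by
  obtain ⟨w, hw⟩ : ∃ w : ℂ, w = (κ : ℂ) + (t : ℂ) * I := ⟨_, rfl⟩
  have hwre : w.re = κ := by rw [hw]; simp
  rw [← hw]
  obtain ⟨F, hF⟩ : ∃ F : ℕ → ℝ → ℂ, F = fun (m : ℕ) (y : ℝ) => mc ψ m * (m : ℂ) ^ w *
    (((m : ℂ) ^ (-((c : ℂ) + ((y : ℝ) : ℂ) * I)) * (X : ℂ) ^ ((c : ℂ) + ((y : ℝ) : ℂ) * I)) * Gamma ((c : ℂ) + ((y : ℝ) : ℂ) * I)) := ⟨_, rfl⟩
  have hF0 : ∀ y, F 0 y = 0 := by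
    intro y
    rw [hF]
    simp [mc_zero]
  have hnorm : ∀ m : ℕ, 0 < m → ∀ y : ℝ, ‖F m y‖ ≤ (m : ℝ) ^ (κ - c) * (X ^ c * ‖Gamma ((c : ℂ) + (y : ℂ) * I)‖) := by
    intro m hm y
    have hm0 : (0 : ℝ) < m := by exact_mod_cast hm
    have e1 : ‖(m : ℂ) ^ w‖ = (m : ℝ) ^ κ := by rw [Complex.norm_natCast_cpow_of_pos hm, hwre]
    have e2 : ‖(m : ℂ) ^ (-((c : ℂ) + (y : ℂ) * I))‖ = (m : ℝ) ^ (-c) := by
      rw [Complex.norm_natCast_cpow_of_pos hm]
      simp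
    have e3 : ‖(X : ℂ) ^ ((c : ℂ) + (y : ℂ) * I)‖ = X ^ c := by
      rw [Complex.norm_cpow_eq_rpow_re_of_pos hX]
      simp
    rw [hF]
    simp only
    rw [norm_mul, norm_mul, norm_mul, norm_mul, e1, e2, e3, Real.rpow_sub hm0, div_eq_mul_inv,
      ← Real.rpow_neg hm0.le]
    have e4 := norm_mc_le ψ m
    have e5 : 0 ≤ (m : ℝ) ^ κ * ((m : ℝ) ^ (-c) * X ^ c * ‖Gamma ((c : ℂ) + (y : ℂ) * I)‖) := by positivity
    calc ‖mc ψ m‖ * (m : ℝ) ^ κ * ((m : ℝ) ^ (-c) * X ^ c * ‖Gamma ((c : ℂ) + (y : ℂ) * I)‖) =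
          ‖mc ψ m‖ * ((m : ℝ) ^ κ * ((m : ℝ) ^ (-c) * X ^ c * ‖Gamma ((c : ℂ) + (y : ℂ) * I)‖)) := by ring
      _ ≤ 1 * ((m : ℝ) ^ κ * ((m : ℝ) ^ (-c) * X ^ c * ‖Gamma ((c : ℂ) + (y : ℂ) * I)‖)) :=
        mul_le_mul_of_nonneg_right e4 e5
      _ = _ := by ring
  have hGi : Integrable (fun y : ℝ => ‖Gamma ((c : ℂ) + (y : ℂ) * I)‖) := (gam_integrable hc0).norm
  have hFi : ∀ m : ℕ, Integrable (F m) := by
    intro m
    rcases Nat.eq_zero_or_pos m with h0 | hm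
    · rw [h0]
      have : F 0 = fun _ => 0 := funext hF0
      rw [this]
      exact integrable_zero _ _ _
    · refine ((hGi.const_mul (X ^ c)).const_mul ((m : ℝ) ^ (κ - c))).mono' ?_ (Eventually.of_forall (hnorm m hm))
      rw [hF]
      have hm0 : (m : ℂ) ≠ 0 := by exact_mod_cast hm.ne'
      have hX0 : (X : ℂ) ≠ 0 := by exact_mod_cast hX.ne'
      have g1 : Continuous (fun y : ℝ => (m : ℂ) ^ (-((c : ℂ) + (y : ℂ) * I))) :=
        Continuous.const_cpow (by fun_prop) (Or.inl hm0)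
      have g2 : Continuous (fun y : ℝ => (X : ℂ) ^ ((c : ℂ) + (y : ℂ) * I)) :=
        Continuous.const_cpow (by fun_prop) (Or.inl hX0)
      exact (continuous_const.mul ((g1.mul g2).mul (gam_cont hc0))).aestronglyMeasurable
  have hsum : Summable (fun m : ℕ => ∫ y, ‖F m y‖) := by
    have h1 : Summable (fun m : ℕ => (m : ℝ) ^ (κ - c) * (X ^ c * ∫ y : ℝ, ‖Gamma ((c : ℂ) + (y : ℂ) * I)‖)) :=
      (Real.summable_nat_rpow.2 (by linarith)).mul_right _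
    refine Summable.of_nonneg_of_le (fun m => integral_nonneg fun y => norm_nonneg _) (fun m => ?_) h1
    rcases Nat.eq_zero_or_pos m with h0 | hm
    · rw [h0]
      simp only [hF0, norm_zero, integral_zero]
      have : 0 ≤ ∫ y : ℝ, ‖Gamma ((c : ℂ) + (y : ℂ) * I)‖ := integral_nonneg fun y => norm_nonneg _
      positivity
    · refine (integral_mono (hFi m).norm ((hGi.const_mul (X ^ c)).const_mul _) (hnorm m hm)).trans (le_of_eq ?_)
      rw [integral_const_mul, integral_const_mul]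
  have key := hasSum_integral_of_summable_integral_norm hFi hsum
  have key2 := key.mul_left ((1 / (2 * Real.pi) : ℝ) : ℂ)
  have hpi : (2 * Real.pi : ℝ) ≠ 0 := by positivity
  have e1 : (fun m : ℕ => ((1 / (2 * Real.pi) : ℝ) : ℂ) * ∫ y, F m y) =
      fun m : ℕ => mc ψ m * (m : ℂ) ^ w * ((Real.exp (-((m : ℝ) / X)) : ℝ) : ℂ) := by
    ext m
    rcases Nat.eq_zero_or_pos m with h0 | hm
    · rw [h0]
      simp [hF0, mc_zero]
    · have hm0 : (0 : ℝ) < m := by exact_mod_cast hm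
      rw [exp_mellin hc0 (div_pos hm0 hX), hF]
      simp only
      rw [integral_const_mul]
      have e2 : ∀ y : ℝ, ((m : ℂ) ^ (-((c : ℂ) + (y : ℂ) * I)) * (X : ℂ) ^ ((c : ℂ) + (y : ℂ) * I)) *
          Gamma ((c : ℂ) + (y : ℂ) * I) = (((m : ℝ) / X : ℝ) : ℂ) ^ (-((c : ℂ) + (y : ℂ) * I)) *
          Gamma ((c : ℂ) + (y : ℂ) * I) := by
        intro y
        rw [div_cpow19 hm0 hX, Complex.ofReal_natCast]
      simp_rw [e2]
      ring
  have e3 : (∫ y, ∑' m : ℕ, F m y) = ∫ y : ℝ, Gamma ((c : ℂ) + (y : ℂ) * I) * (X : ℂ) ^ ((c : ℂ) + (y : ℂ) * I) *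
        D ((c : ℂ) + (y : ℂ) * I - w) := by
    congr 1
    ext y
    have hre : 1 < ((c : ℂ) + (y : ℂ) * I - w).re := by
      rw [Complex.sub_re, hwre]
      simp
      linarith
    rw [hD _ hre, LSeries, ← tsum_mul_left]
    congr 1
    ext m
    rcases Nat.eq_zero_or_pos m with h0 | hm
    · rw [h0, hF0, LSeries.term_zero, mul_zero]
    · have hm0 : (m : ℂ) ≠ 0 := by exact_mod_cast hm.ne'
      rw [LSeries.term_of_ne_zero (by omega), hF]
      simp only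
      have e4 : (m : ℂ) ^ ((c : ℂ) + (y : ℂ) * I - w) = (m : ℂ) ^ ((c : ℂ) + (y : ℂ) * I) / (m : ℂ) ^ w :=
        Complex.cpow_sub _ _ hm0
      have e5 : (m : ℂ) ^ w ≠ 0 := by
        rw [Complex.cpow_def_of_ne_zero hm0]
        exact Complex.exp_ne_zero _
      have e6 : (m : ℂ) ^ ((c : ℂ) + (y : ℂ) * I) ≠ 0 := by
        rw [Complex.cpow_def_of_ne_zero hm0]
        exact Complex.exp_ne_zero _
      rw [e4, Complex.cpow_neg]
      field_simp
  rw [e1, e3] at key2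
  exact key2

/-- **Smooth sums of the Moebius function in a half plane without zeros.** -/
theorem smooth_bound {a ε δ κ : ℝ} (ha0 : 1 / 2 ≤ a) (ha1 : a < 1) (hε : 0 < ε) (hε1 : ε ≤ 1 / 2) (hδ : 0 < δ)
    (hδ1 : δ ≤ 1) (hκ : 0 ≤ κ) (hZ : ZF a) :
    ∃ C : ℝ, 0 < C ∧ ∀ (q : ℕ) [NeZero q] (ψ : DirichletCharacter ℂ q) (t X : ℝ), 0 < X →
      Summable (fun m : ℕ => mc ψ m * (m : ℂ) ^ ((κ : ℂ) + (t : ℂ) * I) * ((Real.exp (-((m : ℝ) / X)) : ℝ) : ℂ)) ∧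
      ‖∑' m : ℕ, mc ψ m * (m : ℂ) ^ ((κ : ℂ) + (t : ℂ) * I) * ((Real.exp (-((m : ℝ) / X)) : ℝ) : ℂ)‖ ≤
        C * ((q : ℝ) * (1 + |t|)) ^ δ * X ^ (κ + a + ε) := by
  obtain ⟨C1, hC1, hDD⟩ := exists_D ha0 ha1 hε hε1 hδ hZ
  have hσ0 : 0 < κ + a + ε := by linarith
  have hσc : κ + a + ε ≤ κ + 3 / 2 := by linarith
  obtain ⟨C2, hC2, hΓ⟩ := gam_decay hσ0 hσc
  obtain ⟨J, hJ⟩ : ∃ J : ℝ, J = ∫ y : ℝ, (1 + |y|) ^ (-2 : ℝ) := ⟨_, rfl⟩
  have hJ0 : 0 ≤ J := by rw [hJ]; exact integral_nonneg fun y => by positivity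
  refine ⟨C2 * C1 * (J + 1), by positivity, fun q _ ψ t X hX => ?_⟩
  obtain ⟨D, hD1, hD2, hD3⟩ := hDD q ψ
  have hq : (1 : ℝ) ≤ q := by exact_mod_cast NeZero.one_le
  have hS := hasSum_smooth ψ (κ := κ) (t := t) hX (c := κ + 3 / 2) (by linarith) (by linarith) hD2
  refine ⟨hS.summable, ?_⟩
  rw [hS.tsum_eq]
  obtain ⟨w, hw⟩ : ∃ w : ℂ, w = (κ : ℂ) + (t : ℂ) * I := ⟨_, rfl⟩
  have hwre : w.re = κ := by rw [hw]; simp
  have hwim : w.im = t := by rw [hw]; simp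
  rw [← hw]
  obtain ⟨g, hg⟩ : ∃ g : ℂ → ℂ, g = fun s => Gamma s * (X : ℂ) ^ s * D (s - w) := ⟨_, rfl⟩
  have hX0 : (X : ℂ) ≠ 0 := by exact_mod_cast hX.ne'
  -- the bound in the strip
  have hgb : ∀ s : ℂ, κ + a + ε ≤ s.re → s.re ≤ κ + 3 / 2 →
      ‖g s‖ ≤ C2 * C1 * ((q : ℝ) * (1 + |t|)) ^ δ * X ^ s.re * (1 + |s.im|) ^ (-2 : ℝ) := by
    intro s hs1 hs2
    have e1 := hΓ s hs1 hs2
    have e2 := hD3 (s - w) (by rw [Complex.sub_re, hwre]; linarith) (by rw [Complex.sub_re, hwre]; linarith)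
    rw [Complex.sub_im, hwim] at e2
    have e3 : ‖(X : ℂ) ^ s‖ = X ^ s.re := Complex.norm_cpow_eq_rpow_re_of_pos hX s
    have hy : 0 ≤ |s.im| := abs_nonneg _
    have ht : 0 ≤ |t| := abs_nonneg _
    have e4 : ((q : ℝ) * (1 + |s.im - t|)) ^ δ ≤ ((q : ℝ) * (1 + |t|)) ^ δ * (1 + |s.im|) := by
      have f1 : (q : ℝ) * (1 + |s.im - t|) ≤ ((q : ℝ) * (1 + |t|)) * (1 + |s.im|) := by
        have f2 : |s.im - t| ≤ |s.im| + |t| := abs_sub _ _
        have f3 : 0 ≤ |s.im| * |t| := by positivity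
        have f4 : 1 + |s.im - t| ≤ (1 + |t|) * (1 + |s.im|) := by nlinarith
        calc (q : ℝ) * (1 + |s.im - t|) ≤ q * ((1 + |t|) * (1 + |s.im|)) := mul_le_mul_of_nonneg_left f4 (by linarith)
          _ = _ := by ring
      calc ((q : ℝ) * (1 + |s.im - t|)) ^ δ ≤ (((q : ℝ) * (1 + |t|)) * (1 + |s.im|)) ^ δ :=
            Real.rpow_le_rpow (by positivity) f1 hδ.le
        _ = ((q : ℝ) * (1 + |t|)) ^ δ * (1 + |s.im|) ^ δ := Real.mul_rpow (by positivity) (by positivity)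
        _ ≤ ((q : ℝ) * (1 + |t|)) ^ δ * (1 + |s.im|) := by
          apply mul_le_mul_of_nonneg_left _ (by positivity)
          calc (1 + |s.im|) ^ δ ≤ (1 + |s.im|) ^ (1 : ℝ) := Real.rpow_le_rpow_of_exponent_le (by linarith) hδ1
            _ = 1 + |s.im| := Real.rpow_one _
    have e5 : C2 / (1 + |s.im|) ^ 4 * (1 + |s.im|) ≤ C2 * (1 + |s.im|) ^ (-2 : ℝ) := by
      have f1 : (1 + |s.im|) ^ (-2 : ℝ) = 1 / (1 + |s.im|) ^ 2 := by
        rw [Real.rpow_neg (by positivity), ← one_div]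
        norm_num
      rw [f1, mul_one_div, div_mul_eq_mul_div, div_le_div_iff₀ (by positivity) (by positivity)]
      have f2 : (1 + |s.im|) ^ 3 ≤ (1 + |s.im|) ^ 4 := pow_le_pow_right₀ (by linarith) (by norm_num)
      calc C2 * (1 + |s.im|) * (1 + |s.im|) ^ 2 = C2 * (1 + |s.im|) ^ 3 := by ring
        _ ≤ C2 * (1 + |s.im|) ^ 4 := mul_le_mul_of_nonneg_left f2 hC2.le
    rw [hg]
    simp only
    rw [norm_mul, norm_mul, e3]
    have e6 : 0 ≤ ((q : ℝ) * (1 + |t|)) ^ δ := by positivity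
    calc ‖Gamma s‖ * X ^ s.re * ‖D (s - w)‖ ≤ C2 / (1 + |s.im|) ^ 4 * X ^ s.re *
          (C1 * (((q : ℝ) * (1 + |t|)) ^ δ * (1 + |s.im|))) := by
          gcongr
          exact e2.trans (mul_le_mul_of_nonneg_left e4 hC1.le)
      _ = C1 * ((q : ℝ) * (1 + |t|)) ^ δ * X ^ s.re * (C2 / (1 + |s.im|) ^ 4 * (1 + |s.im|)) := by ring
      _ ≤ C1 * ((q : ℝ) * (1 + |t|)) ^ δ * X ^ s.re * (C2 * (1 + |s.im|) ^ (-2 : ℝ)) := by gcongr
      _ = _ := by ring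
  have hgd : ∀ s : ℂ, κ + a + ε ≤ s.re → s.re ≤ κ + 3 / 2 → DifferentiableAt ℂ g s := by
    intro s hs1 hs2
    have e1 : DifferentiableAt ℂ Gamma s := by
      refine differentiableAt_Gamma _ fun m h => ?_
      have := congrArg Complex.re h
      simp at this
      have hm : (0 : ℝ) ≤ m := Nat.cast_nonneg m
      linarith
    have e2 : DifferentiableAt ℂ (fun s : ℂ => (X : ℂ) ^ s) s := differentiableAt_id.const_cpow (Or.inl hX0)
    have e3 : DifferentiableAt ℂ (fun s : ℂ => D (s - w)) s := by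
      refine DifferentiableAt.comp (g := D) s (hD1 _ ?_) (by fun_prop)
      rw [Complex.sub_re, hwre]
      linarith
    rw [hg]
    exact (e1.mul e2).mul e3
  have hgi : ∀ σ : ℝ, κ + a + ε ≤ σ → σ ≤ κ + 3 / 2 → Integrable (fun y : ℝ => g ((σ : ℂ) + (y : ℂ) * I)) := by
    intro σ h1 h2
    refine (int_two.const_mul (C2 * C1 * ((q : ℝ) * (1 + |t|)) ^ δ * X ^ σ)).mono' ?_ ?_
    · apply Continuous.aestronglyMeasurable
      rw [continuous_iff_continuousAt]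
      intro y
      exact ContinuousAt.comp (g := g) (hgd _ (by simpa using h1) (by simpa using h2)).continuousAt (by fun_prop)
    · filter_upwards with y
      have := hgb ((σ : ℂ) + (y : ℂ) * I) (by simpa using h1) (by simpa using h2)
      simpa using this
  have hshift := Pool.Agent.Helper83.BDF.shift g hσc hgd
    (fun T => C2 * C1 * ((q : ℝ) * (1 + |t|)) ^ δ * (X ^ (κ + a + ε) + X ^ (κ + 3 / 2)) * (1 + T) ^ (-2 : ℝ)) (by
      have e1 : Tendsto (fun T : ℝ => (1 + T) ^ (-2 : ℝ)) atTop (𝓝 0) :=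
        (tendsto_rpow_neg_atTop (y := 2) (by norm_num)).comp (tendsto_atTop_add_const_left _ 1 tendsto_id)
      simpa using e1.const_mul (C2 * C1 * ((q : ℝ) * (1 + |t|)) ^ δ * (X ^ (κ + a + ε) + X ^ (κ + 3 / 2)))) (by
      filter_upwards with T s hs1 hs2 hT
      refine (hgb s hs1 hs2).trans ?_
      rw [hT]
      have e1 : X ^ s.re ≤ X ^ (κ + a + ε) + X ^ (κ + 3 / 2) := by
        rcases le_total 1 X with h | h
        · have := Real.rpow_le_rpow_of_exponent_le h hs2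
          have h0 : 0 ≤ X ^ (κ + a + ε) := by positivity
          linarith
        · have := Real.rpow_le_rpow_of_exponent_ge hX h hs1
          have h0 : 0 ≤ X ^ (κ + 3 / 2) := by positivity
          linarith
      have e2 : 0 ≤ (1 + T) ^ (-2 : ℝ) := by
        rw [← hT]
        positivity
      gcongr) (hgi _ le_rfl hσc) (hgi _ hσc le_rfl)
  have hge : (∫ y : ℝ, Gamma (((κ + 3 / 2 : ℝ) : ℂ) + (y : ℂ) * I) * (X : ℂ) ^ (((κ + 3 / 2 : ℝ) : ℂ) + (y : ℂ) * I) *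
      D (((κ + 3 / 2 : ℝ) : ℂ) + (y : ℂ) * I - w)) = ∫ y : ℝ, g (((κ + a + ε : ℝ) : ℂ) + (y : ℂ) * I) := by
    rw [hshift, hg]
  rw [hge, norm_mul]
  have h1 : ‖∫ y : ℝ, g (((κ + a + ε : ℝ) : ℂ) + (y : ℂ) * I)‖ ≤
      C2 * C1 * ((q : ℝ) * (1 + |t|)) ^ δ * X ^ (κ + a + ε) * J := by
    refine (norm_integral_le_of_norm_le (int_two.const_mul (C2 * C1 * ((q : ℝ) * (1 + |t|)) ^ δ * X ^ (κ + a + ε)))
      ?_).trans (le_of_eq ?_)
    · filter_upwards with y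
      have := hgb (((κ + a + ε : ℝ) : ℂ) + (y : ℂ) * I) (by simp) (by simpa using hσc)
      simpa using this
    · rw [integral_const_mul, hJ]
  have h2 : ‖((1 / (2 * Real.pi) : ℝ) : ℂ)‖ ≤ 1 := by
    rw [Complex.norm_real, Real.norm_of_nonneg (by positivity), div_le_one (by positivity)]
    have := Real.pi_gt_three
    linarith
  have h3 : 0 ≤ C2 * C1 * ((q : ℝ) * (1 + |t|)) ^ δ * X ^ (κ + a + ε) := by positivity
  calc ‖((1 / (2 * Real.pi) : ℝ) : ℂ)‖ * ‖∫ y : ℝ, g (((κ + a + ε : ℝ) : ℂ) + (y : ℂ) * I)‖ ≤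
        1 * (C2 * C1 * ((q : ℝ) * (1 + |t|)) ^ δ * X ^ (κ + a + ε) * J) :=
        mul_le_mul h2 h1 (norm_nonneg _) zero_le_one
    _ ≤ C2 * C1 * ((q : ℝ) * (1 + |t|)) ^ δ * X ^ (κ + a + ε) * (J + 1) := by
      rw [one_mul]
      apply mul_le_mul_of_nonneg_left _ h3
      linarith
    _ = _ := by ring

end Pool.Helper19.WZ
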