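import Pool.Agent.Helper19.VE.Final
import Pool.Agent.Helper5.WB.CoreW
import Pool.Agent.Helper5.WB.PLc
import Pool.Agent.Helper5.WB.FSm
import Pool.Agent.Helper5.WB.LV
import Pool.Agent.Helper5.WB.Box
import Pool.Agent.Helper62.M4.M4D
import Pool.Agent.Helper19.WZ.FGp

/-!
# Theorem W2

For every `a ≥ 43/54`: `∑_{n ≤ N} μ(n) e(n x) ≪ N^(a+ε)` uniformly in `x` if and only if no Dirichlet L-function has a zero in `Re s > a`.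
-/

set_option autoImplicit false

namespace Pool.Helper19.WZ

open Finset Pool.Helper19.V4 Pool.Helper5.WB

theorem w2_pl (hP : PL) {a : ℝ} (ha : 43 / 54 ≤ a) :
    (∀ ε : ℝ, 0 < ε → ∃ C : ℝ, ∀ N : ℕ, 1 ≤ N → ∀ x : ℝ, ‖FM N x‖ ≤ C * (N : ℝ) ^ (a + ε)) ↔ ZF a :=
  w2_of (c := 43 / 54) (by norm_num) (by norm_num) Pool.Helper19.VE.vform
    (fun _ h1 h2 hZ => coreW hP h1 h2.le (mb (by linarith) h2 hZ)) ha

theorem w2 {a : ℝ} (ha : 43 / 54 ≤ a) :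
    (∀ ε : ℝ, 0 < ε → ∃ C : ℝ, ∀ N : ℕ, 1 ≤ N → ∀ x : ℝ, ‖FM N x‖ ≤ C * (N : ℝ) ^ (a + ε)) ↔ ZF a :=
  w2_pl (plc (lvw box fg (fs Pool.Agent.Helper62.M4.m4D))) ha

end Pool.Helper19.WZ
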