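import Pool.Agent.Helper19.WZ.SmallR
import Pool.Agent.Helper19.WZ.Fin

/-!
# W+: the assembly at `3/4` without Vaughan's inequality

Every `x` has a fraction `b/r` with `QQ M x b r ≤ 2 √M` (Dirichlet), so `PLR (1/2) h` bounds the smooth sum at every `x`, hence the sharp sum.
-/

set_option autoImplicit false

namespace Pool.Helper19.WZ

open Finset Pool.Helper19.V4 Pool.Helper19.V5 Pool.Agent.Helper88.WS

/-- the smooth sums at all points -/
lemma sup_GM34 {h : ℝ} (hh : 1 / 2 ≤ h) (hP : PLR (1 / 2) h) {ε : ℝ} (hε : 0 < ε) :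
    ∃ C : ℝ, 0 < C ∧ ∀ M : ℕ, 1 ≤ M → ∀ x : ℝ, ‖GM M x‖ ≤ C * (M : ℝ) ^ ε * (M : ℝ) ^ h := by
  obtain ⟨C2, hC2, h2⟩ := gm_smallR (by norm_num) le_rfl hh hP ε hε
  refine ⟨C2, hC2, fun M hM x => ?_⟩
  have hN1 : (1 : ℝ) ≤ M := by exact_mod_cast hM
  have hN0 : (0 : ℝ) < M := by linarith
  obtain ⟨D, hD⟩ : ∃ D : ℝ, D = (M : ℝ) ^ (1 / 2 : ℝ) := ⟨_, rfl⟩
  have hD1 : 1 ≤ D := by rw [hD]; exact Real.one_le_rpow hN1 (by norm_num)
  have hD0 : 0 < D := by linarith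
  have hKD : D * D = M := by
    rw [hD, ← Real.rpow_add hN0]
    norm_num
  have hn : 0 < ⌊D⌋₊ := Nat.floor_pos.mpr hD1
  obtain ⟨s, hs1, hs2⟩ := Real.exists_rat_abs_sub_le_and_den_le x hn
  have hsden : (0 : ℝ) < s.den := by exact_mod_cast s.den_pos
  have hsD : (s.den : ℝ) ≤ D := le_trans (by exact_mod_cast hs2) (Nat.floor_le hD0.le)
  have hfl : D < (⌊D⌋₊ : ℝ) + 1 := Nat.lt_floor_add_one D
  have hscast : ((s : ℚ) : ℝ) = (s.num : ℝ) / (s.den : ℝ) := by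
    exact_mod_cast congrArg (fun t : ℚ => (t : ℝ)) (Rat.num_div_den s).symm
  rw [hscast] at hs1
  have hs3 : |x - (s.num : ℝ) / (s.den : ℝ)| ≤ 1 / (D * s.den) := by
    refine le_trans hs1 (one_div_le_one_div_of_le (by positivity) ?_)
    exact mul_le_mul_of_nonneg_right hfl.le hsden.le
  have hcop : IsCoprime s.num (s.den : ℤ) := by
    rw [Int.isCoprime_iff_gcd_eq_one]
    have := s.reduced
    rwa [Nat.coprime_iff_gcd_eq_one] at this
  obtain ⟨b, r, hb, hr⟩ : ∃ (b : ℤ) (r : ℕ), b = s.num ∧ r = s.den := ⟨_, _, rfl, rfl⟩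
  rw [← hb, ← hr] at hs3 hcop
  rw [← hr] at hsden hsD
  have hr1 : 1 ≤ r := by rw [hr]; exact s.den_pos
  have hs4 : M * |x - (b : ℝ) / r| * r ≤ D := by
    have e1 : |x - (b : ℝ) / r| * (D * r) ≤ 1 := by
      have := mul_le_mul_of_nonneg_right hs3 (by positivity : 0 ≤ D * (r : ℝ))
      rwa [one_div, inv_mul_cancel₀ (by positivity)] at this
    calc M * |x - (b : ℝ) / r| * r = D * (|x - (b : ℝ) / r| * (D * r)) := by
          rw [← hKD]
          ring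
      _ ≤ D * 1 := mul_le_mul_of_nonneg_left e1 hD0.le
      _ = D := mul_one D
  have hQdef : QQ M x b r = r * (1 + M * |x - b / r|) := rfl
  have hQle : QQ M x b r ≤ 2 * (M : ℝ) ^ (1 / 2 : ℝ) := by
    rw [hQdef, ← hD]
    nlinarith
  exact h2 M hM x b r hr1 hcop hQle

/-- from the smooth sums to the sharp sums -/
theorem sharp_of_smooth {h : ℝ} (hh : 1 / 2 ≤ h)
    (hG : ∀ ε : ℝ, 0 < ε → ∃ C : ℝ, 0 < C ∧ ∀ M : ℕ, 1 ≤ M → ∀ x : ℝ, ‖GM M x‖ ≤ C * (M : ℝ) ^ ε * (M : ℝ) ^ h) :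
    ∀ ε : ℝ, 0 < ε → ∃ C : ℝ, 0 < C ∧ ∀ N : ℕ, 1 ≤ N → ∀ x : ℝ, ‖FM N x‖ ≤ C * (N : ℝ) ^ (h + ε) := by
  intro ε hε
  obtain ⟨e, he⟩ : ∃ e : ℝ, e = min (ε / 2) 1 := ⟨_, rfl⟩
  have he0 : 0 < e := by rw [he]; positivity
  have he1 : e ≤ 1 := by rw [he]; exact min_le_right _ _
  have he2 : 2 * e ≤ ε := by
    have : e ≤ ε / 2 := by rw [he]; exact min_le_left _ _
    linarith
  obtain ⟨C, hC, hG1⟩ := hG e he0
  obtain ⟨C', hC'⟩ : ∃ C' : ℝ, C' = 8 * (1 + 1 / e) * C := ⟨_, rfl⟩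
  have hC'0 : 0 < C' := by rw [hC']; positivity
  obtain ⟨Ψ, hΨ⟩ : ∃ Ψ : ℕ → ℝ, Ψ = fun N : ℕ => (N : ℝ) ^ (2 * e) * (N : ℝ) ^ h := ⟨_, rfl⟩
  have hΨ0 : ∀ N : ℕ, 0 ≤ Ψ N := fun N => by rw [hΨ]; positivity
  have hΨ1 : ∀ N : ℕ, 1 ≤ N → 1 ≤ Ψ N := by
    intro N hN
    have hN1 : (1 : ℝ) ≤ N := by exact_mod_cast hN
    rw [hΨ]
    have e1 : 1 ≤ (N : ℝ) ^ (2 * e) := Real.one_le_rpow hN1 (by linarith)
    have e2 : 1 ≤ (N : ℝ) ^ h := Real.one_le_rpow hN1 (by linarith)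
    exact one_le_mul_of_one_le_of_one_le e1 e2
  have hhalf : ∀ M N : ℕ, 2 * M ≤ N → Ψ M ≤ 3 / 4 * Ψ N := by
    intro M N hMN
    have h1 : (M : ℝ) ≤ N / 2 := by
      have : (2 : ℝ) * M ≤ N := by exact_mod_cast hMN
      linarith
    have hpow : ∀ p : ℝ, 1 / 2 ≤ p → (M : ℝ) ^ p ≤ 3 / 4 * (N : ℝ) ^ p := by
      intro p hp
      have e1 : (M : ℝ) ^ p ≤ ((N : ℝ) / 2) ^ p := Real.rpow_le_rpow (by positivity) h1 (by linarith)
      have e2 : ((N : ℝ) / 2) ^ p = (N : ℝ) ^ p / 2 ^ p := Real.div_rpow (by positivity) (by norm_num) p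
      have e3 : (4 / 3 : ℝ) ≤ 2 ^ p := by
        have e4 : (4 / 3 : ℝ) ≤ 2 ^ (1 / 2 : ℝ) := by
          rw [← Real.sqrt_eq_rpow]
          apply Real.le_sqrt_of_sq_le
          norm_num
        exact e4.trans (Real.rpow_le_rpow_of_exponent_le (by norm_num) hp)
      rw [e2] at e1
      refine e1.trans ?_
      rw [div_le_iff₀ (by positivity)]
      have e5 : 0 ≤ (N : ℝ) ^ p := by positivity
      nlinarith
    have e1 : (M : ℝ) ^ (2 * e) ≤ (N : ℝ) ^ (2 * e) := by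
      apply Real.rpow_le_rpow (by positivity) _ (by linarith)
      exact_mod_cast (by omega : M ≤ N)
    have e2 := hpow h hh
    rw [hΨ]
    calc (M : ℝ) ^ (2 * e) * (M : ℝ) ^ h ≤
          (N : ℝ) ^ (2 * e) * (3 / 4 * (N : ℝ) ^ h) := by gcongr
      _ = 3 / 4 * ((N : ℝ) ^ (2 * e) * (N : ℝ) ^ h) := by ring
  -- the dyadic pieces
  have hdy : ∀ M : ℕ, 1 ≤ M → ∀ x : ℝ, ‖∑ n ∈ Ioc M (2 * M), ((ArithmeticFunction.moebius n : ℤ) : ℂ) * ex (n * x)‖ ≤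
      C' * Ψ M := by
    intro M hM x
    have hM1 : (1 : ℝ) ≤ M := by exact_mod_cast hM
    have hM0 : (0 : ℝ) < M := by linarith
    have key := stepA hM (a := fun n => ((ArithmeticFunction.moebius n : ℤ) : ℂ)) (fun n => by
      rw [Complex.norm_intCast]
      exact_mod_cast ArithmeticFunction.abs_moebius_le_one)
      (B := C * (M : ℝ) ^ e * (M : ℝ) ^ h) (fun z => hG1 M hM z) x
    refine key.trans ?_
    have e1 : Real.log M ≤ (M : ℝ) ^ e / e := Real.log_le_rpow_div hM0.le he0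
    have e2 : 1 ≤ (M : ℝ) ^ e := Real.one_le_rpow hM1 he0.le
    have e3 : 1 + Real.log M ≤ (1 + 1 / e) * (M : ℝ) ^ e := by
      have : (1 + 1 / e) * (M : ℝ) ^ e = (M : ℝ) ^ e + (M : ℝ) ^ e / e := by ring
      rw [this]
      linarith
    have e4 : (M : ℝ) ^ (2 * e) = (M : ℝ) ^ e * (M : ℝ) ^ e := by
      rw [← Real.rpow_add hM0]
      congr 1
      ring
    rw [hC', hΨ]
    simp only
    rw [e4]
    have e5 : 0 ≤ C * (M : ℝ) ^ e * (M : ℝ) ^ h := by positivity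
    calc 8 * (1 + Real.log M) * (C * (M : ℝ) ^ e * (M : ℝ) ^ h) ≤
          8 * ((1 + 1 / e) * (M : ℝ) ^ e) * (C * (M : ℝ) ^ e * (M : ℝ) ^ h) := by gcongr
      _ = _ := by ring
  have hind : ∀ N : ℕ, 1 ≤ N → ∀ x : ℝ, ‖FM N x‖ ≤ 4 * (C' + 2) * Ψ N := by
    intro N
    induction N using Nat.strong_induction_on with
    | _ N ih =>
      intro hN x
      rcases Nat.lt_or_ge N 2 with hlt | hge
      · have : N = 1 := by omega
        subst this
        have e1 : ‖FM 1 x‖ ≤ 1 := by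
          unfold FM
          simp [norm_ex]
        have e2 := hΨ1 1 le_rfl
        nlinarith
      · obtain ⟨M, hM⟩ : ∃ M : ℕ, M = N / 2 := ⟨_, rfl⟩
        have hM1 : 1 ≤ M := by omega
        have hMN : M < N := by omega
        have h2M : 2 * M ≤ N := by omega
        have h3 := ih M hMN hM1 x
        have h4 := hdy M hM1 x
        have hsplit : FM N x = FM M x + ∑ n ∈ Ioc M (2 * M), ((ArithmeticFunction.moebius n : ℤ) : ℂ) * ex (n * x) +
            ∑ n ∈ Ioc (2 * M) N, ((ArithmeticFunction.moebius n : ℤ) : ℂ) * ex (n * x) := by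
          unfold FM
          have e1 : ∀ k : ℕ, Icc 1 k = Ioc 0 k := fun k => by
            ext n
            simp only [mem_Icc, mem_Ioc]
            omega
          rw [e1, e1, sum_Ioc_consecutive _ (by omega) (by omega), sum_Ioc_consecutive _ (by omega) (by omega)]
        have h5 : ‖∑ n ∈ Ioc (2 * M) N, ((ArithmeticFunction.moebius n : ℤ) : ℂ) * ex (n * x)‖ ≤ 1 := by
          have e1 : ∀ n ∈ Ioc (2 * M) N, ‖((ArithmeticFunction.moebius n : ℤ) : ℂ) * ex (n * x)‖ ≤ 1 := by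
            intro n _
            rw [norm_mul, norm_ex, mul_one, Complex.norm_intCast]
            exact_mod_cast ArithmeticFunction.abs_moebius_le_one
          refine (norm_sum_le _ _).trans ((sum_le_card_nsmul _ _ _ e1).trans ?_)
          rw [Nat.card_Ioc, nsmul_eq_mul, mul_one]
          have : N - 2 * M ≤ 1 := by omega
          exact_mod_cast this
        have h6 := hhalf M N h2M
        have h7 := hΨ1 N hN
        rw [hsplit]
        have h8 := norm_add₃_le (a := FM M x)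
          (b := ∑ n ∈ Ioc M (2 * M), ((ArithmeticFunction.moebius n : ℤ) : ℂ) * ex (n * x))
          (c := ∑ n ∈ Ioc (2 * M) N, ((ArithmeticFunction.moebius n : ℤ) : ℂ) * ex (n * x))
        have h9 : 4 * (C' + 2) * Ψ M ≤ 4 * (C' + 2) * (3 / 4 * Ψ N) := mul_le_mul_of_nonneg_left h6 (by positivity)
        have h10 : C' * Ψ M ≤ C' * (3 / 4 * Ψ N) := mul_le_mul_of_nonneg_left h6 hC'0.le
        have h11 := hΨ0 N
        nlinarith
  refine ⟨4 * (C' + 2), by positivity, fun N hN x => ?_⟩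
  have hN1 : (1 : ℝ) ≤ N := by exact_mod_cast hN
  have hN0 : (0 : ℝ) < N := by linarith
  refine (hind N hN x).trans ?_
  rw [hΨ]
  simp only
  have e1 : (N : ℝ) ^ (2 * e) ≤ (N : ℝ) ^ ε := Real.rpow_le_rpow_of_exponent_le hN1 he2
  have e2 : 0 ≤ (N : ℝ) ^ h := by positivity
  calc 4 * (C' + 2) * ((N : ℝ) ^ (2 * e) * (N : ℝ) ^ h) ≤ 4 * (C' + 2) * ((N : ℝ) ^ ε * (N : ℝ) ^ h) := by gcongr
    _ = _ := by rw [← Real.rpow_add hN0, add_comm ε h]

/-- **W+ from `PLR`.** -/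
theorem asm34 {h : ℝ} (hh : 1 / 2 ≤ h) (hP : PLR (1 / 2) h) :
    ∀ ε : ℝ, 0 < ε → ∃ C : ℝ, 0 < C ∧ ∀ N : ℕ, 1 ≤ N → ∀ x : ℝ, ‖FM N x‖ ≤ C * (N : ℝ) ^ (h + ε) :=
  sharp_of_smooth hh fun _ hε => sup_GM34 hh hP hε

end Pool.Helper19.WZ
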